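import Mathlib

/-!
# Stage 2 of THEOREM SD, parts (v), (vi), (vii): from the functional equation of the
# K-theoretic conormal data to a splitting

`q j` is `P_(E_j) / (1-T)^c` (an integral polynomial in `T`), `q 0 = h`, `m = n + 1 - c`.
`T = e^(-u)`.  Everything here is elementary algebra and one-variable analysis.

OUTPUT (A) `S_Aout`: if `(1-T)^c h = prod (1-T^(d_i))` and `m >= 3c+1`, then
`q_j = e_j(T^(d_1),..,T^(d_c)) h mod (1-T)^m`.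
OUTPUT (B) `S_Bout`: if `h >= 0`, `h(0) = 1`, `deg h <= s`, `m >= 2c^2 + 128(c+s)`: there are
`d_1..d_c >= 1` with `(1-T)^c h = prod (1-T^(d_i))`.
-/

open Polynomial

namespace SDV

noncomputable section

/-- `e^(x u)` as a formal power series in `u`. -/
def eu (x : ℂ) : PowerSeries ℂ := PowerSeries.rescale x (PowerSeries.exp ℂ)

/-- the substitution `T = e^(-u)`. -/
def tau (F : ℤ[X]) : PowerSeries ℂ := Polynomial.aeval (eu (-1)) F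

/-- The data which the geometry gives. -/
structure Dat (c m : ℕ) (q : ℕ → ℤ[X]) : Prop where
  hz : ∀ j, c < j → q j = 0
  h1 : ∀ j, (q j).eval 1 = (c.choose j : ℤ) * (q 0).eval 1
  hp : 0 < (q 0).eval 1
  fe : ∀ j, (1 - X : ℤ[X]) ^ m ∣ (-1) ^ j * (q j).comp (X ^ 2) * (q 0) ^ 2 -
      (q 0).comp (X ^ 2) * ∑ p ∈ Finset.HasAntidiagonal.antidiagonal (2 * j), (-1) ^ p.2 * q p.1 * q p.2
  ii : (1 - X : ℤ[X]) ^ m ∣ (∑ j ∈ Finset.range (c + 1), (-1) ^ j * q j) -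
      (1 - X) ^ c * (q 0) ^ 2

/-- `r k` is the coefficient of `u^k` of a solution `r(t;u)` of
`r(t;u) r(-t;u) = r(-t^2;2u) mod u^m`, `r(t;0) = (1+t)^c`, `r(0;u) = 1`, degree `<= c` in `t`. -/
structure Sol (c m : ℕ) (r : ℕ → ℂ[X]) : Prop where
  r0 : r 0 = (1 + X) ^ c
  rd : ∀ k, (r k).natDegree ≤ c
  rz : ∀ k, 1 ≤ k → (r k).coeff 0 = 0
  fe : ∀ k, k < m → ∑ p ∈ Finset.HasAntidiagonal.antidiagonal k, r p.1 * (r p.2).comp (-X) =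
      C (2 ^ k : ℂ) * (r k).comp (-X ^ 2)

/-- the `u^k`-coefficient of `prod_j (1 + t e^(-x_j u))`. -/
def rx {c : ℕ} (x : Fin c → ℂ) (k : ℕ) : ℂ[X] :=
  ∑ A : Finset (Fin c), C ((-∑ i ∈ A, x i) ^ k / (k.factorial : ℂ)) * X ^ A.card

/-- `Lead c F χ`: the initial form (order `c`) of `sum F_k(t) u^k` at `(t,u) = (-1,0)` is
`u^c χ((1+t)/u)`. -/
def Lead (c : ℕ) (F : ℕ → ℂ[X]) (χ : ℂ[X]) : Prop :=
  ∀ k, k ≤ c → (1 + X : ℂ[X]) ^ (c - k + 1) ∣ F k - C (χ.coeff (c - k)) * (1 + X) ^ (c - k)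

/-- `e_j(e^(-x_1 u), .., e^(-x_c u))`. -/
def esx {c : ℕ} (x : Fin c → ℂ) (j : ℕ) : PowerSeries ℂ :=
  ∑ A ∈ (Finset.univ : Finset (Fin c)).powersetCard j, eu (-∑ i ∈ A, x i)

/-- `e_j(T^(d_1), .., T^(d_c))`. -/
def esd {c : ℕ} (d : Fin c → ℕ) (j : ℕ) : ℤ[X] :=
  ∑ A ∈ (Finset.univ : Finset (Fin c)).powersetCard j, X ^ (∑ i ∈ A, d i)

/-- `g(u) = prod_j (1 - e^(-x_j u))`, formal. -/
def gx {c : ℕ} (x : Fin c → ℂ) : PowerSeries ℂ := ∏ j, (1 - eu (-(x j)))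

/-- `r_j = q_j / q_0` as a power series in `u`. -/
def rho (q : ℕ → ℤ[X]) (j : ℕ) : PowerSeries ℂ := tau (q j) * (tau (q 0))⁻¹

/-- `r_k(t) = sum_j [u^k](q_j/q_0) t^j`. -/
def rq (c : ℕ) (q : ℕ → ℤ[X]) (k : ℕ) : ℂ[X] :=
  ∑ j ∈ Finset.range (c + 1), C (PowerSeries.coeff k (rho q j)) * X ^ j

/-! ## Part (v) -/

/-- [V1] LEMMA L.  PROOF.  `e` the multiplicity of the root `-1`, suppose `e < b`.
`ρ = (X+1)^e τ`, `τ(-1) ≠ 0` (`Polynomial.exists_eq_pow_rootMultiplicity_mul_and_not_dvd`).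
`ρ.comp(-X) = (1-X)^e τ(-X)`, `ρ.comp(-X^2) = (1-X)^e (1+X)^e τ(-X^2)`.  Cancel `(1-X)^e`:
`(1-X)` divides `(1+X)^c τ(-X) - 2^k (1+X)^e τ(-X^2)`; at `X = 1`: `2^c τ(-1) = 2^(k+e) τ(-1)`. -/
def S_L : Prop := ∀ (c k b : ℕ) (ρ : ℂ[X]), ρ ≠ 0 →
  (1 - X : ℂ[X]) ^ b ∣ (1 + X) ^ c * ρ.comp (-X) - C (2 ^ k : ℂ) * ρ.comp (-X ^ 2) →
  b ≤ ρ.rootMultiplicity (-1) ∨ ρ.rootMultiplicity (-1) + k = c

/-- [V2] PROOF (from `S_L`).  Strong induction on `k`; `k = 0` trivial.  In `fe k` the term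
`p = (k,0)` is `r_k (1-X)^c`, the term `(0,k)` is `(1+X)^c r_k(-X)`, in the others `0 < p.2 < k` and
`(1-X)^(c-p.2) ∣ r_(p.2)(-X)` (compose the induction hypothesis with `-X`).  So
`(1-X)^(c-k+1) ∣ (1+X)^c r_k(-X) - 2^k r_k(-X^2)`; use `S_L` with `b = c-k+1` (if `r_k ≠ 0`) and
`Polynomial.le_rootMultiplicity_iff`. -/
def S_Div : Prop := ∀ (c m : ℕ) (r : ℕ → ℂ[X]), Sol c m r → ∀ k, k ≤ c → k < m →
  (1 + X : ℂ[X]) ^ (c - k) ∣ r k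

/-- [V3] UNIQUENESS.  PROOF (from `S_L`).  Let `k < m` be the least index with `r_k ≠ r'_k`
(`k ≥ 1`), `ρ = r_k - r'_k`.  The difference of the two equations `fe k` is
`ρ (1-X)^c + (1+X)^c ρ(-X) = 2^k ρ(-X^2)`.  By `S_L` with `b = c`, `e = rootMultiplicity (-1) ρ`:
either `e ≥ c`, so `ρ = a (1+X)^c` (degree `≤ c`), `a = ρ(0) = 0`; or `e + k = c`, so `k ≤ c` and
`(1+X)^(c-k+1) ∣ ρ` gives `e ≥ c-k+1`.  Contradiction. -/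
def S_Uni : Prop := ∀ (c m : ℕ) (r r' : ℕ → ℂ[X]), Sol c m r → Sol c m r' →
  (∀ k, k ≤ c → k < m → (1 + X : ℂ[X]) ^ (c - k + 1) ∣ r k - r' k) → ∀ k, k < m → r k = r' k

/-- [V4a] `rx` is the coefficient of the product.  PROOF.  `Finset.prod_one_add` /
`Finset.prod_add`; `eu x * eu y = eu (x+y)` is `PowerSeries.exp_mul_exp_eq_exp_add`. -/
def S_rxP : Prop := ∀ (c : ℕ) (x : Fin c → ℂ) (k : ℕ),
  rx x k = PowerSeries.coeff k (∏ j, (1 + PowerSeries.C (X : ℂ[X]) *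
    PowerSeries.map (Polynomial.C : ℂ →+* ℂ[X]) (eu (-(x j)))))

/-- [V4b] `rx x` is a solution.  PROOF (from `S_rxP` or directly).  `r0`: `(1+X)^c` is
`sum_A X^|A|`.  `rd`: `|A| ≤ c`.  `rz`: `A = ∅`, `0^k = 0`.  `fe`: with `Y_j = e^(-x_j u)`:
`prod (1+tY_j) prod(1-tY_j) = prod(1 - t^2 Y_j^2)` and `Y_j^2 = e^(-2x_j u)`.
[The ring homomorphisms: `t ↦ -t` on coefficients, `t ↦ -t^2`, `u ↦ 2u`.] -/
def S_rxS : Prop := ∀ (c m : ℕ) (x : Fin c → ℂ), Sol c m (rx x)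

/-- [V4c] leading form of `rx x`.  PROOF (from `S_rxP`).  Induction on the number of factors:
if `F` (as a function `ℕ → ℂ[X]`, coefficients of a power series over `ℂ[X]`) satisfies
`Lead c F χ` and `G_0 = 1+X`, `(1+X) ∣ G_1 - C a`, then `Lead (c+1) (F*G) (χ (X + C a))`:
the `k`-th coefficient is `F_k G_0 + F_(k-1) G_1 + sum_(j≥2) F_(k-j) G_j` and `(1+X)^(c-i) ∣ F_i`.
Here `G = 1 + t e^(-a u)`: `G_0 = 1+t`, `G_1 = -a t = a - a(1+t)`. -/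
def S_rxL : Prop := ∀ (c : ℕ) (x : Fin c → ℂ), Lead c (rx x) (∏ j, (X + C (x j)))

/-- [V5] PROOF (from `S_Div`).  `r_k = (1+X)^(c-k) τ_k`, `λ_k := τ_k(-1)`, `λ_0 = 1`;
`χ := sum_(k ≤ c) C (λ_k) X^(c-k)` is monic of degree `c`, so it splits:
`χ = prod_j (X + C (x_j))`, `-x_j` the roots (`IsAlgClosed.splits`).
`(1+X) ∣ τ_k - C λ_k`. -/
def S_Ex : Prop := ∀ (c m : ℕ) (r : ℕ → ℂ[X]), c < m → Sol c m r →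
  ∃ x : Fin c → ℂ, Lead c r (∏ j, (X + C (x j)))

/-- [V6] PROOF: `S_Ex`, `S_rxL`, `S_rxS`, `S_Uni`. -/
def S_V : Prop := ∀ (c m : ℕ) (r : ℕ → ℂ[X]), c < m → Sol c m r →
  ∃ x : Fin c → ℂ, ∀ k, k < m → r k = rx x k

/-- [T1] divisibility under `T = e^(-u)`.  PROOF.  `tau (1-X) = 1 - e^(-u) = u * unit`, `tau F` has
constant coefficient `F(1)`.  `->`: multiplicativity.  `<-`: if `(1-X)^m ∤ F`, write
`F = (1-X)^k F_1`, `F_1(1) ≠ 0`, `k < m` (over `ℤ`: `1-X` is minus a monic polynomial), then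
`tau F = u^k * unit`. -/
def S_T1 : Prop := ∀ (m : ℕ) (F : ℤ[X]),
  (1 - X : ℤ[X]) ^ m ∣ F ↔ (PowerSeries.X : PowerSeries ℂ) ^ m ∣ tau F

/-- [T2] small facts on `tau`: coefficients, constant coefficient, `T ↦ T^2` is `u ↦ 2u`,
`tau (T^i) = e^(-iu)`. -/
def S_T2 : Prop := ∀ F : ℤ[X],
  (∀ k, PowerSeries.coeff k (tau F) = ∑ i ∈ F.support,
    (F.coeff i : ℂ) * ((-(i : ℂ)) ^ k / (k.factorial : ℂ))) ∧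
  PowerSeries.constantCoeff (tau F) = ((F.eval 1 : ℤ) : ℂ) ∧
  tau (F.comp (X ^ 2)) = PowerSeries.rescale 2 (tau F) ∧ (∀ i : ℕ, tau (X ^ i) = eu (-(i : ℂ)))

/-- [V7] PROOF (from `S_T1`, `S_T2`).  `tau (q 0)` is a unit (constant coefficient `h(1) ≠ 0`).
`r0`: constant coefficients, `h1`, `(1+X)^c = sum binom(c,j) X^j`.  `rz`: `rho q 0 = 1`.
`fe`: apply `tau` to `Dat.fe j`, divide by the unit `tau(q 0)^2 tau(q 0)(2u)`: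
`(-1)^j ρ_j(2u) ≡ sum_(a+b=2j) (-1)^b ρ_a ρ_b mod u^m`; compare the coefficients of `u^k t^(2j)`;
the coefficients of odd powers of `t` vanish on both sides (antisymmetry `a <-> b`). -/
def S_VS : Prop := ∀ (c m : ℕ) (q : ℕ → ℤ[X]), Dat c m q → Sol c m (rq c q)

/-- [V8] PROOF (from `S_V`, `S_VS`).  Coefficient of `t^j` in `rq c q k = rx x k`. -/
def S_Br : Prop := ∀ (c m : ℕ) (q : ℕ → ℤ[X]), c < m → Dat c m q →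
  ∃ x : Fin c → ℂ, ∀ j, (PowerSeries.X : PowerSeries ℂ) ^ m ∣
    tau (q j) - esx x j * tau (q 0)

/-- [V9] PROOF (from `S_T1`).  `tau` of `Dat.ii` and `sum_j (-1)^j e_j(Y) = prod (1-Y_j)`;
cancel the unit `tau (q 0)`. -/
def S_P1 : Prop := ∀ (c m : ℕ) (q : ℕ → ℤ[X]) (x : Fin c → ℂ), Dat c m q →
  (∀ j, (PowerSeries.X : PowerSeries ℂ) ^ m ∣ tau (q j) - esx x j * tau (q 0)) →
  (PowerSeries.X : PowerSeries ℂ) ^ m ∣ tau ((1 - X) ^ c * q 0) - gx x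

/-! ## Part (vi) -/

/-- [P1] PROOF.  `gx x = u^c G`, `G(0) = prod x_j`; `tau ((1-X)^c h) = u^c H`, `H(0) = h(1)`. -/
def S_Pr : Prop := ∀ (c m : ℕ) (h : ℤ[X]) (x : Fin c → ℂ), c < m →
  (PowerSeries.X : PowerSeries ℂ) ^ m ∣ tau ((1 - X) ^ c * h) - gx x →
  ∏ j, x j = ((h.eval 1 : ℤ) : ℂ)

/-- [P2] logarithmic derivative.  PROOF.  `u (1-e^(-xu))' = x u e^(-xu) = (1-e^(-xu)) B(xu)`,
`B(v) = v/(e^v-1) = sum B_k v^k/k!` (`bernoulliPowerSeries_mul_exp_sub_one`). -/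
def S_Ber : Prop := ∀ (c : ℕ) (x : Fin c → ℂ),
  PowerSeries.X * PowerSeries.derivative ℂ (gx x) =
    gx x * ∑ j, PowerSeries.rescale (x j)
      (PowerSeries.mk fun k => ((_root_.bernoulli k : ℚ) : ℂ) / (k.factorial : ℂ))

/-- [P3] PROOF (from `S_Ber`).  `g_x - g_y = u^m W`.
`u g_x' g_y - u g_y' g_x = g_x g_y D`, `D = sum_j B(x_j u) - sum_j B(y_j u)`.  The left side is
`u (u^m W)' g_y - u g_y' u^m W`, divisible by `u^(m+c)`; `g_x g_y = u^(2c) unit`.  So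
`u^(m-c) ∣ D`. -/
def S_Pl : Prop := ∀ (c m : ℕ) (x y : Fin c → ℂ), (∀ j, x j ≠ 0) → (∀ j, y j ≠ 0) →
  (PowerSeries.X : PowerSeries ℂ) ^ m ∣ gx x - gx y → ∀ l, l + c < m →
  ((_root_.bernoulli l : ℚ) : ℂ) * ∑ j, x j ^ l = ((_root_.bernoulli l : ℚ) : ℂ) * ∑ j, y j ^ l

/-- [P4] PROOF.  `hasSum_zeta_nat` : `ζ(2l) > 0` is a multiple of `bernoulli (2l)`. -/
def S_B2 : Prop := ∀ l : ℕ, 1 ≤ l → _root_.bernoulli (2 * l) ≠ 0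

/-- [P5] PROOF.  Newton's identities (`MvPolynomial.mul_esymm_eq_sum`): the elementary symmetric
functions agree, so `prod (X - a_j) = prod (X - b_j)`, so the multisets of roots agree. -/
def S_Nt : Prop := ∀ (c : ℕ) (a b : Fin c → ℂ),
  (∀ l, 1 ≤ l → l ≤ c → ∑ j, a j ^ l = ∑ j, b j ^ l) →
  ∃ σ : Equiv.Perm (Fin c), ∀ j, a (σ j) = b j

/-- [P6] PROOF (from `S_Pl`, `S_B2`, `S_Nt`).  `l = 1`: `bernoulli 1 = -1/2`.  `l = 2i`,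
`1 ≤ i ≤ c` (`2c + c < m`): `S_Nt` for `x_j^2` and `d_j^2`: `x (σ j)^2 = d_j^2`, so
`x (σ j) = ± d_j`; `sum x_j = sum d_j` and `d_j > 0`: all signs are `+`. -/
def S_Mul : Prop := ∀ (c m : ℕ) (x : Fin c → ℂ) (d : Fin c → ℕ), (∀ j, x j ≠ 0) →
  (∀ j, 1 ≤ d j) → 3 * c + 1 ≤ m →
  (PowerSeries.X : PowerSeries ℂ) ^ m ∣ gx x - gx (fun i => ((d i : ℕ) : ℂ)) →
  ∃ σ : Equiv.Perm (Fin c), ∀ j, x (σ j) = ((d j : ℕ) : ℂ)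

/-- [A] PROOF (from `S_Br`, `S_P1`, `S_Pr`, `S_Mul`, `S_T1`, `S_T2`).
`tau ((1-X)^c q_0) = prod (1 - e^(-d_i u)) = gx d`, `x` is a permutation of `d`,
`esx x j = esx d j = tau (esd d j)`. -/
def S_Aout : Prop := ∀ (c m : ℕ) (q : ℕ → ℤ[X]) (d : Fin c → ℕ), Dat c m q →
  (∀ i, 1 ≤ d i) → (1 - X : ℤ[X]) ^ c * q 0 = ∏ i, (1 - X ^ (d i)) → 3 * c + 1 ≤ m →
  ∀ j, (1 - X : ℤ[X]) ^ m ∣ q j - esd d j * q 0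

/-! ## Part (vii) -/

/-- `f(u) = P(e^(-u))`, `P = (1-T)^c h`. -/
def fP (c : ℕ) (h : ℤ[X]) (u : ℂ) : ℂ :=
  (1 - Complex.exp (-u)) ^ c * Polynomial.aeval (Complex.exp (-u)) h

/-- `g(u) = prod (1 - e^(-x_j u))`. -/
def gP {c : ℕ} (x : Fin c → ℂ) (u : ℂ) : ℂ := ∏ j, (1 - Complex.exp (-(x j * u)))

/-- [G1] `g` is the sum of its power series.  PROOF.  Sums and products of absolutely convergent
power series (Cauchy product). -/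
def S_G1 : Prop := ∀ (c : ℕ) (x : Fin c → ℂ) (u : ℂ),
  HasSum (fun k => PowerSeries.coeff k (gx x) * u ^ k) (gP x u)

/-- [G2] PROOF.  `1 - e^(-xu)` has coefficients `0` and `-(-x)^k/k!`, so (coefficientwise, absolute
values) it is majorized by `|x| u e^(|x| u)`; the product by `prod|x_j| u^c e^(B u)`. -/
def S_G2 : Prop := ∀ (c : ℕ) (x : Fin c → ℂ) (k : ℕ),
  (k < c → PowerSeries.coeff k (gx x) = 0) ∧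
  ‖PowerSeries.coeff (c + k) (gx x)‖ ≤
    (∏ j, ‖x j‖) * (∑ j, ‖x j‖) ^ k / (k.factorial : ℝ)

/-- [F1] as [G1], for `f`. -/
def S_F1 : Prop := ∀ (c : ℕ) (h : ℤ[X]) (u : ℂ),
  HasSum (fun k => PowerSeries.coeff k (tau ((1 - X) ^ c * h)) * u ^ k) (fP c h u)

/-- [F2] as [G2]: `(1-e^(-u))^c` is majorized by `u^c e^(cu)`, `h(e^(-u)) = sum h_i e^(-iu)` by
`h(1) e^(su)`. -/
def S_F2 : Prop := ∀ (c s : ℕ) (h : ℤ[X]) (k : ℕ), h.natDegree ≤ s → (∀ i, 0 ≤ h.coeff i) →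
  (k < c → PowerSeries.coeff k (tau ((1 - X) ^ c * h)) = 0) ∧
  ‖PowerSeries.coeff (c + k) (tau ((1 - X) ^ c * h))‖ ≤
    ((h.eval 1 : ℤ) : ℝ) * ((c : ℝ) + s) ^ k / (k.factorial : ℝ)

/-- [F3] PROOF (from `S_F1`, `S_F2`).  `sum_k (c+s)^k |u|^k/k! = e^((c+s)|u|)`. -/
def S_F3 : Prop := ∀ (c s : ℕ) (h : ℤ[X]) (u : ℂ), h.natDegree ≤ s → (∀ i, 0 ≤ h.coeff i) →
  ‖fP c h u‖ ≤ ((h.eval 1 : ℤ) : ℝ) * ‖u‖ ^ c * Real.exp (((c : ℝ) + s) * ‖u‖)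

/-- [E] the tail.  PROOF (from `S_G1`, `S_G2`, `S_F1`, `S_F2`).  The coefficients of `f - g` vanish
for `k < m`, and for `k = c + i`, `i ≥ M = m - c`, they are `≤ d (B^i + a^i)/i!`; and
`sum_(i ≥ M) (B|u|)^i/i! ≤ e^(-M) sum_i (e B |u|)^i/i!` (`1 ≤ e^(i-M)`). -/
def S_E : Prop := ∀ (c s m : ℕ) (h : ℤ[X]) (x : Fin c → ℂ) (u : ℂ), c < m → h.natDegree ≤ s →
  (∀ i, 0 ≤ h.coeff i) → (∏ j, ‖x j‖ = ((h.eval 1 : ℤ) : ℝ)) →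
  (PowerSeries.X : PowerSeries ℂ) ^ m ∣ tau ((1 - X) ^ c * h) - gx x →
  ‖fP c h u - gP x u‖ ≤ ((h.eval 1 : ℤ) : ℝ) * ‖u‖ ^ c * Real.exp (-((m : ℝ) - c)) *
    (Real.exp (Real.exp 1 * (∑ j, ‖x j‖) * ‖u‖) +
      Real.exp (Real.exp 1 * ((c : ℝ) + s) * ‖u‖))

/-- [J] JENSEN'S INEQUALITY by Blaschke factors.  PROOF.  `|R^2 - conj(z) u| = R |u - z|` for
`|u| = R`; maximum modulus (`Complex.norm_le_of_forall_mem_frontier_norm_le` on the ball) for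
`prod_i ((R^2 - conj(z_i) u)/R) * H(u)` at `u = 0`. (The hypothesis `|z_i| ≤ R` is not needed.) -/
def S_J : Prop := ∀ (ι : Type) (S : Finset ι) (z : ι → ℂ) (H : ℂ → ℂ) (R Mx : ℝ), 0 < R →
  Differentiable ℂ H → (∀ u : ℂ, ‖u‖ = R → ‖(∏ i ∈ S, (u - z i)) * H u‖ ≤ Mx) →
  ‖H 0‖ * R ^ S.card ≤ Mx

/-- [D] PROOF.  Induction on `S`; `dslope`. -/
def S_Dv : Prop := ∀ (F : ℂ → ℂ) (S : Finset ℂ), Differentiable ℂ F → (∀ z ∈ S, F z = 0) →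
  ∃ H : ℂ → ℂ, Differentiable ℂ H ∧ ∀ u, F u = (∏ z ∈ S, (u - z)) * H u

/-- [K] PROOF.  `K = ⌊y⌋`.  `K = 0`: `y < 1`, the left side is `≤ 1`.  `K ≥ 1`:
`y^K/K! ≥ K^K/K! ≥ 2^(K-1)` (induction, `(K+1)^K ≥ 2 K^K`, Bernoulli), `K - 1 ≥ y - 2`. -/
def S_K : Prop := ∀ y : ℝ, 0 ≤ y →
  (4 : ℝ) ^ (y - 2) ≤ (y ^ ⌊y⌋₊ / (⌊y⌋₊.factorial : ℝ)) ^ 2

/-- [Z] PROOF (from `S_J`, `S_Dv`, `S_K`).  `y_j = |x_j| R/(2π)`, `K_j = ⌊y_j⌋`.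
`1 - e^(-x_j u)` vanishes at `0` and at the distinct points `z_(jk) = 2πik/x_j`, `0 < |k| ≤ K_j`; so
(`S_Dv`) it is `u prod_k (u - z_(jk)) H_j(u)`, and the derivative at `0` gives
`|H_j(0)| = |x_j| / prod_k |z_(jk)|`.  On `|u| = R`: `‖prod_(j,k) (u - z_(jk)) prod_j H_j(u)‖ ≤
Mx prod|x_j|`.  `S_J`: `prod_j prod_(0<|k|≤K_j) (R |x_j|/(2π|k|)) ≤ Mx`, and the inner product is
`(y_j^(K_j)/K_j!)^2 ≥ 4^(y_j-2)`. -/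
def S_Z : Prop := ∀ (c : ℕ) (x : Fin c → ℂ) (R Mx : ℝ), (∀ j, x j ≠ 0) → 0 < R →
  (∀ u : ℂ, ‖u‖ = R → ‖gP x u‖ ≤ Mx * (∏ j, ‖x j‖) * R ^ c) →
  ∏ j, (4 : ℝ) ^ (‖x j‖ * R / (2 * Real.pi) - 2) ≤ Mx

/-- [B7] PROOF (from `S_E`, `S_F3`, `S_Z`, `S_Pr`).  `a = c+s`, `M = m-c ≥ 98c+26`,
`B = sum |x_j|`, suppose `B > 7a`.  `R = (M-1)/(eB)`.  On `|u| = R`: `|f-g| ≤ d R^c e^(-M) 2 e^(M-1) ≤
d R^c`, `|f| ≤ d R^c e^(aR)`, so `|g| ≤ d R^c (e^(aR)+1) ≤ d R^c 2 e^(aR)`.  `S_Z`, logarithms: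
`(BR/(2π) - 2c) log 4 ≤ aR + log 2`, `BR ≤ 4πc + (π/log 2) aR + π`, `aR < BR/7`,
`1 - π/(7 log 2) ≥ 0.3525`, so `(M-1)/e = BR ≤ 8.92 (4c+1)`, `M - 1 ≤ 24.25(4c+1) = 97c + 24.25`,
contradiction. -/
def S_B7 : Prop := ∀ (c s m : ℕ) (h : ℤ[X]) (x : Fin c → ℂ), 1 ≤ c → h.natDegree ≤ s →
  (∀ i, 0 ≤ h.coeff i) → 0 < h.eval 1 → 99 * c + 26 ≤ m →
  (PowerSeries.X : PowerSeries ℂ) ^ m ∣ tau ((1 - X) ^ c * h) - gx x →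
  ∑ j, ‖x j‖ ≤ 7 * ((c : ℝ) + s)

/-- [N1] PROOF.  `|sinh((p+iq)/2)|^2 = sinh^2(p/2) + sin^2(q/2) ≥ (p/2)^2 + ((2/π)(q/2))^2`
(Jordan, `Real.mul_le_sin`). -/
def S_N1 : Prop := ∀ y : ℂ, |y.im| ≤ Real.pi → 2 / Real.pi * ‖y‖ ≤ ‖2 * Complex.sinh (y / 2)‖

/-- [N2] STEP 4.  PROOF (from `S_J`, `S_Dv`, `S_N1`).  `D = prod|x_j|`, `k_j = round (Re x_j)`,
`w = 2πi`, `z'_j = w (k_j/x_j - 1)`, so `x_j (w + v) = 2πi k_j + x_j (v - z'_j)` and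
`2 sinh(x_j(w+v)/2) = ± 2 sinh (x_j (v-z'_j)/2) = ± (v - z'_j) σ_j(v)`, `σ_j` entire,
`|σ_j(0)| |z'_j| = |2 sinh (x_j z'_j/2)|`, and `|σ_j(0)| ≥ (2/π)|x_j|` (`S_N1`,
`x_j z'_j = 2πi(k_j - x_j)`, `|Re (k_j - x_j)| ≤ 1/2`; if `z'_j = 0` then `σ_j(0) = ± x_j`).
`g(u) g(-u) = prod(-(2 sinh(x_j u/2))^2)`, so on `|v| = δ`: `‖prod_j (v-z'_j) σ_j(v)‖ ≤ K D δ^c`.
`J_1 = {j : |z'_j| ≤ δ}`, `J_2` the rest.  `S_J` with the points `z'_j`, `j ∈ J_1`, and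
`H = prod_(J_1) σ_j prod_(J_2) (v-z'_j) σ_j`: `prod_j |σ_j(0)| δ^|J_1| prod_(J_2) |z'_j| ≤ K D δ^c`,
so `prod_(J_2) (|z'_j|/δ) ≤ K (π/2)^c`.  Each factor is `> 1`, so `|z'_j| ≤ K (π/2)^c δ` for all `j`
(also for `J_1`, as `1 ≤ K (π/2)^c`).  Finally `|x_j - k_j| = |x_j| |z'_j|/(2π)`. -/
def S_N2 : Prop := ∀ (c : ℕ) (x : Fin c → ℂ) (δ K : ℝ), (∀ j, x j ≠ 0) → 0 < δ → 0 < K →
  (∀ v : ℂ, ‖v‖ = δ →
    ‖gP x (2 * Real.pi * Complex.I + v)‖ ≤ K * (∏ j, ‖x j‖) * δ ^ c ∧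
    ‖gP x (-(2 * Real.pi * Complex.I + v))‖ ≤ K * (∏ j, ‖x j‖) * δ ^ c) →
  ∀ j, ∃ k : ℤ, ‖x j - (k : ℂ)‖ ≤ K / (2 * Real.pi) * (Real.pi / 2) ^ c * δ * ‖x j‖

/-- [C1] PROOF.  The coefficients are averages of `F(ζ) ζ^(-n)` over the `N`-th roots of unity,
`N > deg F` (or Cauchy estimates), so integers of absolute value `< 1`. -/
def S_C1 : Prop := ∀ F : ℤ[X], (∀ T : ℂ, ‖T‖ = 1 → ‖Polynomial.aeval T F‖ < 1) → F = 0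

/-- [C2] telescoping.  PROOF.  Induction: `A A' - B B' = (A-B) A' + B (A'-B')`. -/
def S_C2 : Prop := ∀ (c : ℕ) (A B : Fin c → ℂ) (b e : ℝ), 0 ≤ b → 0 ≤ e →
  (∀ j, ‖B j‖ ≤ b) → (∀ j, ‖A j - B j‖ ≤ e) → ‖∏ j, A j - ∏ j, B j‖ ≤ (b + e) ^ c - b ^ c

/-- [C3] STEP 5.  PROOF (from `S_C1`, `S_C2`).  `T = e^(-iθ)`, `|θ| ≤ π`.
`|e^(-ix_jθ) - e^(-ik_jθ)| ≤ e^(πη) - 1 ≤ 2πη` (`πη ≤ 1`), so by `S_C2` (`b = 2`, `e = 2πη`)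
`|gP x (iθ) - prod(1 - T^(k_j))| ≤ 2^c ((1+πη)^c - 1) ≤ 2^c (e^(cπη) - 1) ≤ 2^(c+1) c π η ≤ 1/2`.
So `|P(T) - prod(1-T^(k_j))| ≤ 3/4` on `|T| = 1`.  With `K = sum_(k_j<0) |k_j|`:
`T^K (P - prod(1-T^(k_j)))` is an integral polynomial, `= 0` by `S_C1`;
`T^K prod(1-T^(k_j)) = ± prod (1-T^|k_j|)`; no `k_j = 0` (`P ≠ 0`), and at `T = 0`: `K = 0`. -/
def S_C3 : Prop := ∀ (c : ℕ) (P : ℤ[X]) (x : Fin c → ℂ) (k : Fin c → ℤ) (η : ℝ), 1 ≤ c →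
  P.coeff 0 = 1 → 0 ≤ η → η ≤ 1 / (4 * Real.pi * c * 2 ^ c) → (∀ j, ‖x j - (k j : ℂ)‖ ≤ η) →
  (∀ θ : ℝ, |θ| ≤ Real.pi →
    ‖Polynomial.aeval (Complex.exp (-(Complex.I * θ))) P - gP x (Complex.I * θ)‖ ≤ 1 / 4) →
  ∃ d : Fin c → ℕ, (∀ i, 1 ≤ d i) ∧ P = ∏ i, (1 - X ^ (d i))

/-- [N3] the numerical estimates, `a = c+s`, `δ = 1/(28 a c π^c)`, `M = m-c ≥ 2c^2+127c+128s`.
PROOF.  Take logarithms: `c log(6.3/δ) = c(log 176.4 + log a + log c + c log π)`,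
`log c ≤ c/e`, `c log a ≤ c log c + s` (`log(1+s/c) ≤ s/c`), `log 176.4 ≤ 5.18`, `log π ≤ 1.145`,
`7 * 6.3 * e ≤ 119.9`; sum `≤ 1.89c^2 + 5.18c + s + 119.9(c+s) + 0.72 ≤ M`. -/
def S_N3 : Prop := ∀ (c s m : ℕ) (δ : ℝ), 1 ≤ c → 2 * c ^ 2 + 128 * (c + s) ≤ m →
  δ = 1 / (28 * ((c : ℝ) + s) * c * Real.pi ^ c) →
  0 < δ ∧ 2 * Real.pi + δ ≤ 6.3 ∧ Real.exp (((c : ℝ) + s) * δ) ≤ 1.02 ∧
  (6.3 : ℝ) ^ c * Real.exp (-((m : ℝ) - c)) *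
    (Real.exp (Real.exp 1 * (7 * ((c : ℝ) + s)) * 6.3) +
      Real.exp (Real.exp 1 * ((c : ℝ) + s) * 6.3)) ≤ 0.98 * δ ^ c ∧
  (7 * ((c : ℝ) + s)) ^ c * Real.pi ^ c * Real.exp (-((m : ℝ) - c)) *
    (Real.exp (Real.exp 1 * (7 * ((c : ℝ) + s)) * Real.pi) +
      Real.exp (Real.exp 1 * ((c : ℝ) + s) * Real.pi)) ≤ 1 / 4

/-- [X] PROOF (from `S_B7`, `S_Pr`, `S_E`, `S_F3`, `S_N2`, `S_N3`, `S_C3`).
`B ≤ 7a`, `d = prod|x_j| ≤ (7a)^c`.  On `|v| = δ`, `u = ±(2πi+v)`: `f(u) = f(±v)` (period `2πi`),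
`|f(u)| ≤ 1.02 d δ^c`, `|f(u)-g(u)| ≤ 0.98 d δ^c` (`|u| ≤ 6.3`), so `|g(u)| ≤ 2 d δ^c`.  `S_N2` with
`K = 2`: `|x_j - k_j| ≤ (1/π)(π/2)^c δ 7a = 1/(4πc2^c)`.  For `u = iθ`: `|f-g| ≤ 1/4`.  `S_C3`. -/
def S_X : Prop := ∀ (c s m : ℕ) (h : ℤ[X]) (x : Fin c → ℂ), 1 ≤ c → h.natDegree ≤ s →
  (∀ i, 0 ≤ h.coeff i) → h.coeff 0 = 1 → 2 * c ^ 2 + 128 * (c + s) ≤ m →
  (PowerSeries.X : PowerSeries ℂ) ^ m ∣ tau ((1 - X) ^ c * h) - gx x →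
  ∃ d : Fin c → ℕ, (∀ i, 1 ≤ d i) ∧ (1 - X : ℤ[X]) ^ c * h = ∏ i, (1 - X ^ (d i))

/-- [B] the final statement.  PROOF: `S_Br`, `S_P1`, `S_X`, then `S_Aout`. -/
def S_Bout : Prop := ∀ (c s m : ℕ) (q : ℕ → ℤ[X]), 1 ≤ c → Dat c m q →
  (q 0).natDegree ≤ s → (∀ i, 0 ≤ (q 0).coeff i) → (q 0).coeff 0 = 1 →
  2 * c ^ 2 + 128 * (c + s) ≤ m →
  ∃ d : Fin c → ℕ, (∀ i, 1 ≤ d i) ∧ (1 - X : ℤ[X]) ^ c * q 0 = ∏ i, (1 - X ^ (d i)) ∧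
    ∀ j, (1 - X : ℤ[X]) ^ m ∣ q j - esd d j * q 0

end

end SDV
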