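import Pool.Agent.Lib.MP_776403_ag.SD.V.Spec

open Polynomial

namespace SDV

namespace B7_aux

lemma log_ineq {c : ℕ} (x : Fin c → ℂ) (a R : ℝ)
    (h : ∏ j, (4 : ℝ) ^ (‖x j‖ * R / (2 * Real.pi) - 2) ≤ 2 * Real.exp (a * R)) :
    ((∑ j, ‖x j‖) * R / (2 * Real.pi) - 2 * c) * (2 * Real.log 2) ≤ Real.log 2 + a * R := by
  have h4 : (0 : ℝ) < 4 := by norm_num
  have e1 : ∏ j, (4 : ℝ) ^ (‖x j‖ * R / (2 * Real.pi) - 2) =
      (4 : ℝ) ^ (∑ j, (‖x j‖ * R / (2 * Real.pi) - 2)) :=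
    (Real.rpow_sum_of_pos h4 _ _).symm
  rw [e1] at h
  have hpos : (0 : ℝ) < (4 : ℝ) ^ (∑ j, (‖x j‖ * R / (2 * Real.pi) - 2)) :=
    Real.rpow_pos_of_pos h4 _
  have h2 := Real.log_le_log hpos h
  rw [Real.log_rpow h4, Real.log_mul (by norm_num) (Real.exp_pos _).ne', Real.log_exp] at h2
  have e2 : Real.log 4 = 2 * Real.log 2 := by
    rw [show (4 : ℝ) = 2 ^ 2 by norm_num, Real.log_pow]; norm_num
  have e3 : ∑ j, (‖x j‖ * R / (2 * Real.pi) - 2) = (∑ j, ‖x j‖) * R / (2 * Real.pi) - 2 * c := by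
    rw [Finset.sum_sub_distrib, Finset.sum_mul, Finset.sum_div]
    simp [mul_comm]
  rw [e2, e3] at h2
  exact h2

lemma num (c : ℕ) (t M aR : ℝ) (ht : 0 < t) (hM : 98 * (c : ℝ) + 26 ≤ M)
    (htM : Real.exp 1 * t = M - 1) (haR : aR ≤ t / 7)
    (h : (t / (2 * Real.pi) - 2 * c) * (2 * Real.log 2) ≤ Real.log 2 + aR) : False := by
  have hπ : 0 < Real.pi := Real.pi_pos
  have hπ2 : Real.pi < 3.1416 := Real.pi_lt_d4
  have hL1 : 0.6931471803 < Real.log 2 := Real.log_two_gt_d9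
  have hL2 : Real.log 2 < 0.6931471808 := Real.log_two_lt_d9
  have hE : Real.exp 1 < 2.7182818286 := Real.exp_one_lt_d9
  have hc : (0 : ℝ) ≤ c := Nat.cast_nonneg c
  set L := Real.log 2 with hL
  set p := Real.pi with hp
  set E := Real.exp 1 with hEE
  -- multiply by p
  have h1 : t * L - 4 * c * L * p ≤ L * p + t / 7 * p := by
    have h2 : (t / (2 * p) - 2 * c) * (2 * L) * p = t * L - 4 * c * L * p := by
      field_simp
      ring
    have h3 : (t / (2 * p) - 2 * c) * (2 * L) * p ≤ (L + aR) * p :=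
      mul_le_mul_of_nonneg_right h hπ.le
    rw [h2] at h3
    nlinarith
  have h4 : t * (L - p / 7) ≤ L * p * (4 * c + 1) := by nlinarith
  have h5 : 0.2443 ≤ L - p / 7 := by linarith
  have h6 : L * p ≤ 2.1777 := by nlinarith
  have h7 : t * 0.2443 ≤ 2.1777 * (4 * c + 1) := by
    have h8 : t * 0.2443 ≤ t * (L - p / 7) := mul_le_mul_of_nonneg_left h5 ht.le
    have h9 : L * p * (4 * c + 1) ≤ 2.1777 * (4 * c + 1) :=
      mul_le_mul_of_nonneg_right h6 (by linarith)
    linarith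
  have h10 : M - 1 ≤ 2.7182818286 * t := by
    rw [← htM]
    exact mul_le_mul_of_nonneg_right hE.le ht.le
  linarith

end B7_aux

theorem pB7 (hE : S_E) (hF3 : S_F3) (hZ : S_Z) (hPr : S_Pr) : S_B7 := by
  intro c s m h x hc hdeg hco h1 hm hdiv
  by_contra hcon
  push Not at hcon
  have hcm : c < m := by omega
  have hprod : ∏ j, x j = ((h.eval 1 : ℤ) : ℂ) := hPr c m h x hcm hdiv
  have hd0 : (0 : ℝ) < ((h.eval 1 : ℤ) : ℝ) := by exact_mod_cast h1
  have hx : ∀ j, x j ≠ 0 := by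
    intro j hj
    have h0 : ∏ j, x j = 0 := Finset.prod_eq_zero (Finset.mem_univ j) hj
    rw [hprod] at h0
    have h2 : h.eval 1 = 0 := by exact_mod_cast h0
    omega
  have hnorm : ∏ j, ‖x j‖ = ((h.eval 1 : ℤ) : ℝ) := by
    rw [← norm_prod, hprod, Complex.norm_intCast]
    exact abs_of_pos hd0
  set B : ℝ := ∑ j, ‖x j‖ with hB
  set a : ℝ := (c : ℝ) + s with ha
  set M : ℝ := (m : ℝ) - c with hMdef
  set d : ℝ := ((h.eval 1 : ℤ) : ℝ) with hd
  have hcR : (1 : ℝ) ≤ c := by exact_mod_cast hc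
  have hsR : (0 : ℝ) ≤ s := Nat.cast_nonneg s
  have ha0 : 0 < a := by linarith
  have hB0 : 0 < B := by linarith
  have hM : 98 * (c : ℝ) + 26 ≤ M := by
    have : ((99 * c + 26 : ℕ) : ℝ) ≤ (m : ℝ) := by exact_mod_cast hm
    push_cast at this
    rw [hMdef]; linarith
  have hE0 : 0 < Real.exp 1 := Real.exp_pos 1
  set t : ℝ := (M - 1) / Real.exp 1 with ht
  have ht0 : 0 < t := div_pos (by linarith) hE0
  have htM : Real.exp 1 * t = M - 1 := by rw [ht]; field_simp
  set R : ℝ := t / B with hR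
  have hR0 : 0 < R := div_pos ht0 hB0
  have hBR : B * R = t := by rw [hR]; field_simp
  have haR : a * R ≤ t / 7 := by
    have : 7 * a * R ≤ B * R := mul_le_mul_of_nonneg_right hcon.le hR0.le
    linarith
  have hbound : ∀ u : ℂ, ‖u‖ = R → ‖gP x u‖ ≤ (2 * Real.exp (a * R)) * (∏ j, ‖x j‖) * R ^ c := by
    intro u hu
    have h2 := hE c s m h x u hcm hdeg hco hnorm hdiv
    have h3 := hF3 c s h u hdeg hco
    rw [hu] at h2 h3
    have e1 : Real.exp 1 * B * R = M - 1 := by rw [mul_assoc, hBR, htM]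
    have e2 : Real.exp 1 * a * R ≤ M - 1 := by
      rw [mul_assoc, ← htM]
      apply mul_le_mul_of_nonneg_left _ hE0.le
      linarith
    have h4 : Real.exp (-M) * (Real.exp (Real.exp 1 * B * R) + Real.exp (Real.exp 1 * a * R)) ≤ 1 := by
      have h5 : Real.exp (Real.exp 1 * B * R) + Real.exp (Real.exp 1 * a * R) ≤
          2 * Real.exp (M - 1) := by
        rw [e1]
        have := Real.exp_le_exp.mpr e2
        linarith
      have h6 : Real.exp (-M) * (2 * Real.exp (M - 1)) = 2 * Real.exp (-1) := by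
        rw [show Real.exp (-M) * (2 * Real.exp (M - 1)) = 2 * (Real.exp (-M) * Real.exp (M - 1)) by ring,
          ← Real.exp_add]
        congr 2
        ring
      have h7 : 2 * Real.exp (-1) ≤ 1 := by
        rw [Real.exp_neg]
        have h8 : (2 : ℝ) ≤ Real.exp 1 := by linarith [Real.exp_one_gt_d9]
        rw [← div_eq_mul_inv, div_le_one hE0]
        exact h8
      calc _ ≤ Real.exp (-M) * (2 * Real.exp (M - 1)) :=
            mul_le_mul_of_nonneg_left h5 (Real.exp_pos _).le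
        _ ≤ 1 := by rw [h6]; exact h7
    have hRc : 0 < R ^ c := pow_pos hR0 c
    have h9 : ‖fP c h u - gP x u‖ ≤ d * R ^ c := by
      calc ‖fP c h u - gP x u‖ ≤ d * R ^ c * Real.exp (-M) *
            (Real.exp (Real.exp 1 * B * R) + Real.exp (Real.exp 1 * a * R)) := h2
        _ = d * R ^ c * (Real.exp (-M) *
            (Real.exp (Real.exp 1 * B * R) + Real.exp (Real.exp 1 * a * R))) := by ring
        _ ≤ d * R ^ c * 1 := mul_le_mul_of_nonneg_left h4 (mul_pos hd0 hRc).le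
        _ = d * R ^ c := mul_one _
    have h10 : ‖gP x u‖ ≤ ‖fP c h u‖ + ‖fP c h u - gP x u‖ := by
      have := norm_sub_le (fP c h u) (fP c h u - gP x u)
      simpa using this
    have h11 : (1 : ℝ) ≤ Real.exp (a * R) := Real.one_le_exp (mul_pos ha0 hR0).le
    rw [hnorm]
    have h12 : ‖fP c h u‖ ≤ d * R ^ c * Real.exp (a * R) := h3
    have h13 : d * R ^ c ≤ d * R ^ c * Real.exp (a * R) :=
      le_mul_of_one_le_right (mul_pos hd0 hRc).le h11
    calc ‖gP x u‖ ≤ d * R ^ c * Real.exp (a * R) + d * R ^ c * Real.exp (a * R) := by linarith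
      _ = 2 * Real.exp (a * R) * d * R ^ c := by ring
  have h20 := hZ c x R (2 * Real.exp (a * R)) hx hR0 hbound
  have h21 := B7_aux.log_ineq x a R h20
  rw [← hB, hBR] at h21
  exact B7_aux.num c t M (a * R) ht0 hM htM haR h21

end SDV
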