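import Pool.Agent.Lib.MP_776403_ag.SD.V.Spec

/-! Module Bout of SDV: the output (B). -/

open Polynomial

namespace SDV

theorem pBout (hBr : S_Br) (hP1 : S_P1) (hX : S_X) (hA : S_Aout) : S_Bout := by
  intro c s m q hc hD hs hn h0 hm
  have hcm : c < m := by
    have h1 : 128 * c ≤ 128 * (c + s) := Nat.mul_le_mul_left _ (Nat.le_add_right _ _)
    have h2 : 128 * (c + s) ≤ 2 * c ^ 2 + 128 * (c + s) := Nat.le_add_left _ _
    omega
  obtain ⟨x, hx⟩ := hBr c m q hcm hD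
  obtain ⟨d, hd, hP⟩ := hX c s m (q 0) x hc hs hn h0 hm (hP1 c m q x hD hx)
  refine ⟨d, hd, hP, hA c m q d hD hd hP ?_⟩
  have h1 : 128 * c ≤ 128 * (c + s) := Nat.mul_le_mul_left _ (Nat.le_add_right _ _)
  have h2 : 128 * (c + s) ≤ 2 * c ^ 2 + 128 * (c + s) := Nat.le_add_left _ _
  omega

end SDV
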