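import Pool.Agent.Lib.MP_776403_ag.SD.V.Spec

/-! Module V/C1 (MP_776403_ag, SD stage 2): an integral polynomial of absolute value `< 1` on the
unit circle is `0`. -/

open Polynomial

noncomputable section

namespace SDV

namespace C1_aux

/-- the power sums of the `N`-th roots of unity -/
theorem sum_pow {N : ℕ} {z : ℂ} (hz : IsPrimitiveRoot z N) (e : ℕ) (he : ¬ N ∣ e) :
    ∑ k ∈ Finset.range N, (z ^ k) ^ e = 0 := by
  have h1 : z ^ e ≠ 1 := fun h => he (hz.dvd_of_pow_eq_one e h)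
  have h2 : ∑ k ∈ Finset.range N, (z ^ k) ^ e = ∑ k ∈ Finset.range N, (z ^ e) ^ k := by
    refine Finset.sum_congr rfl fun k _ => ?_
    rw [← pow_mul, ← pow_mul, mul_comm]
  rw [h2, geom_sum_eq h1]
  have h3 : (z ^ e) ^ N = 1 := by rw [← pow_mul, mul_comm, pow_mul, hz.pow_eq_one, one_pow]
  rw [h3, sub_self, zero_div]

/-- the `n`-th coefficient as an average -/
theorem avg (F : ℤ[X]) {N n : ℕ} (hN : F.natDegree < N) (hn : n < N) {z : ℂ}
    (hz : IsPrimitiveRoot z N) :
    ∑ k ∈ Finset.range N, (z ^ k) ^ (N - n) * Polynomial.aeval (z ^ k) F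
      = (N : ℂ) * (F.coeff n : ℂ) := by
  have h1 : ∀ k ∈ Finset.range N, (z ^ k) ^ (N - n) * Polynomial.aeval (z ^ k) F
      = ∑ m ∈ Finset.range N, (F.coeff m : ℂ) * (z ^ k) ^ (N - n + m) := by
    intro k _
    rw [Polynomial.aeval_eq_sum_range' hN, Finset.mul_sum]
    refine Finset.sum_congr rfl fun m _ => ?_
    rw [zsmul_eq_mul, pow_add]
    ring
  rw [Finset.sum_congr rfl h1, Finset.sum_comm, Finset.sum_eq_single n]
  · rw [← Finset.mul_sum, Nat.sub_add_cancel hn.le]
    have h2 : ∀ k ∈ Finset.range N, (z ^ k) ^ N = 1 := by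
      intro k _
      rw [← pow_mul, mul_comm, pow_mul, hz.pow_eq_one, one_pow]
    rw [Finset.sum_congr rfl h2]
    simp [mul_comm]
  · intro m hm hne
    rw [← Finset.mul_sum, sum_pow hz, mul_zero]
    intro hd
    have hm' := Finset.mem_range.mp hm
    obtain ⟨t, ht⟩ := hd
    have h0 : 0 < N - n + m := by omega
    have h1 : N - n + m < N * 2 := by omega
    have h2 : t < 2 := by
      rw [ht] at h1
      exact Nat.lt_of_mul_lt_mul_left h1
    have h3 : t ≠ 0 := by
      rintro rfl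
      omega
    have h4 : t = 1 := by omega
    subst h4
    omega
  · intro h
    exact absurd (Finset.mem_range.mpr hn) h

end C1_aux

open C1_aux in
theorem pC1 : S_C1 := by
  intro F hF
  by_contra hne
  obtain ⟨n, hn⟩ : ∃ n, F.coeff n ≠ 0 := by
    by_contra h
    push Not at h
    exact hne (Polynomial.ext fun n => by rw [h n, Polynomial.coeff_zero])
  have hN0 : F.natDegree + 1 ≠ 0 := Nat.succ_ne_zero _
  have hz := Complex.isPrimitiveRoot_exp (F.natDegree + 1) hN0
  have hnN : n < F.natDegree + 1 := Nat.lt_succ_of_le (Polynomial.le_natDegree_of_ne_zero hn)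
  have key := avg F (Nat.lt_succ_self _) hnN hz
  set z := Complex.exp (2 * Real.pi * Complex.I / ((F.natDegree + 1 : ℕ) : ℂ)) with hzdef
  have hz1 : ‖z‖ = 1 := hz.norm'_eq_one hN0
  have h1 : ∀ k ∈ Finset.range (F.natDegree + 1),
      ‖(z ^ k) ^ (F.natDegree + 1 - n) * Polynomial.aeval (z ^ k) F‖ < 1 := by
    intro k _
    have hk : ‖z ^ k‖ = 1 := by rw [norm_pow, hz1, one_pow]
    rw [norm_mul, norm_pow, hk, one_pow, one_mul]
    exact hF _ hk
  have h2 : ‖((F.natDegree + 1 : ℕ) : ℂ) * (F.coeff n : ℂ)‖ < ((F.natDegree + 1 : ℕ) : ℝ) := by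
    rw [← key]
    refine (norm_sum_le _ _).trans_lt ?_
    refine (Finset.sum_lt_sum_of_nonempty (Finset.nonempty_range_iff.mpr hN0) h1).trans_eq ?_
    simp
  rw [norm_mul, Complex.norm_natCast, Complex.norm_intCast] at h2
  have h3 : (1 : ℝ) ≤ |((F.coeff n : ℤ) : ℝ)| := by
    have := Int.one_le_abs hn
    exact_mod_cast this
  have h4 : (0 : ℝ) < ((F.natDegree + 1 : ℕ) : ℝ) := by positivity
  nlinarith

end SDV

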