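import Pool.Agent.Lib.MP_776403_ag.SD.V.Spec

/-! Module C2 of SDV: telescoping product estimate. -/

namespace SDV

theorem pC2 : S_C2 := by
  intro c
  induction c with
  | zero => intro A B b e _ _ _ _; simp
  | succ c ih =>
    intro A B b e hb he hB hAB
    have h1 := ih (fun j => A j.succ) (fun j => B j.succ) b e hb he (fun j => hB _)
      (fun j => hAB _)
    rw [Fin.prod_univ_succ, Fin.prod_univ_succ]
    have hA' : ‖∏ j : Fin c, A j.succ‖ ≤ (b + e) ^ c := by
      rw [norm_prod]
      calc ∏ j : Fin c, ‖A j.succ‖ ≤ ∏ _j : Fin c, (b + e) := by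
            refine Finset.prod_le_prod (fun j _ => norm_nonneg _) fun j _ => ?_
            have : A j.succ = B j.succ + (A j.succ - B j.succ) := by ring
            rw [this]
            exact (norm_add_le _ _).trans (add_le_add (hB _) (hAB _))
        _ = (b + e) ^ c := by simp
    have h2 : A 0 * ∏ j : Fin c, A j.succ - B 0 * ∏ j : Fin c, B j.succ =
        (A 0 - B 0) * ∏ j : Fin c, A j.succ +
          B 0 * (∏ j : Fin c, A j.succ - ∏ j : Fin c, B j.succ) := by ring
    rw [h2]
    calc ‖(A 0 - B 0) * ∏ j : Fin c, A j.succ +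
          B 0 * (∏ j : Fin c, A j.succ - ∏ j : Fin c, B j.succ)‖
        ≤ e * (b + e) ^ c + b * ((b + e) ^ c - b ^ c) := by
          refine (norm_add_le _ _).trans (add_le_add ?_ ?_)
          · rw [norm_mul]
            exact mul_le_mul (hAB 0) hA' (norm_nonneg _) he
          · rw [norm_mul]
            exact mul_le_mul (hB 0) h1 (norm_nonneg _) hb
      _ = (b + e) ^ (c + 1) - b ^ (c + 1) := by ring

end SDV
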