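import Pool.Agent.Lib.MP_776403_ag.SD.V.Spec

/-! # STEP 5: exactness -/

open Polynomial

namespace SDV

namespace C3_aux

theorem pow_bound (c : ℕ) (hc : 1 ≤ c) (η : ℝ) (h0 : 0 ≤ η)
    (h1 : η ≤ 1 / (4 * Real.pi * c * 2 ^ c)) :
    Real.pi * η ≤ 1 ∧ (2 + 2 * Real.pi * η) ^ c - 2 ^ c ≤ 1 / 2 := by
  have hpi := Real.pi_pos
  have hc' : (1 : ℝ) ≤ c := by exact_mod_cast hc
  have h2c : (1 : ℝ) ≤ 2 ^ c := one_le_pow₀ (by norm_num)
  have hpe : 0 ≤ Real.pi * η := by positivity
  set y : ℝ := c * (Real.pi * η) with hy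
  have hy0 : 0 ≤ y := by positivity
  have hy1 : 2 ^ c * y ≤ 1 / 4 := by
    have : η * (4 * Real.pi * c * 2 ^ c) ≤ 1 := by
      rwa [le_div_iff₀ (by positivity)] at h1
    rw [hy]
    nlinarith
  have hy2 : y ≤ 1 := by nlinarith
  have hy3 : Real.pi * η ≤ y := by rw [hy]; nlinarith
  have e1 : (2 + 2 * Real.pi * η) ^ c = 2 ^ c * (1 + Real.pi * η) ^ c := by
    rw [← mul_pow]; congr 1; ring
  have e2 : (1 + Real.pi * η) ^ c ≤ Real.exp y := by
    rw [hy, Real.exp_nat_mul]
    refine pow_le_pow_left₀ (by positivity) ?_ c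
    linarith [Real.add_one_le_exp (Real.pi * η)]
  have e3 : Real.exp y - 1 ≤ 2 * y := by
    have h := Real.abs_exp_sub_one_le (x := y) (by rw [abs_of_nonneg hy0]; exact hy2)
    rw [abs_of_nonneg hy0] at h
    exact le_trans (le_abs_self _) h
  refine ⟨le_trans hy3 hy2, ?_⟩
  rw [e1]
  nlinarith

/-- the comparison on the unit circle -/
theorem circ (hC2 : S_C2) (c : ℕ) (x : Fin c → ℂ) (k : Fin c → ℤ) (η : ℝ) (hc : 1 ≤ c)
    (h0 : 0 ≤ η) (h1 : η ≤ 1 / (4 * Real.pi * c * 2 ^ c)) (hx : ∀ j, ‖x j - (k j : ℂ)‖ ≤ η)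
    (θ : ℝ) (hθ : |θ| ≤ Real.pi) :
    ‖gP x (Complex.I * θ) - ∏ j, (1 - Complex.exp (-(Complex.I * θ)) ^ (k j))‖ ≤ 1 / 2 := by
  obtain ⟨hb1, hb2⟩ := pow_bound c hc η h0 h1
  have hpi := Real.pi_pos
  have hT : ‖Complex.exp (-(Complex.I * θ))‖ = 1 := by
    rw [Complex.norm_exp]; simp
  have key : ∀ j, ‖Complex.exp (-(x j * (Complex.I * θ))) -
      Complex.exp (-(Complex.I * θ)) ^ (k j)‖ ≤ 2 * (Real.pi * η) := by
    intro j
    have e1 : Complex.exp (-(x j * (Complex.I * θ))) =
        Complex.exp (-(Complex.I * θ)) ^ (k j) *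
          Complex.exp (-((x j - (k j : ℂ)) * (Complex.I * θ))) := by
      rw [← Complex.exp_int_mul, ← Complex.exp_add]
      congr 1
      ring
    have hn : ‖-((x j - (k j : ℂ)) * (Complex.I * θ))‖ ≤ Real.pi * η := by
      rw [norm_neg, norm_mul, norm_mul, Complex.norm_I, one_mul, Complex.norm_real,
        Real.norm_eq_abs, mul_comm]
      exact mul_le_mul hθ (hx j) (norm_nonneg _) hpi.le
    have e2 := Complex.norm_exp_sub_one_le (le_trans hn hb1)
    rw [e1]
    have e3 : Complex.exp (-(Complex.I * θ)) ^ (k j) *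
          Complex.exp (-((x j - (k j : ℂ)) * (Complex.I * θ))) -
          Complex.exp (-(Complex.I * θ)) ^ (k j) =
        Complex.exp (-(Complex.I * θ)) ^ (k j) *
          (Complex.exp (-((x j - (k j : ℂ)) * (Complex.I * θ))) - 1) := by ring
    rw [e3, norm_mul, norm_zpow, hT, one_zpow, one_mul]
    linarith
  refine le_trans (hC2 c (fun j => 1 - Complex.exp (-(x j * (Complex.I * θ))))
    (fun j => 1 - Complex.exp (-(Complex.I * θ)) ^ (k j)) 2 (2 * (Real.pi * η)) (by norm_num)
    (by positivity) ?_ ?_) ?_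
  · intro j
    refine le_trans (norm_sub_le _ _) ?_
    rw [norm_zpow, hT, one_zpow, norm_one]
    norm_num
  · intro j
    have e4 : (1 - Complex.exp (-(x j * (Complex.I * θ)))) -
        (1 - Complex.exp (-(Complex.I * θ)) ^ (k j)) =
        -(Complex.exp (-(x j * (Complex.I * θ))) -
          Complex.exp (-(Complex.I * θ)) ^ (k j)) := by ring
    change ‖(1 - Complex.exp (-(x j * (Complex.I * θ)))) -
        (1 - Complex.exp (-(Complex.I * θ)) ^ (k j))‖ ≤ _
    rw [e4, norm_neg]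
    exact key j
  · have : (2 : ℝ) + 2 * (Real.pi * η) = 2 + 2 * Real.pi * η := by ring
    rw [this]
    exact hb2

/-- the polynomial version of `1 - T^k` -/
noncomputable def qk (k : ℤ) : ℤ[X] := if k < 0 then X ^ k.natAbs - 1 else 1 - X ^ k.natAbs

def Kk (k : ℤ) : ℕ := if k < 0 then k.natAbs else 0

theorem qk_eval (k : ℤ) (T : ℂ) (hT : T ≠ 0) :
    aeval T (qk k) = T ^ Kk k * (1 - T ^ k) := by
  unfold qk Kk
  split_ifs with h
  · have e : (k.natAbs : ℤ) = -k := by omega
    have e2 : T ^ k.natAbs * T ^ k = 1 := by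
      rw [← zpow_natCast, e, ← zpow_add₀ hT]; simp
    simp only [map_sub, map_pow, aeval_X, map_one]
    linear_combination e2
  · have e : (k.natAbs : ℤ) = k := by omega
    have e2 : T ^ k.natAbs = T ^ k := by rw [← zpow_natCast, e]
    simp only [map_sub, map_pow, aeval_X, map_one, pow_zero, one_mul, e2]

end C3_aux

open C3_aux in
theorem pC3 (hC1 : S_C1) (hC2 : S_C2) : S_C3 := by
  intro c P x k η hc hP0 h0 h1 hx hθ
  have hmain : X ^ (∑ j, Kk (k j)) * P - ∏ j, qk (k j) = 0 := by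
    apply hC1
    intro T hT
    have hT0 : T ≠ 0 := by
      intro h; rw [h, norm_zero] at hT; norm_num at hT
    have hTe : Complex.exp (-(Complex.I * ((-Complex.arg T : ℝ) : ℂ))) = T := by
      have h := Complex.norm_mul_exp_arg_mul_I T
      rw [hT] at h
      rw [Complex.ofReal_one, one_mul] at h
      rw [← h]
      congr 1
      rw [h]
      push_cast
      ring
    have ha : |(-Complex.arg T : ℝ)| ≤ Real.pi := by
      rw [abs_neg]; exact Complex.abs_arg_le_pi T
    have b1 := hθ (-Complex.arg T) ha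
    have b2 := circ hC2 c x k η hc h0 h1 hx (-Complex.arg T) ha
    rw [hTe] at b1 b2
    have e1 : aeval T (X ^ (∑ j, Kk (k j)) * P - ∏ j, qk (k j)) =
        T ^ (∑ j, Kk (k j)) * (aeval T P - ∏ j, (1 - T ^ (k j))) := by
      rw [map_sub, map_mul, map_pow, aeval_X, map_prod, mul_sub]
      congr 1
      rw [Finset.prod_congr rfl (fun j _ => qk_eval (k j) T hT0), Finset.prod_mul_distrib,
        Finset.prod_pow_eq_pow_sum]
    rw [e1, norm_mul, norm_pow, hT, one_pow, one_mul]
    have e2 : aeval T P - ∏ j, (1 - T ^ (k j)) =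
        (aeval T P - gP x (Complex.I * ((-Complex.arg T : ℝ) : ℂ))) +
        (gP x (Complex.I * ((-Complex.arg T : ℝ) : ℂ)) - ∏ j, (1 - T ^ (k j))) := by ring
    rw [e2]
    refine lt_of_le_of_lt (norm_add_le _ _) ?_
    linarith
  have hne : ∀ j, k j ≠ 0 := by
    intro j hj
    have hq : ∏ i, qk (k i) = 0 := by
      apply Finset.prod_eq_zero (Finset.mem_univ j)
      rw [hj]; simp [qk]
    rw [hq, sub_zero] at hmain
    have hP : P = 0 := by
      rcases mul_eq_zero.mp hmain with h | h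
      · exact absurd h (pow_ne_zero _ X_ne_zero)
      · exact h
    rw [hP] at hP0
    simp at hP0
  have hev : ∀ j, (qk (k j)).eval 0 ≠ 0 := by
    intro j
    have hn : (k j).natAbs ≠ 0 := by have := hne j; omega
    unfold qk
    split_ifs <;> simp [hn]
  have hK : ∑ j, Kk (k j) = 0 := by
    by_contra hK
    have h := congrArg (Polynomial.eval 0) hmain
    rw [eval_sub, eval_mul, eval_pow, eval_X, zero_pow hK, zero_mul, zero_sub, eval_zero,
      neg_eq_zero, eval_prod] at h
    obtain ⟨j, _, hj⟩ := Finset.prod_eq_zero_iff.mp h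
    exact hev j hj
  have hpos : ∀ j, 0 < k j := by
    intro j
    have h := (Finset.sum_eq_zero_iff.mp hK) j (Finset.mem_univ j)
    have h2 := hne j
    unfold Kk at h
    split_ifs at h with h3
    · omega
    · omega
  refine ⟨fun j => (k j).natAbs, fun j => ?_, ?_⟩
  · have := hpos j
    change 1 ≤ (k j).natAbs
    omega
  · rw [hK, pow_zero, one_mul, sub_eq_zero] at hmain
    rw [hmain]
    apply Finset.prod_congr rfl
    intro j _
    unfold qk
    rw [if_neg (by have := hpos j; omega)]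

end SDV
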