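import Pool.Agent.Lib.MP_776403_ag.SD.V.Spec

open Polynomial

noncomputable section

namespace SDV

theorem pDv : S_Dv := by
  intro F S
  induction S using Finset.induction_on generalizing F with
  | empty =>
    intro hF _
    exact ⟨F, hF, by simp⟩
  | insert a S ha ih =>
    intro hF hz
    have h0 : F a = 0 := hz a (Finset.mem_insert_self a S)
    have hG : Differentiable ℂ (dslope F a) := by
      rw [← differentiableOn_univ]
      exact (Complex.differentiableOn_dslope (by simp)).2 hF.differentiableOn
    have e : ∀ u, F u = (u - a) * dslope F a u := by
      intro u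
      have := sub_smul_dslope F a u
      rw [h0, sub_zero, smul_eq_mul] at this
      exact this.symm
    obtain ⟨H, hH, hHe⟩ := ih (dslope F a) hG (by
      intro z hzS
      have hne : z - a ≠ 0 := by
        intro h
        have : z = a := sub_eq_zero.1 h
        exact ha (this ▸ hzS)
      have h1 := e z
      rw [hz z (Finset.mem_insert_of_mem hzS)] at h1
      rcases mul_eq_zero.1 h1.symm with h2 | h2
      · exact absurd h2 hne
      · exact h2)
    refine ⟨H, hH, ?_⟩
    intro u
    rw [Finset.prod_insert ha, e u, hHe u, mul_assoc]

end SDV
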