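import Pool.Agent.Lib.MP_776403_ag.SD.V.Spec

/-!
# Stage 2 of THEOREM SD, module E: the tail bound
-/

set_option autoImplicit false

open Polynomial

namespace SDV

noncomputable section

namespace E_aux

theorem exp_hasSum (y : ℝ) : HasSum (fun i : ℕ => y ^ i / (i.factorial : ℝ)) (Real.exp y) := by
  rw [Real.exp_eq_exp_ℝ]
  exact NormedSpace.expSeries_div_hasSum_exp y

theorem one_le_exp (M : ℝ) (i : ℕ) (h : M ≤ i) : 1 ≤ Real.exp (-M) * Real.exp 1 ^ i := by
  rw [← Real.exp_nat_mul, mul_one, ← Real.exp_add]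
  exact Real.one_le_exp (by linarith)

end E_aux

open E_aux in
theorem pE (hG1 : S_G1) (hG2 : S_G2) (hF1 : S_F1) (hF2 : S_F2) : S_E := by
  intro c s m h x u hcm hs hn hprod hd
  set D : ℝ := ((h.eval 1 : ℤ) : ℝ) with hD
  set B : ℝ := ∑ j, ‖x j‖ with hB
  set a : ℝ := (c : ℝ) + s with ha
  have hD0 : 0 ≤ D := by
    rw [← hprod]
    exact Finset.prod_nonneg fun j _ => norm_nonneg _
  have hB0 : 0 ≤ B := Finset.sum_nonneg fun j _ => norm_nonneg _
  have ha0 : 0 ≤ a := by positivity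
  set d : ℕ → ℂ := fun k => PowerSeries.coeff k (tau ((1 - X) ^ c * h)) * u ^ k -
    PowerSeries.coeff k (gx x) * u ^ k with hdd
  have h1 : HasSum d (fP c h u - gP x u) := (hF1 c h u).sub (hG1 c x u)
  have hz : ∀ k, k < m → d k = 0 := by
    intro k hk
    have h2 := (PowerSeries.X_pow_dvd_iff.1 hd) k hk
    rw [map_sub] at h2
    change _ * u ^ k - _ * u ^ k = 0
    rw [← sub_mul, h2, zero_mul]
  have h3 : HasSum (fun i => d (i + c)) (fP c h u - gP x u) := by
    rw [hasSum_nat_add_iff, Finset.sum_eq_zero, add_zero]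
    · exact h1
    · intro i hi
      exact hz i (lt_trans (Finset.mem_range.1 hi) hcm)
  have h4 : HasSum (fun i : ℕ => D * ‖u‖ ^ c * Real.exp (-((m : ℝ) - c)) *
      ((Real.exp 1 * B * ‖u‖) ^ i / (i.factorial : ℝ) +
        (Real.exp 1 * a * ‖u‖) ^ i / (i.factorial : ℝ)))
      (D * ‖u‖ ^ c * Real.exp (-((m : ℝ) - c)) *
        (Real.exp (Real.exp 1 * B * ‖u‖) + Real.exp (Real.exp 1 * a * ‖u‖))) :=
    ((exp_hasSum _).add (exp_hasSum _)).mul_left _
  refine HasSum.norm_le_of_bounded h3 h4 fun i => ?_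
  by_cases hi : i + c < m
  · rw [hz _ hi, norm_zero]
    positivity
  · have hi2 : ((m : ℝ) - c) ≤ i := by
      have : (m : ℝ) ≤ (i : ℝ) + c := by exact_mod_cast not_lt.1 hi
      linarith
    have e1 := one_le_exp ((m : ℝ) - c) i hi2
    have h5 := (hG2 c x i).2
    have h6 := (hF2 c s h i hs hn).2
    rw [hprod] at h5
    have h7 : ‖d (i + c)‖ ≤ (D * a ^ i / (i.factorial : ℝ) + D * B ^ i / (i.factorial : ℝ)) *
        ‖u‖ ^ (i + c) := by
      change ‖_ * u ^ (i + c) - _ * u ^ (i + c)‖ ≤ _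
      rw [← sub_mul, norm_mul, norm_pow, add_comm i c]
      refine mul_le_mul_of_nonneg_right ((norm_sub_le _ _).trans (add_le_add h6 h5)) ?_
      positivity
    refine h7.trans ?_
    have h8 : (D * a ^ i / (i.factorial : ℝ) + D * B ^ i / (i.factorial : ℝ)) * ‖u‖ ^ (i + c) =
        D * ‖u‖ ^ c * ((B * ‖u‖) ^ i / (i.factorial : ℝ) + (a * ‖u‖) ^ i / (i.factorial : ℝ)) * 1 := by
      rw [pow_add, mul_pow, mul_pow]
      ring
    have h9 : D * ‖u‖ ^ c * Real.exp (-((m : ℝ) - c)) *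
        ((Real.exp 1 * B * ‖u‖) ^ i / (i.factorial : ℝ) +
          (Real.exp 1 * a * ‖u‖) ^ i / (i.factorial : ℝ)) =
        D * ‖u‖ ^ c * ((B * ‖u‖) ^ i / (i.factorial : ℝ) + (a * ‖u‖) ^ i / (i.factorial : ℝ)) *
          (Real.exp (-((m : ℝ) - c)) * Real.exp 1 ^ i) := by
      rw [mul_pow, mul_pow, mul_pow, mul_pow, mul_pow, mul_pow]
      ring
    rw [h8, h9]
    exact mul_le_mul_of_nonneg_left e1 (by positivity)

end

end SDV
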