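import Pool.Agent.Lib.MP_776403_ag.SD.V.Spec

/-!
# `f` is the sum of its power series
-/

open Polynomial

namespace SDV

noncomputable section

theorem pF1 (hT2 : S_T2) : S_F1 := by
  intro c h u
  have hf : fP c h u = ∑ i ∈ ((1 - X : ℤ[X]) ^ c * h).support,
      ((((1 - X : ℤ[X]) ^ c * h).coeff i : ℤ) : ℂ) * Complex.exp (-(i : ℂ) * u) := by
    have e1 : fP c h u = Polynomial.aeval (Complex.exp (-u)) ((1 - X : ℤ[X]) ^ c * h) := by
      simp [fP]
    rw [e1, Polynomial.aeval_def, Polynomial.eval₂_eq_sum, Polynomial.sum]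
    refine Finset.sum_congr rfl fun i _ => ?_
    rw [← Complex.exp_nat_mul]
    have e2 : ((i : ℂ) * -u) = -(i : ℂ) * u := by ring
    rw [e2]
    simp
  rw [hf]
  have e3 : (fun k => PowerSeries.coeff k (tau ((1 - X) ^ c * h)) * u ^ k) =
      fun k => ∑ i ∈ ((1 - X : ℤ[X]) ^ c * h).support,
        ((((1 - X : ℤ[X]) ^ c * h).coeff i : ℤ) : ℂ) *
          ((-(i : ℂ) * u) ^ k / (k.factorial : ℂ)) := by
    funext k
    rw [(hT2 ((1 - X) ^ c * h)).1 k, Finset.sum_mul]
    refine Finset.sum_congr rfl fun i _ => ?_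
    rw [mul_pow]
    ring
  rw [e3]
  refine hasSum_sum fun i _ => ?_
  refine HasSum.mul_left _ ?_
  have h4 := NormedSpace.expSeries_div_hasSum_exp (-(i : ℂ) * u)
  rw [← Complex.exp_eq_exp_ℂ] at h4
  exact h4

end

end SDV
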