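import Pool.Agent.Lib.MP_776403_ag.SD.V.Spec

/-!
# Stage 2 of THEOREM SD, [F2]: the bound for the coefficients of `f`
-/

set_option autoImplicit false

open Polynomial

namespace SDV

noncomputable section

namespace F2_aux

/-- Majorization. -/
def Mj (F : PowerSeries ℂ) (G : PowerSeries ℝ) : Prop :=
  ∀ n, ‖PowerSeries.coeff n F‖ ≤ PowerSeries.coeff n G

theorem Mj.mul {F F' : PowerSeries ℂ} {G G' : PowerSeries ℝ} (h : Mj F G) (h' : Mj F' G') :
    Mj (F * F') (G * G') := by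
  intro n
  rw [PowerSeries.coeff_mul, PowerSeries.coeff_mul]
  refine (norm_sum_le _ _).trans (Finset.sum_le_sum fun p _ => ?_)
  rw [norm_mul]
  exact mul_le_mul (h _) (h' _) (norm_nonneg _) ((norm_nonneg _).trans (h _))

theorem Mj.one : Mj 1 1 := by
  intro n
  rw [PowerSeries.coeff_one, PowerSeries.coeff_one]
  by_cases hn : n = 0 <;> simp [hn]

theorem Mj.pow {F : PowerSeries ℂ} {G : PowerSeries ℝ} (h : Mj F G) (c : ℕ) :
    Mj (F ^ c) (G ^ c) := by
  induction c with
  | zero => rw [pow_zero, pow_zero]; exact Mj.one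
  | succ c ih => rw [pow_succ, pow_succ]; exact ih.mul h

theorem coeff_eu (x : ℂ) (n : ℕ) :
    PowerSeries.coeff n (eu x) = x ^ n / (n.factorial : ℂ) := by
  unfold eu
  rw [PowerSeries.coeff_rescale, PowerSeries.coeff_exp]
  simp [div_eq_mul_inv]

theorem coeff_re (x : ℝ) (n : ℕ) :
    PowerSeries.coeff n (PowerSeries.rescale x (PowerSeries.exp ℝ)) =
      x ^ n / (n.factorial : ℝ) := by
  rw [PowerSeries.coeff_rescale, PowerSeries.coeff_exp]
  simp [div_eq_mul_inv]

theorem tau_one_sub : tau (1 - X) = 1 - eu (-1) := by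
  unfold tau
  rw [map_sub, map_one, aeval_X]

theorem mj_one_sub : Mj (tau (1 - X)) (PowerSeries.X * PowerSeries.exp ℝ) := by
  intro n
  rw [tau_one_sub, map_sub, coeff_eu]
  cases n with
  | zero => simp
  | succ n =>
    rw [PowerSeries.coeff_succ_X_mul, PowerSeries.coeff_exp, PowerSeries.coeff_one,
      if_neg (Nat.succ_ne_zero n), zero_sub, norm_neg, norm_div, norm_pow, norm_neg, norm_one,
      one_pow, Complex.norm_natCast]
    simp only [map_div₀, map_one, map_natCast]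
    refine one_div_le_one_div_of_le (by exact_mod_cast n.factorial_pos) ?_
    exact_mod_cast Nat.factorial_le (Nat.le_succ n)

theorem mj_h (hT2 : S_T2) (s : ℕ) (h : ℤ[X]) (hs : h.natDegree ≤ s)
    (h0 : ∀ i, 0 ≤ h.coeff i) :
    Mj (tau h) (PowerSeries.C ((h.eval 1 : ℤ) : ℝ) *
      PowerSeries.rescale (s : ℝ) (PowerSeries.exp ℝ)) := by
  intro n
  rw [(hT2 h).1 n, PowerSeries.coeff_C_mul, coeff_re]
  have h1 : ((h.eval 1 : ℤ) : ℝ) = ∑ i ∈ h.support, ((h.coeff i : ℤ) : ℝ) := by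
    rw [eval_eq_sum, Polynomial.sum_def]
    push_cast
    simp
  rw [h1, Finset.sum_mul]
  refine (norm_sum_le _ _).trans (Finset.sum_le_sum fun i hi => ?_)
  have hi' : i ≤ s := (le_natDegree_of_mem_supp i hi).trans hs
  have hc : (0 : ℝ) ≤ ((h.coeff i : ℤ) : ℝ) := by exact_mod_cast h0 i
  rw [norm_mul, norm_div, norm_pow, norm_neg, Complex.norm_natCast, Complex.norm_natCast,
    Complex.norm_intCast, abs_of_nonneg hc]
  refine mul_le_mul_of_nonneg_left ?_ hc
  refine div_le_div_of_nonneg_right ?_ (by positivity)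
  exact pow_le_pow_left₀ (by positivity) (by exact_mod_cast hi') n

theorem mj_f (hT2 : S_T2) (c s : ℕ) (h : ℤ[X]) (hs : h.natDegree ≤ s)
    (h0 : ∀ i, 0 ≤ h.coeff i) :
    Mj (tau ((1 - X) ^ c * h)) (PowerSeries.X ^ c * (PowerSeries.C ((h.eval 1 : ℤ) : ℝ) *
      PowerSeries.rescale ((c : ℝ) + s) (PowerSeries.exp ℝ))) := by
  have h1 : tau ((1 - X) ^ c * h) = tau (1 - X) ^ c * tau h := by
    unfold tau
    rw [map_mul, map_pow]
  have h2 := (mj_one_sub.pow c).mul (mj_h hT2 s h hs h0)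
  rw [mul_pow, PowerSeries.exp_pow_eq_rescale_exp, mul_assoc, mul_left_comm
    (PowerSeries.rescale (c : ℝ) (PowerSeries.exp ℝ)), PowerSeries.exp_mul_exp_eq_exp_add] at h2
  rw [h1]
  exact h2

end F2_aux

open F2_aux

theorem pF2 (hT2 : S_T2) : S_F2 := by
  intro c s h k hs h0
  have h1 := mj_f hT2 c s h hs h0
  constructor
  · intro hk
    have h2 := h1 k
    rw [PowerSeries.coeff_X_pow_mul', if_neg (not_le.2 hk)] at h2
    exact norm_le_zero_iff.1 h2
  · have h2 := h1 (c + k)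
    rw [add_comm c k, PowerSeries.coeff_X_pow_mul, PowerSeries.coeff_C_mul, coeff_re] at h2
    rw [add_comm c k, mul_div_assoc]
    exact h2

end

end SDV
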