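import Pool.Agent.Lib.MP_776403_ag.SD.V.Spec

/-!
# THEOREM SD, stage 2: growth of `f` (`pF3`)
-/

set_option autoImplicit false

open Polynomial

namespace SDV

noncomputable section

theorem pF3 (hF1 : S_F1) (hF2 : S_F2) : S_F3 := by
  intro c s h u hs hc
  have h1 := (hasSum_nat_add_iff' c).2 (hF1 c h u)
  have h2 : ∑ i ∈ Finset.range c,
      PowerSeries.coeff i (tau ((1 - X) ^ c * h)) * u ^ i = 0 := by
    refine Finset.sum_eq_zero fun i hi => ?_
    rw [(hF2 c s h i hs hc).1 (Finset.mem_range.1 hi), zero_mul]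
  rw [h2, sub_zero] at h1
  have h3 : HasSum (fun k : ℕ => (((c : ℝ) + s) * ‖u‖) ^ k / (k.factorial : ℝ))
      (Real.exp (((c : ℝ) + s) * ‖u‖)) := by
    rw [Real.exp_eq_exp_ℝ]
    exact NormedSpace.expSeries_div_hasSum_exp _
  refine (HasSum.norm_le_of_bounded h1 (h3.mul_left (((h.eval 1 : ℤ) : ℝ) * ‖u‖ ^ c)) ?_)
  intro k
  rw [norm_mul, norm_pow, Nat.add_comm k c]
  refine (mul_le_mul_of_nonneg_right (hF2 c s h k hs hc).2 (pow_nonneg (norm_nonneg u) _)).trans
    (le_of_eq ?_)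
  rw [mul_pow, pow_add]
  ring

end

end SDV
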