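import Pool.Agent.Lib.MP_776403_ag.SD.V.Spec

/-!
# Stage 2 of THEOREM SD, `S_G1`: `g` is the sum of its power series
-/

open Polynomial

namespace SDV

noncomputable section

namespace G1_aux

/-- `f` converges at `u` to `a`. -/
def Hs (f : PowerSeries ℂ) (u a : ℂ) : Prop := HasSum (fun k => PowerSeries.coeff k f * u ^ k) a

theorem hs_one (u : ℂ) : Hs 1 u 1 := by
  have h := hasSum_single (f := fun k => PowerSeries.coeff k (1 : PowerSeries ℂ) * u ^ k) 0
    (by
      intro k hk
      rw [PowerSeries.coeff_one, if_neg hk, zero_mul])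
  simpa [Hs, PowerSeries.coeff_one] using h

theorem hs_sub {f g : PowerSeries ℂ} {u a b : ℂ} (hf : Hs f u a) (hg : Hs g u b) :
    Hs (f - g) u (a - b) := by
  refine (HasSum.sub hf hg).congr_fun ?_
  intro k
  rw [map_sub, sub_mul]

theorem hs_mul {f g : PowerSeries ℂ} {u a b : ℂ} (hf : Hs f u a) (hg : Hs g u b) :
    Hs (f * g) u (a * b) := by
  have hf1 : Summable (fun k => ‖PowerSeries.coeff k f * u ^ k‖) := hf.summable.norm
  have hg1 : Summable (fun k => ‖PowerSeries.coeff k g * u ^ k‖) := hg.summable.norm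
  have h1 := (summable_norm_sum_mul_antidiagonal_of_summable_norm hf1 hg1).of_norm
  have h2 := tsum_mul_tsum_eq_tsum_sum_antidiagonal_of_summable_norm hf1 hg1
  have h3 := h1.hasSum
  rw [← h2, hf.tsum_eq, hg.tsum_eq] at h3
  refine h3.congr_fun ?_
  intro k
  rw [PowerSeries.coeff_mul, Finset.sum_mul]
  refine Finset.sum_congr rfl fun p hp => ?_
  rw [← Finset.HasAntidiagonal.mem_antidiagonal.1 hp, pow_add]
  ring

theorem hs_eu (x u : ℂ) : Hs (eu x) u (Complex.exp (x * u)) := by
  have h := NormedSpace.expSeries_div_hasSum_exp (𝔸 := ℂ) (x * u)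
  rw [← Complex.exp_eq_exp_ℂ] at h
  refine h.congr_fun ?_
  intro k
  rw [eu, PowerSeries.coeff_rescale, PowerSeries.coeff_exp, mul_pow]
  simp only [map_div₀, map_one, map_natCast]
  ring

end G1_aux

open G1_aux in
theorem pG1 : S_G1 := by
  intro c x u
  show Hs (gx x) u (gP x u)
  have key : ∀ S : Finset (Fin c), Hs (∏ j ∈ S, (1 - eu (-(x j)))) u
      (∏ j ∈ S, (1 - Complex.exp (-(x j * u)))) := by
    intro S
    classical
    induction S using Finset.induction_on with
    | empty => simpa using hs_one u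
    | insert j S hj ih =>
      rw [Finset.prod_insert hj, Finset.prod_insert hj]
      refine hs_mul (hs_sub (hs_one u) ?_) ih
      have := hs_eu (-(x j)) u
      rwa [neg_mul] at this
  exact key Finset.univ

end

end SDV
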