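import Pool.Agent.Lib.MP_776403_ag.SD.V.Spec

set_option autoImplicit false

/-!
# Coefficient bounds for `g`
-/

open Polynomial

namespace SDV

namespace G2_aux

/-- `F` is majorized by `D u^c e^(B u)`. -/
def Maj (F : PowerSeries ℂ) (c : ℕ) (D B : ℝ) : Prop :=
  (∀ k, k < c → PowerSeries.coeff k F = 0) ∧
    ∀ k, ‖PowerSeries.coeff (c + k) F‖ ≤ D * (B ^ k / (k.factorial : ℝ))

theorem binom (a b : ℝ) (k : ℕ) : ∑ p ∈ Finset.HasAntidiagonal.antidiagonal k,
    (a ^ p.1 / (p.1.factorial : ℝ)) * (b ^ p.2 / (p.2.factorial : ℝ)) =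
    (a + b) ^ k / (k.factorial : ℝ) := by
  have h := congrArg (PowerSeries.coeff k) (PowerSeries.exp_mul_exp_eq_exp_add a b)
  rw [PowerSeries.coeff_mul] at h
  simp only [PowerSeries.coeff_rescale, PowerSeries.coeff_exp, map_div₀, map_one, map_natCast] at h
  rw [div_eq_mul_one_div, ← h]
  refine Finset.sum_congr rfl fun p _ => ?_
  ring

theorem Maj.mul {F G : PowerSeries ℂ} {c c' : ℕ} {D D' B B' : ℝ} (hD : 0 ≤ D)
    (hB : 0 ≤ B) (hF : Maj F c D B) (hG : Maj G c' D' B') :
    Maj (F * G) (c + c') (D * D') (B + B') := by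
  obtain ⟨F', hF'⟩ := PowerSeries.X_pow_dvd_iff.2 hF.1
  obtain ⟨G', hG'⟩ := PowerSeries.X_pow_dvd_iff.2 hG.1
  have e : F * G = PowerSeries.X ^ (c + c') * (F' * G') := by
    rw [hF', hG', pow_add]
    ring
  have cF : ∀ k, PowerSeries.coeff (c + k) F = PowerSeries.coeff k F' := by
    intro k
    rw [hF', add_comm, PowerSeries.coeff_X_pow_mul]
  have cG : ∀ k, PowerSeries.coeff (c' + k) G = PowerSeries.coeff k G' := by
    intro k
    rw [hG', add_comm, PowerSeries.coeff_X_pow_mul]
  refine ⟨fun k hk => ?_, fun k => ?_⟩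
  · exact PowerSeries.X_pow_dvd_iff.1 ⟨_, e⟩ k hk
  · rw [e, add_comm, PowerSeries.coeff_X_pow_mul, PowerSeries.coeff_mul, ← binom, Finset.mul_sum]
    refine (norm_sum_le _ _).trans (Finset.sum_le_sum fun p _ => ?_)
    rw [norm_mul, ← cF, ← cG]
    refine (mul_le_mul (hF.2 p.1) (hG.2 p.2) (norm_nonneg _) (by positivity)).trans (le_of_eq ?_)
    ring

theorem maj_one : Maj 1 0 1 0 := by
  refine ⟨fun k hk => absurd hk (by omega), fun k => ?_⟩
  rw [zero_add, PowerSeries.coeff_one]
  by_cases h : k = 0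
  · subst h
    simp
  · rw [if_neg h, norm_zero, zero_pow h]
    simp

theorem maj_fac (x : ℂ) : Maj (1 - eu (-x)) 1 ‖x‖ ‖x‖ := by
  refine ⟨fun k hk => ?_, fun k => ?_⟩
  · have : k = 0 := by omega
    subst this
    rw [map_sub, PowerSeries.coeff_one, if_pos rfl, eu, PowerSeries.coeff_rescale,
      PowerSeries.coeff_exp]
    simp
  · rw [map_sub, PowerSeries.coeff_one, if_neg (by omega), zero_sub, norm_neg, eu,
      PowerSeries.coeff_rescale, PowerSeries.coeff_exp, norm_mul, norm_pow, norm_neg, map_div₀,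
      map_one, map_natCast, norm_div, norm_one, Complex.norm_natCast, pow_add, pow_one, mul_assoc]
    refine mul_le_mul_of_nonneg_left ?_ (norm_nonneg _)
    rw [mul_one_div]
    refine div_le_div_of_nonneg_left (by positivity) (by positivity) ?_
    exact_mod_cast Nat.factorial_le (by omega)

theorem maj_prod {ι : Type} (s : Finset ι) (x : ι → ℂ) :
    Maj (∏ j ∈ s, (1 - eu (-(x j)))) s.card (∏ j ∈ s, ‖x j‖) (∑ j ∈ s, ‖x j‖) := by
  classical
  induction s using Finset.induction_on with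
  | empty => simpa using maj_one
  | insert a s ha ih =>
    rw [Finset.prod_insert ha, Finset.prod_insert ha, Finset.sum_insert ha,
      Finset.card_insert_of_notMem ha, add_comm s.card 1]
    exact Maj.mul (norm_nonneg _) (norm_nonneg _) (maj_fac _) ih

end G2_aux

open G2_aux in
theorem pG2 : S_G2 := by
  intro c x k
  have h := maj_prod (Finset.univ : Finset (Fin c)) x
  rw [Finset.card_univ, Fintype.card_fin] at h
  refine ⟨fun hk => h.1 k hk, ?_⟩
  refine (h.2 k).trans (le_of_eq ?_)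
  ring

end SDV
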