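import Pool.Agent.Lib.MP_776403_ag.SD.V.Spec

/-!
# Module V/J: Jensen's inequality by Blaschke factors
-/

set_option autoImplicit false

namespace SDV

noncomputable section

private theorem j_factor (z u : ℂ) (R : ℝ) (hR : 0 < R) (hu : ‖u‖ = R) :
    ‖((R : ℂ) ^ 2 - (starRingEnd ℂ) z * u) / (R : ℂ)‖ = ‖u - z‖ := by
  have h1 : ((R : ℂ) ^ 2 - (starRingEnd ℂ) z * u) = u * (starRingEnd ℂ) (u - z) := by
    rw [map_sub, mul_sub, Complex.mul_conj, Complex.normSq_eq_norm_sq, hu]
    push_cast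
    ring
  rw [h1, norm_div, norm_mul, Complex.norm_conj, hu, Complex.norm_real, Real.norm_eq_abs,
    abs_of_pos hR]
  field_simp

/-- [J] Jensen's inequality by Blaschke factors. -/
theorem pJ : S_J := by
  intro ι S z H R Mx hR hH hb
  have hd : Differentiable ℂ (fun u : ℂ =>
      (∏ i ∈ S, (((R : ℂ) ^ 2 - (starRingEnd ℂ) (z i) * u) / (R : ℂ))) * H u) := by
    refine Differentiable.mul ?_ hH
    refine Differentiable.fun_finsetProd fun i _ => ?_
    fun_prop
  have hR' : (R : ℂ) ≠ 0 := by exact_mod_cast hR.ne'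
  have h0 : (0 : ℂ) ∈ closure (Metric.ball (0 : ℂ) R) :=
    subset_closure (Metric.mem_ball_self hR)
  have h1 := Complex.norm_le_of_forall_mem_frontier_norm_le
    (Metric.isBounded_ball (x := (0 : ℂ)) (r := R)) hd.diffContOnCl (C := Mx) (fun u hu => by
      rw [frontier_ball (0 : ℂ) hR.ne', mem_sphere_zero_iff_norm] at hu
      have h2 := hb u hu
      rw [norm_mul, norm_prod] at h2 ⊢
      have h3 : ∏ i ∈ S, ‖((R : ℂ) ^ 2 - (starRingEnd ℂ) (z i) * u) / (R : ℂ)‖ =
          ∏ i ∈ S, ‖u - z i‖ := Finset.prod_congr rfl fun i _ => j_factor (z i) u R hR hu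
      rw [h3]
      exact h2) h0
  have h4 : (∏ i ∈ S, (((R : ℂ) ^ 2 - (starRingEnd ℂ) (z i) * 0) / (R : ℂ))) * H 0 =
      (R : ℂ) ^ S.card * H 0 := by
    congr 1
    rw [← Finset.prod_const]
    refine Finset.prod_congr rfl fun i _ => ?_
    rw [mul_zero, sub_zero, sq, mul_div_assoc, div_self hR', mul_one]
  rw [h4, norm_mul, norm_pow, Complex.norm_real, Real.norm_eq_abs, abs_of_pos hR] at h1
  rw [mul_comm]
  exact h1

end

end SDV
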