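import Pool.Agent.Lib.MP_776403_ag.SD.V.Spec

/-! Module K of SDV: `K^K / K! ≥ 2^(K-1)`. -/

namespace SDV

namespace K_aux

lemma two_pow (K : ℕ) (hK : 1 ≤ K) : 2 * (K : ℝ) ^ K ≤ ((K : ℝ) + 1) ^ K := by
  have hK0 : (0 : ℝ) < K := by exact_mod_cast hK
  have h := one_add_mul_le_pow (a := (1 : ℝ) / K) (by have := div_pos one_pos hK0; linarith) K
  have h2 : (1 : ℝ) + K * (1 / K) = 2 := by field_simp; norm_num
  rw [h2] at h
  have h3 : ((K : ℝ) + 1) ^ K = (1 + 1 / (K : ℝ)) ^ K * (K : ℝ) ^ K := by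
    rw [← mul_pow]
    congr 1
    field_simp
  rw [h3]
  exact mul_le_mul_of_nonneg_right h (by positivity)

lemma fact (K : ℕ) : (2 : ℝ) ^ K * ((K + 1).factorial : ℝ) ≤ ((K : ℝ) + 1) ^ (K + 1) := by
  induction K with
  | zero => simp
  | succ K ih =>
    have h1 := two_pow (K + 1) (by omega)
    have h2 : ((K + 1 + 1).factorial : ℝ) = ((K : ℝ) + 1 + 1) * ((K + 1).factorial : ℝ) := by
      rw [Nat.factorial_succ (K + 1)]
      push_cast
      ring
    rw [h2]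
    push_cast at h1 ⊢
    have h3 : (0 : ℝ) ≤ (K : ℝ) + 1 + 1 := by positivity
    calc (2 : ℝ) ^ (K + 1) * (((K : ℝ) + 1 + 1) * ((K + 1).factorial : ℝ))
        = 2 * ((K : ℝ) + 1 + 1) * (2 ^ K * ((K + 1).factorial : ℝ)) := by ring
      _ ≤ 2 * ((K : ℝ) + 1 + 1) * (((K : ℝ) + 1) ^ (K + 1)) := by
          exact mul_le_mul_of_nonneg_left ih (by positivity)
      _ = ((K : ℝ) + 1 + 1) * (2 * ((K : ℝ) + 1) ^ (K + 1)) := by ring
      _ ≤ ((K : ℝ) + 1 + 1) * ((K : ℝ) + 1 + 1) ^ (K + 1) :=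
          mul_le_mul_of_nonneg_left h1 h3
      _ = ((K : ℝ) + 1 + 1) ^ (K + 1 + 1) := by ring

end K_aux

open K_aux in
theorem pK : S_K := by
  intro y hy
  rcases Nat.eq_zero_or_pos ⌊y⌋₊ with h0 | h1
  · rw [h0]
    have hy1 : y < 1 := by
      have := Nat.lt_floor_add_one y
      rw [h0] at this
      simpa using this
    have : (4 : ℝ) ^ (y - 2) ≤ 1 := Real.rpow_le_one_of_one_le_of_nonpos (by norm_num) (by linarith)
    simpa using this
  · obtain ⟨K, hK⟩ : ∃ K, ⌊y⌋₊ = K + 1 := ⟨⌊y⌋₊ - 1, by omega⟩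
    rw [hK]
    have hKy : ((K : ℝ) + 1) ≤ y := by
      have := Nat.floor_le hy
      rw [hK] at this
      push_cast at this
      exact this
    have hyK : y < (K : ℝ) + 1 + 1 := by
      have := Nat.lt_floor_add_one y
      rw [hK] at this
      push_cast at this
      exact this
    have hf := fact K
    have hfp : (0 : ℝ) < ((K + 1).factorial : ℝ) := by exact_mod_cast Nat.factorial_pos _
    have h2 : (2 : ℝ) ^ K ≤ y ^ (K + 1) / ((K + 1).factorial : ℝ) := by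
      rw [le_div_iff₀ hfp]
      exact hf.trans (pow_le_pow_left₀ (by positivity) hKy _)
    have h3 : ((2 : ℝ) ^ K) ^ 2 ≤ (y ^ (K + 1) / ((K + 1).factorial : ℝ)) ^ 2 :=
      pow_le_pow_left₀ (by positivity) h2 2
    refine le_trans ?_ h3
    have h4 : ((2 : ℝ) ^ K) ^ 2 = (4 : ℝ) ^ (K : ℝ) := by
      rw [Real.rpow_natCast, ← pow_mul, mul_comm, pow_mul]
      norm_num
    rw [h4]
    exact Real.rpow_le_rpow_of_exponent_le (by norm_num) (by linarith)

end SDV
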