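import Pool.Agent.Lib.MP_776403_ag.SD.V.Spec

set_option autoImplicit false

/-!
# `|2 sinh (y/2)| ≥ (2/π) |y|`
-/

open Polynomial

namespace SDV

namespace N1_aux

theorem sinh_sq (z : ℂ) : ‖Complex.sinh z‖ ^ 2 = Real.sinh z.re ^ 2 + Real.sin z.im ^ 2 := by
  have h : Complex.sinh z = (Real.sinh z.re * Real.cos z.im : ℝ) +
      (Real.cosh z.re * Real.sin z.im : ℝ) * Complex.I := by
    conv_lhs => rw [← Complex.re_add_im z]
    rw [Complex.sinh_add, Complex.sinh_mul_I, Complex.cosh_mul_I]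
    push_cast
    ring
  rw [h, ← Complex.normSq_eq_norm_sq, Complex.normSq_add_mul_I]
  have h1 := Real.cosh_sq z.re
  have h2 := Real.sin_sq_add_cos_sq z.im
  have h3 : Real.cos z.im ^ 2 = 1 - Real.sin z.im ^ 2 := by linarith
  rw [mul_pow, mul_pow, h1, h3]
  ring

end N1_aux

open N1_aux in
theorem pN1 : S_N1 := by
  intro y hy
  have hpi := Real.pi_pos
  have h1 : ‖2 * Complex.sinh (y / 2)‖ ^ 2 = 4 * (Real.sinh (y.re / 2) ^ 2 + Real.sin (y.im / 2) ^ 2) := by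
    rw [norm_mul, mul_pow, sinh_sq]
    have e1 : (y / 2).re = y.re / 2 := by simp
    have e2 : (y / 2).im = y.im / 2 := by simp
    rw [e1, e2]
    norm_num
  have h2 : (y.re / 2) ^ 2 ≤ Real.sinh (y.re / 2) ^ 2 := by
    rw [← sq_abs, ← sq_abs (Real.sinh _), Real.abs_sinh]
    exact pow_le_pow_left₀ (abs_nonneg _) (Real.self_le_sinh_iff.2 (abs_nonneg _)) 2
  have h3 : (2 / Real.pi * (y.im / 2)) ^ 2 ≤ Real.sin (y.im / 2) ^ 2 := by
    have h4 : 2 / Real.pi * |y.im / 2| ≤ Real.sin |y.im / 2| := by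
      refine Real.mul_le_sin (abs_nonneg _) ?_
      rw [abs_div, abs_two]
      linarith
    have h5 : Real.sin |y.im / 2| ^ 2 = Real.sin (y.im / 2) ^ 2 := by
      rcases abs_cases (y.im / 2) with ⟨h, _⟩ | ⟨h, _⟩
      · rw [h]
      · rw [h, Real.sin_neg, neg_sq]
    rw [← h5]
    have h6 : (2 / Real.pi * (y.im / 2)) ^ 2 = (2 / Real.pi * |y.im / 2|) ^ 2 := by
      rw [mul_pow, mul_pow, sq_abs]
    rw [h6]
    exact pow_le_pow_left₀ (by positivity) h4 2
  refine le_of_sq_le_sq ?_ (norm_nonneg _)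
  rw [h1, mul_pow, ← Complex.normSq_eq_norm_sq, Complex.normSq_apply]
  have h7 : (2 / Real.pi) ^ 2 ≤ 1 := by
    have : 2 / Real.pi ≤ 1 := by
      rw [div_le_one hpi]
      exact Real.two_le_pi
    exact pow_le_one₀ (by positivity) this
  have h8 : (2 / Real.pi) ^ 2 * (y.re * y.re) ≤ y.re * y.re := by
    nlinarith [mul_self_nonneg y.re]
  have h9 : (2 / Real.pi * (y.im / 2)) ^ 2 = (2 / Real.pi) ^ 2 * (y.im * y.im) / 4 := by ring
  rw [h9] at h3
  nlinarith

end SDV
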