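import Pool.Agent.Lib.MP_776403_ag.SD.V.Spec

/-!
# Stage 2 of THEOREM SD, module N2: the numbers `x_j` are near integers
-/

namespace SDV

noncomputable section

/-- `(1 - e^(-y)) (1 - e^y) = -(2 sinh (y/2))^2`. -/
private theorem N2_sq (y : ℂ) :
    ‖1 - Complex.exp (-y)‖ * ‖1 - Complex.exp y‖ = ‖2 * Complex.sinh (y / 2)‖ ^ 2 := by
  rw [← norm_mul, ← norm_pow]
  have h1 : Complex.exp y = Complex.exp (y / 2) * Complex.exp (y / 2) := by
    rw [← Complex.exp_add]
    congr 1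
    ring
  have h2 : Complex.exp (-y) = Complex.exp (-(y / 2)) * Complex.exp (-(y / 2)) := by
    rw [← Complex.exp_add]
    congr 1
    ring
  have h3 : Complex.exp (y / 2) * Complex.exp (-(y / 2)) = 1 := by
    rw [← Complex.exp_add]
    simp
  have h4 : Complex.sinh (y / 2) = (Complex.exp (y / 2) - Complex.exp (-(y / 2))) / 2 := rfl
  have h5 : (1 - Complex.exp (-y)) * (1 - Complex.exp y) = -((2 * Complex.sinh (y / 2)) ^ 2) := by
    rw [h1, h2, h4]
    linear_combination (Complex.exp (y / 2) * Complex.exp (-(y / 2)) - 1) * h3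
  rw [h5, norm_neg]

/-- The same at a point `y + 2πik`. -/
private theorem N2_shift (y u : ℂ) (k : ℤ) (h : u = k * (2 * Real.pi * Complex.I) + y) :
    ‖1 - Complex.exp (-u)‖ * ‖1 - Complex.exp u‖ = ‖2 * Complex.sinh (y / 2)‖ ^ 2 := by
  have h1 : Complex.exp u = Complex.exp y := by
    rw [h, Complex.exp_add, Complex.exp_int_mul_two_pi_mul_I, one_mul]
  have h2 : Complex.exp (-u) = Complex.exp (-y) := by
    rw [Complex.exp_neg, Complex.exp_neg, h1]
  rw [h1, h2]
  exact N2_sq y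

/-- The quotient. -/
private theorem N2_quot (hDv : S_Dv) (hN1 : S_N1) (a z : ℂ) (haz : |(a * z).im| ≤ Real.pi) :
    ∃ H : ℂ → ℂ, Differentiable ℂ H ∧
      (∀ u, 2 * Complex.sinh (a * (u - z) / 2) = (u - z) * H u) ∧
      2 / Real.pi * ‖a‖ ≤ ‖H 0‖ := by
  have hd : Differentiable ℂ fun u : ℂ => 2 * Complex.sinh (a * (u - z) / 2) := by
    have h1 : Differentiable ℂ fun u : ℂ => a * (u - z) / 2 :=
      (((differentiable_id).sub_const z).const_mul a).div_const 2
    exact (Complex.differentiable_sinh.comp h1).const_mul 2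
  obtain ⟨H, hH, hF⟩ := hDv (fun u : ℂ => 2 * Complex.sinh (a * (u - z) / 2)) {z} hd (by
    intro z' hz'
    rw [Finset.mem_singleton] at hz'
    subst hz'
    simp)
  have hF' : ∀ u, 2 * Complex.sinh (a * (u - z) / 2) = (u - z) * H u := by
    intro u
    have := hF u
    rwa [Finset.prod_singleton] at this
  refine ⟨H, hH, hF', ?_⟩
  by_cases hz : z = 0
  · subst hz
    have h1 : HasDerivAt (fun u : ℂ => 2 * Complex.sinh (a * (u - 0) / 2)) a 0 := by
      have h2 : HasDerivAt (fun u : ℂ => a * (u - 0) / 2) (a * 1 / 2) 0 :=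
        (((hasDerivAt_id (0 : ℂ)).sub_const 0).const_mul a).div_const 2
      have h3 := (h2.csinh).const_mul 2
      have h4 : 2 * (Complex.cosh (a * (0 - 0) / 2) * (a * 1 / 2)) = a := by
        rw [sub_zero, mul_zero, zero_div, Complex.cosh_zero]
        ring
      rw [h4] at h3
      exact h3
    have h5 : HasDerivAt (fun u : ℂ => (u - 0) * H u) (1 * H 0 + (0 - 0) * deriv H 0) 0 :=
      ((hasDerivAt_id (0 : ℂ)).sub_const 0).mul (hH 0).hasDerivAt
    have h6 : (fun u : ℂ => 2 * Complex.sinh (a * (u - 0) / 2)) = fun u : ℂ => (u - 0) * H u :=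
      funext hF'
    rw [h6] at h1
    have h7 := h1.unique h5
    rw [sub_zero, zero_mul, add_zero, one_mul] at h7
    rw [← h7]
    have h8 : 2 / Real.pi ≤ 1 := by
      rw [div_le_one Real.pi_pos]
      linarith [Real.pi_gt_three]
    calc 2 / Real.pi * ‖a‖ ≤ 1 * ‖a‖ := mul_le_mul_of_nonneg_right h8 (norm_nonneg a)
      _ = ‖a‖ := one_mul _
  · have h1 := hN1 (a * (0 - z)) (by
      rw [zero_sub, mul_neg, Complex.neg_im, abs_neg]
      exact haz)
    rw [hF' 0, norm_mul, norm_mul, zero_sub, norm_neg] at h1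
    have h2 : 0 < ‖z‖ := norm_pos_iff.2 hz
    have h3 : ‖z‖ * (2 / Real.pi * ‖a‖) ≤ ‖z‖ * ‖H 0‖ := by
      calc ‖z‖ * (2 / Real.pi * ‖a‖) = 2 / Real.pi * (‖a‖ * ‖z‖) := by ring
        _ ≤ ‖z‖ * ‖H 0‖ := h1
    exact le_of_mul_le_mul_left h3 h2

/-- The bound on the circle. -/
private theorem N2_circle (c : ℕ) (x z : Fin c → ℂ) (k : Fin c → ℤ) (B : ℝ) (v : ℂ) (hB : 0 ≤ B)
    (hxz : ∀ j, x j * z j = 2 * Real.pi * Complex.I * (k j - x j))
    (h1 : ‖gP x (2 * Real.pi * Complex.I + v)‖ ≤ B)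
    (h2 : ‖gP x (-(2 * Real.pi * Complex.I + v))‖ ≤ B) :
    ∏ j, ‖2 * Complex.sinh (x j * (v - z j) / 2)‖ ≤ B := by
  have h3 : ∀ j, ‖1 - Complex.exp (-(x j * (2 * Real.pi * Complex.I + v)))‖ *
      ‖1 - Complex.exp (-(x j * -(2 * Real.pi * Complex.I + v)))‖ =
      ‖2 * Complex.sinh (x j * (v - z j) / 2)‖ ^ 2 := by
    intro j
    have h4 : -(x j * -(2 * Real.pi * Complex.I + v)) = x j * (2 * Real.pi * Complex.I + v) := by
      ring
    rw [h4]
    refine N2_shift (x j * (v - z j)) _ (k j) ?_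
    linear_combination hxz j
  have h5 : (∏ j, ‖2 * Complex.sinh (x j * (v - z j) / 2)‖) ^ 2 ≤ B ^ 2 := by
    rw [← Finset.prod_pow]
    calc ∏ j, ‖2 * Complex.sinh (x j * (v - z j) / 2)‖ ^ 2
        = ‖gP x (2 * Real.pi * Complex.I + v)‖ * ‖gP x (-(2 * Real.pi * Complex.I + v))‖ := by
          unfold gP
          rw [norm_prod, norm_prod, ← Finset.prod_mul_distrib]
          exact Finset.prod_congr rfl fun j _ => (h3 j).symm
      _ ≤ B * B := mul_le_mul h1 h2 (norm_nonneg _) hB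
      _ = B ^ 2 := (sq B).symm
  exact le_of_sq_le_sq h5 hB

/-- **N2.** -/
theorem pN2 (hJ : S_J) (hDv : S_Dv) (hN1 : S_N1) : S_N2 := by
  intro c x δ K hx hδ hK hb
  obtain ⟨k, hk⟩ : ∃ k : Fin c → ℤ, ∀ j, |(x j).re - k j| ≤ 1 / 2 :=
    ⟨fun j => round (x j).re, fun j => abs_sub_round _⟩
  obtain ⟨z, hxz⟩ : ∃ z : Fin c → ℂ, ∀ j, x j * z j = 2 * Real.pi * Complex.I * (k j - x j) := by
    refine ⟨fun j => 2 * Real.pi * Complex.I * (k j - x j) / x j, fun j => ?_⟩
    rw [mul_div_cancel₀ _ (hx j)]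
  have him : ∀ j, |(x j * z j).im| ≤ Real.pi := by
    intro j
    have h1 : (x j * z j).im = -(2 * Real.pi * ((x j).re - k j)) := by
      rw [hxz j]
      simp
      ring
    rw [h1, abs_neg, abs_mul, abs_of_pos (by positivity : (0 : ℝ) < 2 * Real.pi)]
    have h2 := mul_le_mul_of_nonneg_left (hk j) (by positivity : (0 : ℝ) ≤ 2 * Real.pi)
    linarith
  have hq := fun j => N2_quot hDv hN1 (x j) (z j) (him j)
  choose H hHd hHF hH0 using hq
  set D : ℝ := ∏ j, ‖x j‖ with hD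
  have hD0 : 0 < D := Finset.prod_pos fun j _ => norm_pos_iff.2 (hx j)
  have hB0 : 0 ≤ K * D * δ ^ c := by positivity
  set S : Finset (Fin c) := Finset.univ.filter fun j => ‖z j‖ ≤ δ with hS
  have hmain := hJ (Fin c) S z
    (fun v => (∏ j ∈ S, H j v) * ∏ j ∈ Sᶜ, (v - z j) * H j v) δ (K * D * δ ^ c) hδ
    (by
      refine Differentiable.mul ?_ ?_
      · exact Differentiable.fun_finsetProd fun j _ => hHd j
      · exact Differentiable.fun_finsetProd fun j _ =>
          ((differentiable_id).sub_const (z j)).mul (hHd j))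
    (by
      intro v hv
      have h1 : (∏ j ∈ S, (v - z j)) * ((∏ j ∈ S, H j v) * ∏ j ∈ Sᶜ, (v - z j) * H j v) =
          ∏ j, 2 * Complex.sinh (x j * (v - z j) / 2) := by
        rw [← mul_assoc, ← Finset.prod_mul_distrib, Finset.prod_mul_prod_compl]
        exact Finset.prod_congr rfl fun j _ => (hHF j v).symm
      change ‖(∏ j ∈ S, (v - z j)) * ((∏ j ∈ S, H j v) * ∏ j ∈ Sᶜ, (v - z j) * H j v)‖ ≤ _
      rw [h1, norm_prod]
      exact N2_circle c x z k _ v hB0 hxz (hb v hv).1 (hb v hv).2)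
  -- the lower bound of the left side
  have hlow : (2 / Real.pi) ^ c * D * ∏ j, max δ ‖z j‖ ≤ K * D * δ ^ c := by
    refine le_trans ?_ hmain
    change _ ≤ ‖(∏ j ∈ S, H j 0) * ∏ j ∈ Sᶜ, (0 - z j) * H j 0‖ * δ ^ S.card
    rw [norm_mul, norm_prod, norm_prod]
    have h1 : (2 / Real.pi) ^ c * D * ∏ j, max δ ‖z j‖ =
        ((∏ j ∈ S, 2 / Real.pi * ‖x j‖) * ∏ j ∈ Sᶜ, ‖z j‖ * (2 / Real.pi * ‖x j‖)) *
          δ ^ S.card := by
      have h2 : (2 / Real.pi) ^ c * D = ∏ j, 2 / Real.pi * ‖x j‖ := by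
        rw [Finset.prod_mul_distrib, Finset.prod_const, Finset.card_univ, Fintype.card_fin]
      have h3 : ∏ j, max δ ‖z j‖ = δ ^ S.card * ∏ j ∈ Sᶜ, ‖z j‖ := by
        rw [← Finset.prod_mul_prod_compl S, ← Finset.prod_const]
        congr 1
        · refine Finset.prod_congr rfl fun j hj => ?_
          rw [hS, Finset.mem_filter] at hj
          exact max_eq_left hj.2
        · refine Finset.prod_congr rfl fun j hj => ?_
          rw [Finset.mem_compl, hS, Finset.mem_filter] at hj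
          have : ¬ ‖z j‖ ≤ δ := fun h => hj ⟨Finset.mem_univ j, h⟩
          exact max_eq_right (not_le.1 this).le
      rw [h2, h3, ← Finset.prod_mul_prod_compl S, Finset.prod_mul_distrib (s := Sᶜ)]
      rw [Finset.prod_mul_distrib (s := Sᶜ) (f := fun j => ‖z j‖)]
      rw [Finset.prod_mul_distrib (s := Sᶜ)]
      ring
    rw [h1]
    refine mul_le_mul_of_nonneg_right ?_ (by positivity)
    refine mul_le_mul ?_ ?_ (Finset.prod_nonneg fun j _ => by positivity)
      (Finset.prod_nonneg fun j _ => norm_nonneg _)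
    · exact Finset.prod_le_prod (fun j _ => by positivity) fun j _ => hH0 j
    · refine Finset.prod_le_prod (fun j _ => by positivity) fun j _ => ?_
      rw [norm_mul, zero_sub, norm_neg]
      exact mul_le_mul_of_nonneg_left (hH0 j) (norm_nonneg _)
  have hp : ∏ j, (max δ ‖z j‖ / δ) ≤ K * (Real.pi / 2) ^ c := by
    rw [Finset.prod_div_distrib, Finset.prod_const, Finset.card_univ, Fintype.card_fin,
      div_le_iff₀ (by positivity)]
    have h1 : (2 / Real.pi) ^ c * (Real.pi / 2) ^ c = 1 := by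
      rw [← mul_pow]
      have : 2 / Real.pi * (Real.pi / 2) = 1 := by
        field_simp
      rw [this, one_pow]
    have h2 : (2 / Real.pi) ^ c * ∏ j, max δ ‖z j‖ ≤ K * δ ^ c := by
      have h3 : D * ((2 / Real.pi) ^ c * ∏ j, max δ ‖z j‖) ≤ D * (K * δ ^ c) := by
        calc D * ((2 / Real.pi) ^ c * ∏ j, max δ ‖z j‖)
            = (2 / Real.pi) ^ c * D * ∏ j, max δ ‖z j‖ := by ring
          _ ≤ K * D * δ ^ c := hlow
          _ = D * (K * δ ^ c) := by ring
      exact le_of_mul_le_mul_left h3 hD0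
    have h4 := mul_le_mul_of_nonneg_right h2 (by positivity : (0 : ℝ) ≤ (Real.pi / 2) ^ c)
    calc ∏ j, max δ ‖z j‖ = (2 / Real.pi) ^ c * (∏ j, max δ ‖z j‖) * (Real.pi / 2) ^ c := by
          rw [mul_right_comm, h1, one_mul]
      _ ≤ K * δ ^ c * (Real.pi / 2) ^ c := h4
      _ = K * (Real.pi / 2) ^ c * δ ^ c := by ring
  intro j
  refine ⟨k j, ?_⟩
  have hz : ‖z j‖ ≤ K * (Real.pi / 2) ^ c * δ := by
    have h1 : ∀ i, 1 ≤ max δ ‖z i‖ / δ := fun i => by
      rw [one_le_div hδ]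
      exact le_max_left _ _
    have h2 : max δ ‖z j‖ / δ ≤ ∏ i, (max δ ‖z i‖ / δ) := by
      rw [← Finset.mul_prod_erase Finset.univ _ (Finset.mem_univ j)]
      have h3 : (1 : ℝ) ≤ ∏ i ∈ Finset.univ.erase j, (max δ ‖z i‖ / δ) := by
        calc (1 : ℝ) = ∏ i ∈ Finset.univ.erase j, (1 : ℝ) := by rw [Finset.prod_const_one]
          _ ≤ _ := Finset.prod_le_prod (fun _ _ => zero_le_one) fun i _ => h1 i
      exact le_mul_of_one_le_right (zero_le_one.trans (h1 j)) h3
    have h4 := h2.trans hp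
    rw [div_le_iff₀ hδ] at h4
    exact (le_max_right _ _).trans h4
  have h1 : ‖x j‖ * ‖z j‖ = 2 * Real.pi * ‖x j - k j‖ := by
    rw [← norm_mul, hxz j, norm_mul, norm_sub_rev]
    congr 1
    rw [norm_mul, norm_mul, Complex.norm_I, mul_one, Complex.norm_real, Complex.norm_ofNat,
      Real.norm_eq_abs, abs_of_pos Real.pi_pos]
  have h2 : ‖x j - k j‖ = ‖x j‖ * ‖z j‖ / (2 * Real.pi) := by
    rw [h1, mul_div_cancel_left₀]
    positivity
  rw [h2, div_le_iff₀ (by positivity)]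
  calc ‖x j‖ * ‖z j‖ ≤ ‖x j‖ * (K * (Real.pi / 2) ^ c * δ) :=
        mul_le_mul_of_nonneg_left hz (norm_nonneg _)
    _ = K / (2 * Real.pi) * (Real.pi / 2) ^ c * δ * ‖x j‖ * (2 * Real.pi) := by
        field_simp

end

end SDV
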