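import Pool.Agent.Lib.MP_776403_ag.SD.V.Spec

/-!
# THEOREM SD, stage 2: the numerical estimates (N3)
-/

set_option autoImplicit false

namespace SDV

noncomputable section

namespace N3_aux

private theorem e_lo : (2.718 : ℝ) < Real.exp 1 := by
  have := Real.exp_one_gt_d9
  linarith

private theorem e_hi : Real.exp 1 < (2.7183 : ℝ) := by
  have := Real.exp_one_lt_d9
  linarith

/-- `x ≤ exp (0.368 x)` for `x ≥ 0`. -/
private theorem le_exp {x : ℝ} (hx : 0 ≤ x) : x ≤ Real.exp (0.368 * x) := by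
  have he : (0 : ℝ) < Real.exp 1 := Real.exp_pos 1
  have h1 := Real.add_one_le_exp (0.368 * x - 1)
  have h2 : Real.exp (0.368 * x - 1) = Real.exp (0.368 * x) / Real.exp 1 := Real.exp_sub _ _
  have h3 : Real.exp 1 * (0.368 * x) ≤ Real.exp (0.368 * x) := by
    have h4 : 0.368 * x ≤ Real.exp (0.368 * x) / Real.exp 1 := by
      rw [← h2]
      linarith
    rw [le_div_iff₀ he] at h4
    linarith
  have h5 : x ≤ Real.exp 1 * (0.368 * x) := by
    have h6 : 2.718 * (0.368 * x) ≤ Real.exp 1 * (0.368 * x) :=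
      mul_le_mul_of_nonneg_right e_lo.le (by positivity)
    linarith
  linarith

private theorem cc_le (c : ℕ) : (c : ℝ) ^ c ≤ Real.exp (0.368 * (c : ℝ) ^ 2) := by
  have h1 : (c : ℝ) ^ c ≤ Real.exp (0.368 * c) ^ c :=
    pow_le_pow_left₀ (Nat.cast_nonneg c) (le_exp (Nat.cast_nonneg c)) c
  rw [← Real.exp_nat_mul] at h1
  have h2 : (c : ℝ) * (0.368 * c) = 0.368 * (c : ℝ) ^ 2 := by ring
  rwa [h2] at h1

private theorem ac_le {c : ℕ} (hc : 1 ≤ c) (s : ℕ) :
    ((c : ℝ) + s) ^ c ≤ Real.exp (0.368 * (c : ℝ) ^ 2 + s) := by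
  have hc0 : (0 : ℝ) < c := by exact_mod_cast hc
  have h1 : (c : ℝ) + s ≤ c * Real.exp (s / c) := by
    have h2 := Real.add_one_le_exp ((s : ℝ) / c)
    have h3 : (c : ℝ) * (s / c + 1) ≤ c * Real.exp (s / c) :=
      mul_le_mul_of_nonneg_left h2 hc0.le
    have h4 : (c : ℝ) * (s / c + 1) = s + c := by
      field_simp
    linarith
  have h5 : ((c : ℝ) + s) ^ c ≤ (c * Real.exp (s / c)) ^ c :=
    pow_le_pow_left₀ (by positivity) h1 c
  rw [mul_pow, ← Real.exp_nat_mul] at h5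
  have h6 : (c : ℝ) * (s / c) = s := by field_simp
  rw [h6] at h5
  rw [Real.exp_add]
  exact h5.trans (mul_le_mul_of_nonneg_right (cc_le c) (Real.exp_pos _).le)

private theorem pi_le : Real.pi ≤ Real.exp 1.2 := by
  have h1 : Real.pi ^ 5 ≤ Real.exp 1.2 ^ 5 := by
    rw [← Real.exp_nat_mul]
    have h2 : ((5 : ℕ) : ℝ) * 1.2 = (6 : ℕ) * 1 := by norm_num
    rw [h2, Real.exp_nat_mul]
    have h3 : Real.pi ^ 5 ≤ (3.15 : ℝ) ^ 5 :=
      pow_le_pow_left₀ Real.pi_pos.le Real.pi_lt_d2.le 5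
    have h4 : (2.718 : ℝ) ^ 6 ≤ Real.exp 1 ^ 6 :=
      pow_le_pow_left₀ (by norm_num) e_lo.le 6
    have h5 : (3.15 : ℝ) ^ 5 ≤ 2.718 ^ 6 := by norm_num
    linarith
  exact le_of_pow_le_pow_left₀ (by norm_num) (Real.exp_pos _).le h1

private theorem n176_le : (176.4 : ℝ) ≤ Real.exp 5.5 := by
  have h1 : (176.4 : ℝ) ^ 2 ≤ Real.exp 5.5 ^ 2 := by
    rw [← Real.exp_nat_mul]
    have h2 : ((2 : ℕ) : ℝ) * 5.5 = (11 : ℕ) * 1 := by norm_num
    rw [h2, Real.exp_nat_mul]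
    have h4 : (2.718 : ℝ) ^ 11 ≤ Real.exp 1 ^ 11 :=
      pow_le_pow_left₀ (by norm_num) e_lo.le 11
    have h5 : (176.4 : ℝ) ^ 2 ≤ 2.718 ^ 11 := by norm_num
    linarith
  exact le_of_pow_le_pow_left₀ (by norm_num) (Real.exp_pos _).le h1

end N3_aux

open N3_aux

theorem pN3 : S_N3 := by
  intro c s m δ hc hm hδ
  have hc0 : (0 : ℝ) < c := by exact_mod_cast hc
  have hc1 : (1 : ℝ) ≤ c := by exact_mod_cast hc
  have hs0 : (0 : ℝ) ≤ s := Nat.cast_nonneg s
  have hm' : 2 * (c : ℝ) ^ 2 + 128 * ((c : ℝ) + s) ≤ m := by exact_mod_cast hm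
  have hpi := Real.pi_pos
  have hpi3 : (3 : ℝ) < Real.pi := Real.pi_gt_three
  have hpi4 : Real.pi < 3.1416 := Real.pi_lt_d4
  have hpic : (3 : ℝ) ≤ Real.pi ^ c := by
    calc (3 : ℝ) ≤ Real.pi ^ 1 := by rw [pow_one]; exact hpi3.le
      _ ≤ Real.pi ^ c := pow_le_pow_right₀ (by linarith) hc
  have hpicp : (0 : ℝ) < Real.pi ^ c := by positivity
  set a : ℝ := (c : ℝ) + s with ha
  have ha1 : (1 : ℝ) ≤ a := by linarith
  have ha0 : (0 : ℝ) < a := by linarith
  have hD0 : 0 < 28 * a * c * Real.pi ^ c := by positivity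
  have hδ0 : 0 < δ := by
    rw [hδ]
    positivity
  have hcp : (3 : ℝ) ≤ c * Real.pi ^ c := by nlinarith
  have haδ : a * δ ≤ 1 / 84 := by
    rw [hδ]
    have h1 : a * (1 / (28 * a * c * Real.pi ^ c)) = 1 / (28 * (c * Real.pi ^ c)) := by
      field_simp
    rw [h1]
    exact one_div_le_one_div_of_le (by norm_num) (by linarith)
  have hδ1 : δ ≤ 1 / 84 := by
    have h1 : δ ≤ a * δ := by nlinarith
    linarith
  refine ⟨hδ0, by linarith, ?_, ?_, ?_⟩
  · have h1 : Real.exp (a * δ) ≤ Real.exp (1 / 84) := Real.exp_le_exp.2 haδ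
    have h2 : Real.exp (1 / 84) ≤ 1 / (1 - 1 / 84) := Real.exp_bound_div_one_sub_of_interval (by norm_num) (by norm_num)
    have h3 : (1 : ℝ) / (1 - 1 / 84) ≤ 1.02 := by norm_num
    linarith
  · -- first estimate
    have hlo := e_lo
    have hhi := e_hi
    have h1 : Real.exp (Real.exp 1 * (7 * a) * 6.3) ≤ Real.exp (119.9 * a) := by
      apply Real.exp_le_exp.2
      nlinarith
    have h2 : Real.exp (Real.exp 1 * a * 6.3) ≤ Real.exp (119.9 * a) := by
      apply Real.exp_le_exp.2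
      nlinarith
    have h3 : (6.3 : ℝ) ^ c * (28 * a * c * Real.pi ^ c) ^ c ≤
        Real.exp (5.5 * c + (0.368 * (c : ℝ) ^ 2 + s) + 0.368 * (c : ℝ) ^ 2 + 1.2 * (c : ℝ) ^ 2) := by
      have h4 : (6.3 : ℝ) ^ c * (28 * a * c * Real.pi ^ c) ^ c =
          176.4 ^ c * a ^ c * (c : ℝ) ^ c * (Real.pi ^ c) ^ c := by
        rw [← mul_pow, ← mul_pow, ← mul_pow, ← mul_pow]
        congr 1
        ring
      have h5 : (176.4 : ℝ) ^ c ≤ Real.exp (5.5 * c) := by
        have := pow_le_pow_left₀ (by norm_num) n176_le c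
        rw [← Real.exp_nat_mul] at this
        rwa [mul_comm] at this
      have h6 : (Real.pi ^ c) ^ c ≤ Real.exp (1.2 * (c : ℝ) ^ 2) := by
        have h7 := pow_le_pow_left₀ (by positivity) (pow_le_pow_left₀ hpi.le pi_le c) c
        rw [← Real.exp_nat_mul, ← Real.exp_nat_mul] at h7
        have h8 : (c : ℝ) * (c * 1.2) = 1.2 * (c : ℝ) ^ 2 := by ring
        rwa [h8] at h7
      rw [h4, Real.exp_add, Real.exp_add, Real.exp_add]
      have h9 := ac_le hc s
      have h10 := cc_le c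
      have hp1 : (0 : ℝ) < 176.4 ^ c := by positivity
      gcongr
    have h11 : (6.3 : ℝ) ^ c * Real.exp (-((m : ℝ) - c)) *
        (Real.exp (Real.exp 1 * (7 * a) * 6.3) + Real.exp (Real.exp 1 * a * 6.3)) *
        (28 * a * c * Real.pi ^ c) ^ c ≤
        Real.exp (5.5 * c + (0.368 * (c : ℝ) ^ 2 + s) + 0.368 * (c : ℝ) ^ 2 + 1.2 * (c : ℝ) ^ 2) *
          Real.exp (-((m : ℝ) - c)) * (2 * Real.exp (119.9 * a)) := by
      have h12 : (6.3 : ℝ) ^ c * Real.exp (-((m : ℝ) - c)) *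
        (Real.exp (Real.exp 1 * (7 * a) * 6.3) + Real.exp (Real.exp 1 * a * 6.3)) *
        (28 * a * c * Real.pi ^ c) ^ c =
        ((6.3 : ℝ) ^ c * (28 * a * c * Real.pi ^ c) ^ c) * Real.exp (-((m : ℝ) - c)) *
        (Real.exp (Real.exp 1 * (7 * a) * 6.3) + Real.exp (Real.exp 1 * a * 6.3)) := by ring
      rw [h12]
      have h13 : Real.exp (Real.exp 1 * (7 * a) * 6.3) + Real.exp (Real.exp 1 * a * 6.3) ≤
        2 * Real.exp (119.9 * a) := by linarith
      gcongr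
    have h14 : Real.exp (5.5 * c + (0.368 * (c : ℝ) ^ 2 + s) + 0.368 * (c : ℝ) ^ 2 +
        1.2 * (c : ℝ) ^ 2) * Real.exp (-((m : ℝ) - c)) * (2 * Real.exp (119.9 * a)) ≤ 0.98 := by
      have h15 : Real.exp (5.5 * c + (0.368 * (c : ℝ) ^ 2 + s) + 0.368 * (c : ℝ) ^ 2 +
        1.2 * (c : ℝ) ^ 2) * Real.exp (-((m : ℝ) - c)) * (2 * Real.exp (119.9 * a)) =
        2 * Real.exp (5.5 * c + (0.368 * (c : ℝ) ^ 2 + s) + 0.368 * (c : ℝ) ^ 2 +
        1.2 * (c : ℝ) ^ 2 + -((m : ℝ) - c) + 119.9 * a) := by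
        rw [Real.exp_add _ (119.9 * a), Real.exp_add _ (-((m : ℝ) - c))]
        ring
      rw [h15]
      have h16 : Real.exp (5.5 * c + (0.368 * (c : ℝ) ^ 2 + s) + 0.368 * (c : ℝ) ^ 2 +
        1.2 * (c : ℝ) ^ 2 + -((m : ℝ) - c) + 119.9 * a) ≤ Real.exp (-1) := by
        apply Real.exp_le_exp.2
        have h17 : (0 : ℝ) ≤ (c : ℝ) ^ 2 := by positivity
        rw [ha]
        rw [ha] at hm'
        linarith
      have h18 : Real.exp (-1) ≤ 0.49 := by
        rw [Real.exp_neg, inv_le_comm₀ (Real.exp_pos 1) (by norm_num)]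
        have : (0.49 : ℝ)⁻¹ ≤ 2.718 := by norm_num
        linarith
      linarith
    have h19 : δ ^ c = 1 / (28 * a * c * Real.pi ^ c) ^ c := by
      rw [hδ, div_pow, one_pow]
    rw [h19, mul_one_div, le_div_iff₀ (by positivity)]
    exact h11.trans h14
  · -- second estimate
    have hlo := e_lo
    have hhi := e_hi
    have hep : Real.exp 1 * Real.pi ≤ 8.6 := by nlinarith
    have hep0 : 0 < Real.exp 1 * Real.pi := by positivity
    have h1 : Real.exp (Real.exp 1 * (7 * a) * Real.pi) ≤ Real.exp (60.2 * a) := by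
      apply Real.exp_le_exp.2
      nlinarith
    have h2 : Real.exp (Real.exp 1 * a * Real.pi) ≤ Real.exp (60.2 * a) := by
      apply Real.exp_le_exp.2
      nlinarith
    have h3 : (7 * a) ^ c * Real.pi ^ c ≤ Real.exp (5.5 * c + (0.368 * (c : ℝ) ^ 2 + s)) := by
      have h4 : (7 * a) ^ c * Real.pi ^ c = (7 * Real.pi) ^ c * a ^ c := by
        rw [← mul_pow, ← mul_pow]
        congr 1
        ring
      have h5 : (7 * Real.pi) ^ c ≤ Real.exp (5.5 * c) := by
        have h6 : 7 * Real.pi ≤ Real.exp 5.5 := by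
          have := n176_le
          linarith
        have := pow_le_pow_left₀ (by positivity) h6 c
        rw [← Real.exp_nat_mul] at this
        rwa [mul_comm (c : ℝ)] at this
      rw [h4, Real.exp_add]
      have h9 := ac_le hc s
      gcongr
    have h11 : (7 * a) ^ c * Real.pi ^ c * Real.exp (-((m : ℝ) - c)) *
        (Real.exp (Real.exp 1 * (7 * a) * Real.pi) + Real.exp (Real.exp 1 * a * Real.pi)) ≤
        Real.exp (5.5 * c + (0.368 * (c : ℝ) ^ 2 + s)) *
          Real.exp (-((m : ℝ) - c)) * (2 * Real.exp (60.2 * a)) := by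
      have h13 : Real.exp (Real.exp 1 * (7 * a) * Real.pi) + Real.exp (Real.exp 1 * a * Real.pi) ≤
        2 * Real.exp (60.2 * a) := by linarith
      gcongr
    have h15 : Real.exp (5.5 * c + (0.368 * (c : ℝ) ^ 2 + s)) * Real.exp (-((m : ℝ) - c)) *
        (2 * Real.exp (60.2 * a)) =
        2 * Real.exp (5.5 * c + (0.368 * (c : ℝ) ^ 2 + s) + -((m : ℝ) - c) + 60.2 * a) := by
      rw [Real.exp_add _ (60.2 * a), Real.exp_add _ (-((m : ℝ) - c))]
      ring
    have h16 : Real.exp (5.5 * c + (0.368 * (c : ℝ) ^ 2 + s) + -((m : ℝ) - c) + 60.2 * a) ≤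
        Real.exp (-((3 : ℕ) * 1)) := by
      apply Real.exp_le_exp.2
      have h17 : (0 : ℝ) ≤ (c : ℝ) ^ 2 := by positivity
      rw [ha]
      rw [ha] at hm'
      push_cast
      linarith
    have h18 : Real.exp (-((3 : ℕ) * 1)) ≤ 1 / 8 := by
      rw [Real.exp_neg, Real.exp_nat_mul, inv_le_comm₀ (by positivity) (by norm_num)]
      have h20 : (2 : ℝ) ^ 3 ≤ Real.exp 1 ^ 3 := pow_le_pow_left₀ (by norm_num) (by linarith) 3
      norm_num at h20 ⊢
      exact h20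
    linarith

end

end SDV
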