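import Pool.Agent.Lib.MP_776403_ag.SD.V.Spec

set_option autoImplicit false

/-!
# Assembly of part (vii)
-/

open Polynomial

namespace SDV

namespace X_aux

theorem one_le_eval (h : ℤ[X]) (h0 : ∀ i, 0 ≤ h.coeff i) (h1 : h.coeff 0 = 1) :
    1 ≤ h.eval 1 := by
  rw [Polynomial.eval_eq_sum_range]
  have : h.coeff 0 * 1 ^ 0 ≤ ∑ i ∈ Finset.range (h.natDegree + 1), h.coeff i * 1 ^ i := by
    refine Finset.single_le_sum (f := fun i => h.coeff i * 1 ^ i) (fun i _ => ?_)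
      (Finset.mem_range.2 (Nat.succ_pos _))
    simpa using h0 i
  rw [h1] at this
  simpa using this

theorem fP_add (c : ℕ) (h : ℤ[X]) (v : ℂ) : fP c h (2 * Real.pi * Complex.I + v) = fP c h v := by
  have e : Complex.exp (-(2 * Real.pi * Complex.I + v)) = Complex.exp (-v) := by
    rw [neg_add, Complex.exp_add, Complex.exp_neg (2 * Real.pi * Complex.I),
      Complex.exp_two_pi_mul_I]
    simp
  unfold fP
  rw [e]

theorem fP_neg (c : ℕ) (h : ℤ[X]) (v : ℂ) :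
    fP c h (-(2 * Real.pi * Complex.I + v)) = fP c h (-v) := by
  have e : Complex.exp (-(-(2 * Real.pi * Complex.I + v))) = Complex.exp (-(-v)) := by
    rw [neg_neg, neg_neg, Complex.exp_add, Complex.exp_two_pi_mul_I, one_mul]
  unfold fP
  rw [e]

theorem aeval_P (c : ℕ) (h : ℤ[X]) (u : ℂ) :
    Polynomial.aeval (Complex.exp (-u)) ((1 - X : ℤ[X]) ^ c * h) = fP c h u := by
  unfold fP
  rw [map_mul, map_pow, map_sub, map_one, aeval_X]

/-- monotonicity of the tail bound. -/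
theorem tail_mono (D B a M t T : ℝ) (c : ℕ) (hD : 0 ≤ D) (ha : 0 ≤ a) (hB0 : 0 ≤ B)
    (hB : B ≤ 7 * a) (ht : 0 ≤ t) (htT : t ≤ T) :
    D * t ^ c * Real.exp (-M) *
      (Real.exp (Real.exp 1 * B * t) + Real.exp (Real.exp 1 * a * t)) ≤
    D * (T ^ c * Real.exp (-M) *
      (Real.exp (Real.exp 1 * (7 * a) * T) + Real.exp (Real.exp 1 * a * T))) := by
  have he := Real.exp_pos 1
  have h1 : Real.exp (Real.exp 1 * B * t) ≤ Real.exp (Real.exp 1 * (7 * a) * T) := by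
    refine Real.exp_le_exp.2 (mul_le_mul (mul_le_mul_of_nonneg_left hB he.le) htT ht (by positivity))
  have h2 : Real.exp (Real.exp 1 * a * t) ≤ Real.exp (Real.exp 1 * a * T) :=
    Real.exp_le_exp.2 (mul_le_mul_of_nonneg_left htT (by positivity))
  have h3 : t ^ c ≤ T ^ c := pow_le_pow_left₀ ht htT c
  have h4 : t ^ c * Real.exp (-M) ≤ T ^ c * Real.exp (-M) :=
    mul_le_mul_of_nonneg_right h3 (Real.exp_pos _).le
  have hT : 0 ≤ T := ht.trans htT
  calc D * t ^ c * Real.exp (-M) *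
      (Real.exp (Real.exp 1 * B * t) + Real.exp (Real.exp 1 * a * t))
      = D * (t ^ c * Real.exp (-M) *
      (Real.exp (Real.exp 1 * B * t) + Real.exp (Real.exp 1 * a * t))) := by ring
    _ ≤ _ := mul_le_mul_of_nonneg_left
      (mul_le_mul h4 (add_le_add h1 h2) (by positivity) (by positivity)) hD

end X_aux

open X_aux in
theorem pX (hB7 : S_B7) (hPr : S_Pr) (hE : S_E) (hF3 : S_F3) (hN2 : S_N2) (hN3 : S_N3)
    (hC3 : S_C3) : S_X := by
  intro c s m h x hc hs h0 h1 hm hdiv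
  have hm' : 128 * (c + s) ≤ m := le_trans (Nat.le_add_left _ _) hm
  have hcm : c < m := by omega
  have hev := one_le_eval h h0 h1
  have hevR : (1 : ℝ) ≤ ((h.eval 1 : ℤ) : ℝ) := by exact_mod_cast hev
  have hB := hB7 c s m h x hc hs h0 (by omega) (by omega) hdiv
  have hpr := hPr c m h x hcm hdiv
  have hD : ∏ j, ‖x j‖ = ((h.eval 1 : ℤ) : ℝ) := by
    rw [← norm_prod, hpr]
    have : (((h.eval 1 : ℤ) : ℂ)) = ((((h.eval 1 : ℤ) : ℝ)) : ℂ) := by push_cast; rfl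
    rw [this, Complex.norm_real, Real.norm_of_nonneg (by linarith)]
  have hx : ∀ j, x j ≠ 0 := by
    intro j hj
    have : ∏ j, x j = 0 := Finset.prod_eq_zero (Finset.mem_univ j) hj
    rw [this] at hpr
    have h2 : (h.eval 1 : ℤ) = 0 := by exact_mod_cast hpr.symm
    omega
  have hc' : (1 : ℝ) ≤ (c : ℝ) := by exact_mod_cast hc
  have hs' : (0 : ℝ) ≤ (s : ℝ) := Nat.cast_nonneg s
  have ha : (0 : ℝ) < (c : ℝ) + s := by linarith
  have hBn : 0 ≤ ∑ j, ‖x j‖ := Finset.sum_nonneg fun j _ => norm_nonneg _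
  have hxj : ∀ j, ‖x j‖ ≤ 7 * ((c : ℝ) + s) := fun j =>
    (Finset.single_le_sum (f := fun j => ‖x j‖) (fun j _ => norm_nonneg _)
      (Finset.mem_univ j)).trans hB
  have hpi := Real.pi_pos
  obtain ⟨hδ, hn1, hn2, hn3, hn4⟩ := hN3 c s m _ hc hm rfl
  set δ : ℝ := 1 / (28 * ((c : ℝ) + s) * c * Real.pi ^ c) with hδdef
  have hDpos : 0 ≤ ((h.eval 1 : ℤ) : ℝ) := by linarith
  -- the bound near `± 2 π i`
  have key : ∀ u v : ℂ, ‖v‖ = δ → ‖u‖ ≤ 2 * Real.pi + δ → fP c h u = fP c h v →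
      ‖gP x u‖ ≤ 2 * (∏ j, ‖x j‖) * δ ^ c := by
    intro u v hv hu huv
    have e1 := hE c s m h x u hcm hs h0 hD hdiv
    have e2 := e1.trans (tail_mono _ _ _ ((m : ℝ) - c) ‖u‖ 6.3 c hDpos ha.le hBn hB (norm_nonneg _)
      (hu.trans hn1))
    have e3 := hF3 c s h v hs h0
    rw [hv] at e3
    have e4 : ‖fP c h u - gP x u‖ ≤ ((h.eval 1 : ℤ) : ℝ) * (0.98 * δ ^ c) :=
      e2.trans (mul_le_mul_of_nonneg_left hn3 hDpos)
    have e5 : ‖fP c h u‖ ≤ ((h.eval 1 : ℤ) : ℝ) * δ ^ c * 1.02 := by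
      rw [huv]
      exact e3.trans (mul_le_mul_of_nonneg_left hn2 (by positivity))
    have e6 : ‖gP x u‖ ≤ ‖fP c h u‖ + ‖fP c h u - gP x u‖ := by
      have := norm_sub_le (fP c h u) (fP c h u - gP x u)
      rwa [sub_sub_cancel] at this
    rw [hD]
    calc ‖gP x u‖ ≤ _ := e6
      _ ≤ ((h.eval 1 : ℤ) : ℝ) * δ ^ c * 1.02 + ((h.eval 1 : ℤ) : ℝ) * (0.98 * δ ^ c) :=
        add_le_add e5 e4
      _ = _ := by ring
  have hnu : ∀ v : ℂ, ‖v‖ = δ → ‖2 * Real.pi * Complex.I + v‖ ≤ 2 * Real.pi + δ := by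
    intro v hv
    refine (norm_add_le _ _).trans (le_of_eq ?_)
    rw [hv, norm_mul, norm_mul, Complex.norm_I, Complex.norm_real, Real.norm_of_nonneg hpi.le]
    norm_num
  have hk := hN2 c x δ 2 hx hδ (by norm_num) (fun v hv =>
    ⟨key _ v hv (hnu v hv) (fP_add c h v),
      key _ (-v) (by rw [norm_neg, hv]) (by rw [norm_neg]; exact hnu v hv) (fP_neg c h v)⟩)
  choose k hk using hk
  have hη : ∀ j, ‖x j - (k j : ℂ)‖ ≤ 1 / (4 * Real.pi * c * 2 ^ c) := by
    intro j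
    refine (hk j).trans ?_
    have e1 : 2 / (2 * Real.pi) * (Real.pi / 2) ^ c * δ * ‖x j‖ ≤
        2 / (2 * Real.pi) * (Real.pi / 2) ^ c * δ * (7 * ((c : ℝ) + s)) :=
      mul_le_mul_of_nonneg_left (hxj j) (by positivity)
    refine e1.trans (le_of_eq ?_)
    rw [hδdef, div_pow]
    field_simp
    norm_num
  refine hC3 c ((1 - X) ^ c * h) x k _ hc ?_ (by positivity) le_rfl hη ?_
  · rw [Polynomial.mul_coeff_zero, h1, mul_one, Polynomial.coeff_zero_eq_eval_zero]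
    simp
  · intro θ hθ
    rw [aeval_P]
    have e1 := hE c s m h x (Complex.I * θ) hcm hs h0 hD hdiv
    have hnθ : ‖Complex.I * (θ : ℂ)‖ ≤ Real.pi := by
      rw [norm_mul, Complex.norm_I, one_mul, Complex.norm_real]
      exact hθ
    have e2 := e1.trans (tail_mono _ _ _ ((m : ℝ) - c) _ Real.pi c hDpos ha.le hBn hB
      (norm_nonneg _) hnθ)
    refine e2.trans (le_trans ?_ hn4)
    have e3 : ((h.eval 1 : ℤ) : ℝ) ≤ (7 * ((c : ℝ) + s)) ^ c := by
      rw [← hD]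
      refine (Finset.prod_le_prod (fun j _ => norm_nonneg _) (fun j _ => hxj j)).trans ?_
      rw [Finset.prod_const, Finset.card_univ, Fintype.card_fin]
    refine (mul_le_mul_of_nonneg_right e3 (by positivity)).trans (le_of_eq ?_)
    ring

end SDV
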