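import Pool.Agent.Lib.MP_776403_ag.SD.V.PA
import Pool.Agent.Lib.MP_776403_ag.SD.V.G1
import Pool.Agent.Lib.MP_776403_ag.SD.V.G2
import Pool.Agent.Lib.MP_776403_ag.SD.V.F1
import Pool.Agent.Lib.MP_776403_ag.SD.V.F2
import Pool.Agent.Lib.MP_776403_ag.SD.V.F3
import Pool.Agent.Lib.MP_776403_ag.SD.V.E
import Pool.Agent.Lib.MP_776403_ag.SD.V.J
import Pool.Agent.Lib.MP_776403_ag.SD.V.Dv
import Pool.Agent.Lib.MP_776403_ag.SD.V.K
import Pool.Agent.Lib.MP_776403_ag.SD.V.Z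
import Pool.Agent.Lib.MP_776403_ag.SD.V.B7
import Pool.Agent.Lib.MP_776403_ag.SD.V.N1
import Pool.Agent.Lib.MP_776403_ag.SD.V.N2
import Pool.Agent.Lib.MP_776403_ag.SD.V.N3
import Pool.Agent.Lib.MP_776403_ag.SD.V.C1
import Pool.Agent.Lib.MP_776403_ag.SD.V.C2
import Pool.Agent.Lib.MP_776403_ag.SD.V.C3
import Pool.Agent.Lib.MP_776403_ag.SD.V.X
import Pool.Agent.Lib.MP_776403_ag.SD.V.Bout

/-! SDV, main results: the splitting of the K-theoretic data. -/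

open Polynomial

namespace SDV

theorem mF1 : S_F1 := pF1 pT2
theorem mF2 : S_F2 := pF2 pT2
theorem mF3 : S_F3 := pF3 mF1 mF2
theorem mE : S_E := pE pG1 pG2 mF1 mF2
theorem mZ : S_Z := pZ pJ pDv pK
theorem mB7 : S_B7 := pB7 mE mF3 mZ pPr
theorem mN2 : S_N2 := pN2 pJ pDv pN1
theorem mC3 : S_C3 := pC3 pC1 pC2

/-- `P = (1-T)^c h`, `h ≥ 0`, `h(0) = 1`, `prod (1 - T^(x_j)) ≡ P mod (1-T)^m`,
`m ≥ 2c^2 + 128(c + deg h)`: `P` is a product of factors `1 - T^(d_i)`. -/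
theorem mX : S_X := pX mB7 pPr mE mF3 mN2 pN3 mC3

/-- OUTPUT (B). -/
theorem mBout : S_Bout := pBout pBr pP1 mX pAout

end SDV
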