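import Pool.Agent.Lib.MP_776403_ag.SD.V.Spec
import Pool.Agent.Lib.MP_776403_ag.SD2.Glue

/-!
# Stage 2 of THEOREM SD: parts (v), (vi) in the form of `SD/V/Spec.lean`
-/

set_option autoImplicit false

open PowerSeries

noncomputable section

namespace SDV

open Pool.Agent.Lib.MP_776403_ag.SD2 Pool.Agent.Lib.MP_776403_ag.SD2.GlueAux
  Pool.Agent.Lib.MP_776403_ag.SD2.SolAux Pool.Agent.Lib.MP_776403_ag.SD2.TdAux

theorem eu_neg (x : ℂ) : eu (-x) = ex x := rfl

theorem tau_ev (F : Polynomial ℤ) : tau F = ev F := by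
  have h : (algebraMap ℤ ℂ⟦X⟧) = Int.castRingHom ℂ⟦X⟧ := RingHom.ext_int _ _
  rw [tau, Polynomial.aeval_def, ev, Polynomial.coe_eval₂RingHom, h]
  rfl

theorem esx_eq {c : ℕ} (x : Fin c → ℂ) (j : ℕ) : esx x j = (sol x).coeff j := by
  rw [coeff_sol]
  rfl

theorem gx_eq {c : ℕ} (x : Fin c → ℂ) : gx x = ∏ i, (1 - ex (x i)) := rfl

theorem pT1 : S_T1 := by
  intro m F
  rw [tau_ev]
  exact dvd_iff m F

theorem pT2 : S_T2 := by
  intro F
  refine ⟨fun k => ?_, ?_, ?_, ?_⟩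
  · rw [tau_ev, ev, Polynomial.coe_eval₂RingHom, Polynomial.eval₂_eq_sum, Polynomial.sum,
      map_sum]
    apply Finset.sum_congr rfl
    intro i _
    have h : (Int.castRingHom ℂ⟦X⟧) (F.coeff i) = C ((F.coeff i : ℤ) : ℂ) := by simp
    rw [h, coeff_C_mul, ex_pow, mul_one, coeff_ex]
  · rw [tau_ev]; exact ev_const F
  · rw [tau_ev, tau_ev]; exact ev_expand F
  · intro i
    rw [tau_ev, ev_X_pow, eu_neg]

theorem pNt : S_Nt := by
  intro c a b h
  obtain ⟨σ, hσ⟩ := perm_of_psum c a b h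
  refine ⟨σ.symm, fun j => ?_⟩
  rw [hσ, Equiv.apply_symm_apply]

theorem pB2 : S_B2 := fun l hl => bern_even l (by omega)

theorem pMul : S_Mul := by
  intro c m x d _ hd hm h
  obtain ⟨σ, hσ⟩ := eq_of_prod c m hm d hd x h
  refine ⟨σ.symm, fun j => ?_⟩
  rw [hσ, Equiv.apply_symm_apply]

theorem unit0 {c m : ℕ} {q : ℕ → Polynomial ℤ} (h : Dat c m q) : IsUnit (ev (q 0)) := by
  rw [isUnit_iff_constantCoeff, ev_const, isUnit_iff_ne_zero]
  have := h.hp
  exact_mod_cast this.ne'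

theorem pBr : S_Br := by
  intro c m q _ h
  obtain ⟨ub, hub⟩ := unit0 h
  set be : ℂ⟦X⟧ := ev (q 0) with hbe
  set bi : ℂ⟦X⟧ := (↑ub⁻¹ : ℂ⟦X⟧) with hbi
  have hbb : be * bi = 1 := by rw [← hub, hbi, Units.mul_inv]
  set r : ℕ → ℂ⟦X⟧ := fun j => ev (q j) * bi with hr
  have hbr : ∀ j, ev (q j) = be * r j := by
    intro j
    rw [hr]
    simp only
    calc ev (q j) = ev (q j) * (be * bi) := by rw [hbb, mul_one]
      _ = be * (ev (q j) * bi) := by ring
  have hub' : IsUnit be := ⟨ub, hub⟩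
  have hb2 : IsUnit (rescale (2 : ℂ) be) := hub'.map _
  have hbne : be ≠ 0 := left_ne_zero_of_mul_eq_one hbb
  have hrc : ∀ j, c < j → r j = 0 := by
    intro j hj
    rw [hr]
    simp only
    rw [h.hz j hj, map_zero, zero_mul]
  have hrconst : ∀ j, j ≤ c → constantCoeff (r j) = (c.choose j : ℂ) := by
    intro j hj
    have h1 := congrArg (constantCoeff (R := ℂ)) (hbr j)
    rw [map_mul, ev_const, h.h1 j, hbe, ev_const] at h1
    push_cast at h1
    have h2 : (((q 0).eval 1 : ℤ) : ℂ) ≠ 0 := by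
      have := h.hp
      exact_mod_cast this.ne'
    apply mul_left_cancel₀ h2
    rw [← h1]
    ring
  have hfe : ∀ j, j ≤ c → (X : ℂ⟦X⟧) ^ m ∣
      ∑ p ∈ Finset.HasAntidiagonal.antidiagonal (2 * j), (-1) ^ p.2 * (r p.1 * r p.2) -
        (-1) ^ j * rescale (2 : ℂ) (r j) := by
    intro j _
    have h1 := (dvd_iff _ _).mp (h.fe j)
    rw [map_sub, map_mul, map_mul, map_mul, map_pow, map_pow, map_neg, map_one, ev_expand,
      ev_expand, map_sum] at h1
    have h2 : ∀ p : ℕ × ℕ, ev ((-1) ^ p.2 * q p.1 * q p.2) =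
        be ^ 2 * ((-1) ^ p.2 * (r p.1 * r p.2)) := by
      intro p
      rw [map_mul, map_mul, map_pow, map_neg, map_one, hbr, hbr]
      ring
    rw [Finset.sum_congr rfl fun p _ => h2 p, ← Finset.mul_sum, hbr j, map_mul, ← hbe] at h1
    have h3 : (-1) ^ j * (rescale (2 : ℂ) be * rescale (2 : ℂ) (r j)) * be ^ 2 -
        rescale (2 : ℂ) be * (be ^ 2 * ∑ p ∈ Finset.HasAntidiagonal.antidiagonal (2 * j),
          (-1) ^ p.2 * (r p.1 * r p.2)) =
        - (rescale (2 : ℂ) be * (be ^ 2 * (∑ p ∈ Finset.HasAntidiagonal.antidiagonal (2 * j),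
          (-1) ^ p.2 * (r p.1 * r p.2) - (-1) ^ j * rescale (2 : ℂ) (r j)))) := by
      ring
    rw [h3, dvd_neg, hb2.dvd_mul_left, (hub'.pow 2).dvd_mul_left] at h1
    exact h1
  obtain ⟨x, hx⟩ := sol_of_fe c m r hrconst
    (by rw [hr]; simp only; rw [← hbe, hbb, sub_self]; exact dvd_zero _) hrc hfe
  refine ⟨x, fun j => ?_⟩
  rw [tau_ev, tau_ev, hbr, ← hbe, esx_eq, coeff_sol, mul_comm _ be, ← mul_sub]
  exact dvd_mul_of_dvd_right (hx j) _

theorem sum_sol {c : ℕ} (x : Fin c → ℂ) :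
    ∑ j ∈ Finset.range (c + 1), (-1) ^ j * (sol x).coeff j = ∏ i, (1 - ex (x i)) := by
  have h2 : (sol x).eval (-1) = ∏ i, (1 - ex (x i)) := by
    rw [sol, Polynomial.eval_prod]
    apply Finset.prod_congr rfl
    intro i _
    simp only [Polynomial.eval_add, Polynomial.eval_one, Polynomial.eval_mul,
      Polynomial.eval_C, Polynomial.eval_X]
    ring
  rw [← h2, Polynomial.eval_eq_sum_range' (n := c + 1)]
  · apply Finset.sum_congr rfl
    intro i _
    rw [mul_comm]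
  · rw [Nat.lt_succ_iff, Polynomial.natDegree_le_iff_coeff_eq_zero]
    intro n hn
    rw [coeff_sol, Finset.powersetCard_eq_empty.mpr (by simpa using hn), Finset.sum_empty]

theorem pP1 : S_P1 := by
  intro c m q x h hx
  have hu := unit0 h
  have h1 := (dvd_iff _ _).mp h.ii
  rw [map_sub, map_mul, map_pow, map_pow, ev_one_sub, map_sum] at h1
  rw [tau_ev, map_mul, map_pow, ev_one_sub, gx_eq, ← sum_sol]
  have h2 : X ^ m ∣ ev (q 0) * (w ^ c * ev (q 0) -
      ∑ j ∈ Finset.range (c + 1), (-1) ^ j * (sol x).coeff j) := by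
    have h3 : ev (q 0) * (w ^ c * ev (q 0) -
        ∑ j ∈ Finset.range (c + 1), (-1) ^ j * (sol x).coeff j) =
        -(∑ j ∈ Finset.range (c + 1), ev ((-1) ^ j * q j) - w ^ c * ev (q 0) ^ 2) +
          ∑ j ∈ Finset.range (c + 1), (-1) ^ j * (ev (q j) - (sol x).coeff j * ev (q 0)) := by
      simp only [map_mul, map_pow, map_neg, map_one, mul_sub, Finset.sum_sub_distrib]
      have h4 : ∀ j, (-1 : ℂ⟦X⟧) ^ j * ((sol x).coeff j * ev (q 0)) =
          ev (q 0) * ((-1) ^ j * (sol x).coeff j) := by intro j; ring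
      rw [Finset.sum_congr rfl fun j _ => h4 j, ← Finset.mul_sum]
      ring
    rw [h3]
    refine dvd_add ((dvd_neg).mpr h1) (Finset.dvd_sum fun j _ => dvd_mul_of_dvd_right ?_ _)
    have h5 := hx j
    rwa [tau_ev, tau_ev, esx_eq] at h5
  exact (hu.dvd_mul_left).mp h2

theorem pPr : S_Pr := by
  intro c m h x hcm hd
  rw [tau_ev, map_mul, map_pow, ev_one_sub, gx_eq, prod_one_sub, w_eq, mul_pow, mul_assoc,
    ← mul_sub] at hd
  have h2 : m = c + (m - c) := by omega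
  rw [h2, pow_add, mul_dvd_mul_iff_left (pow_ne_zero c X_ne_zero)] at hd
  have h3 := (X_pow_dvd_iff.mp hd) 0 (by omega)
  rw [coeff_zero_eq_constantCoeff_apply, map_sub, map_mul, map_mul, map_pow, ev_const,
    pr_const, constantCoeff_C, mul_one] at h3
  have h4 : constantCoeff ph = 1 := by
    rw [← coeff_zero_eq_constantCoeff_apply, ph, coeff_mk]
    simp
  rw [h4, one_pow, one_mul, sub_eq_zero] at h3
  exact h3.symm

theorem pAout : S_Aout := by
  intro c m q d h hd hq hm j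
  obtain ⟨x, hx⟩ := pBr c m q (by omega) h
  have h1 := pP1 c m q x h hx
  rw [hq] at h1
  have h2 : tau (∏ i, (1 - Polynomial.X ^ d i)) = ∏ i, (1 - ex (d i)) := by
    rw [tau_ev, map_prod]
    apply Finset.prod_congr rfl
    intro i _
    rw [map_sub, map_one, ev_X_pow]
  rw [h2, gx_eq, ← dvd_neg, neg_sub] at h1
  obtain ⟨σ, hσ⟩ := eq_of_prod c m hm d hd x h1
  have h3 : sol x = sol fun i => ((d i : ℕ) : ℂ) := by
    have h5 := Equiv.prod_comp σ
      fun i => (1 + Polynomial.C (ex ((d i : ℕ) : ℂ)) * Polynomial.X : Polynomial ℂ⟦X⟧)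
    rw [sol, sol, ← h5]
    apply Finset.prod_congr rfl
    intro i _
    rw [hσ i]
  rw [dvd_iff]
  have h4 := hx j
  rw [tau_ev, tau_ev, esx_eq, h3, coeff_sol] at h4
  have h5 : ev (esd d j) = ∑ A ∈ Finset.powersetCard j Finset.univ, ex (∑ i ∈ A, (d i : ℂ)) := by
    rw [esd, map_sum]
    apply Finset.sum_congr rfl
    intro A _
    rw [ev_X_pow]
    congr 1
    push_cast
    rfl
  rw [map_sub, map_mul, h5]
  exact h4

end SDV
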