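import Pool.Agent.Lib.MP_776403_ag.SD.V.Spec

/-!
# THEOREM SD stage 2, module V/Ber: the logarithmic derivative
-/

open Polynomial

namespace SDV

noncomputable section

namespace Ber_aux

theorem prod_log {c : ℕ} (f g : Fin c → PowerSeries ℂ)
    (h : ∀ j, PowerSeries.X * PowerSeries.derivative ℂ (f j) = f j * g j)
    (s : Finset (Fin c)) :
    PowerSeries.X * PowerSeries.derivative ℂ (∏ j ∈ s, f j) =
      (∏ j ∈ s, f j) * ∑ j ∈ s, g j := by
  induction s using Finset.induction_on with
  | empty =>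
    rw [Finset.prod_empty, Finset.sum_empty, mul_zero, Derivation.map_one_eq_zero, mul_zero]
  | insert a s ha ih =>
    rw [Finset.prod_insert ha, Finset.sum_insert ha, Derivation.leibniz, smul_eq_mul, smul_eq_mul,
      mul_add, mul_add]
    have e1 : PowerSeries.X * (f a * PowerSeries.derivative ℂ (∏ j ∈ s, f j)) =
        f a * ((∏ j ∈ s, f j) * ∑ j ∈ s, g j) := by
      rw [← ih]; ring
    have e2 : PowerSeries.X * ((∏ j ∈ s, f j) * PowerSeries.derivative ℂ (f a)) =
        (∏ j ∈ s, f j) * (f a * g a) := by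
      rw [← h a]; ring
    rw [e1, e2]
    ring

theorem d_eu (a : ℂ) : PowerSeries.derivative ℂ (eu a) = PowerSeries.C a * eu a := by
  ext n
  rw [PowerSeries.coeff_C_mul, PowerSeries.coeff_derivative]
  unfold eu
  rw [PowerSeries.coeff_rescale, PowerSeries.coeff_rescale, PowerSeries.coeff_exp,
    PowerSeries.coeff_exp, Nat.factorial_succ]
  have h1 : ((n : ℂ) + 1) ≠ 0 := by exact_mod_cast Nat.succ_ne_zero n
  have h2 : ((n.factorial : ℕ) : ℂ) ≠ 0 := by exact_mod_cast Nat.factorial_ne_zero n
  push_cast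
  rw [pow_succ]
  field_simp

theorem eu_mul (a : ℂ) : eu a * eu (-a) = 1 := by
  unfold eu
  rw [PowerSeries.exp_mul_exp_eq_exp_add, add_neg_cancel]
  ext n
  rw [PowerSeries.coeff_rescale, PowerSeries.coeff_one]
  rcases Nat.eq_zero_or_pos n with rfl | hn
  · simp
  · rw [zero_pow hn.ne', zero_mul, if_neg hn.ne']

theorem one (a : ℂ) :
    PowerSeries.X * PowerSeries.derivative ℂ (1 - eu (-a)) = (1 - eu (-a)) *
      PowerSeries.rescale a
      (PowerSeries.mk fun k => ((_root_.bernoulli k : ℚ) : ℂ) / (k.factorial : ℂ)) := by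
  have hB : (PowerSeries.mk fun k => ((_root_.bernoulli k : ℚ) : ℂ) / (k.factorial : ℂ)) =
      bernoulliPowerSeries ℂ := by
    ext n
    rw [PowerSeries.coeff_mk, bernoulliPowerSeries, PowerSeries.coeff_mk]
    simp
  rw [hB]
  have h1 := congrArg (PowerSeries.rescale a) (bernoulliPowerSeries_mul_exp_sub_one ℂ)
  rw [map_mul, map_sub, map_one] at h1
  have h2 : PowerSeries.rescale a (PowerSeries.X : PowerSeries ℂ) =
      PowerSeries.C a * PowerSeries.X := by
    exact PowerSeries.rescale_X a
  rw [h2] at h1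
  have h3 : PowerSeries.rescale a (PowerSeries.exp ℂ) = eu a := rfl
  rw [h3] at h1
  rw [map_sub, Derivation.map_one_eq_zero, d_eu, zero_sub, map_neg]
  have h4 := eu_mul a
  calc PowerSeries.X * -(-PowerSeries.C a * eu (-a))
      = (PowerSeries.C a * PowerSeries.X) * eu (-a) := by ring
    _ = PowerSeries.rescale a (bernoulliPowerSeries ℂ) * (eu a - 1) * eu (-a) := by rw [h1]
    _ = PowerSeries.rescale a (bernoulliPowerSeries ℂ) * (eu a * eu (-a) - eu (-a)) := by ring
    _ = (1 - eu (-a)) * PowerSeries.rescale a (bernoulliPowerSeries ℂ) := by rw [h4]; ring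

end Ber_aux

theorem pBer : S_Ber := by
  intro c x
  unfold gx
  exact Ber_aux.prod_log _ _ (fun j => Ber_aux.one (x j)) Finset.univ

end

end SDV
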