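import Pool.Agent.Lib.MP_776403_ag.SD.V.Spec

/-!
# Output (A): the K-theoretic conormal data of a numerical complete intersection
-/

set_option autoImplicit false

open Polynomial

noncomputable section

namespace SDV

namespace Aout_aux

theorem tau_sub (F G : ℤ[X]) : tau (F - G) = tau F - tau G := map_sub _ F G

theorem tau_mul (F G : ℤ[X]) : tau (F * G) = tau F * tau G := map_mul _ F G

theorem tau_one : tau 1 = 1 := map_one _

theorem tau_prod {ι : Type} (s : Finset ι) (F : ι → ℤ[X]) :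
    tau (∏ i ∈ s, F i) = ∏ i ∈ s, tau (F i) := map_prod _ F s

theorem tau_sum {ι : Type} (s : Finset ι) (F : ι → ℤ[X]) :
    tau (∑ i ∈ s, F i) = ∑ i ∈ s, tau (F i) := map_sum _ F s

theorem tau_gx (hT2 : S_T2) {c : ℕ} (d : Fin c → ℕ) :
    tau (∏ i, (1 - X ^ (d i))) = gx (fun i => ((d i : ℕ) : ℂ)) := by
  rw [tau_prod]
  unfold gx
  refine Finset.prod_congr rfl fun i _ => ?_
  rw [tau_sub, tau_one, (hT2 0).2.2.2 (d i)]

theorem tau_esd (hT2 : S_T2) {c : ℕ} (x : Fin c → ℂ) (d : Fin c → ℕ)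
    (σ : Equiv.Perm (Fin c)) (h : ∀ j, x (σ j) = ((d j : ℕ) : ℂ)) (j : ℕ) :
    esx x j = tau (esd d j) := by
  unfold esx esd
  rw [tau_sum]
  symm
  refine Finset.sum_bij (fun (A : Finset (Fin c)) _ => A.map σ.toEmbedding) ?_ ?_ ?_ ?_
  · intro A hA
    rw [Finset.mem_powersetCard] at hA ⊢
    exact ⟨Finset.subset_univ _, by rw [Finset.card_map, hA.2]⟩
  · intro A _ B _ hAB
    exact Finset.map_injective _ hAB
  · intro B hB
    rw [Finset.mem_powersetCard] at hB
    refine ⟨B.map σ.symm.toEmbedding, ?_, ?_⟩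
    · rw [Finset.mem_powersetCard]
      exact ⟨Finset.subset_univ _, by rw [Finset.card_map, hB.2]⟩
    · rw [Finset.map_map]
      ext i
      simp
  · intro A _
    rw [(hT2 0).2.2.2 (∑ i ∈ A, d i), Finset.sum_map]
    congr 1
    rw [Nat.cast_sum]
    congr 1
    refine Finset.sum_congr rfl fun i _ => ?_
    exact (h i).symm

end Aout_aux

open Aout_aux in
theorem pAout (hBr : S_Br) (hP1 : S_P1) (hPr : S_Pr) (hMul : S_Mul) (hT1 : S_T1)
    (hT2 : S_T2) : S_Aout := by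
  intro c m q d hD hd heq hm j
  obtain ⟨x, hx⟩ := hBr c m q (by omega) hD
  have h1 := hP1 c m q x hD hx
  have h2 := hPr c m (q 0) x (by omega) h1
  have h3 : ∀ i, x i ≠ 0 := by
    intro i hi
    have h4 : ∏ j, x j = 0 := Finset.prod_eq_zero (Finset.mem_univ i) hi
    rw [h4] at h2
    have h5 := hD.hp
    have h6 : ((q 0).eval 1 : ℤ) = 0 := by exact_mod_cast h2.symm
    omega
  rw [heq, tau_gx hT2] at h1
  have h7 : (PowerSeries.X : PowerSeries ℂ) ^ m ∣ gx x - gx (fun i => ((d i : ℕ) : ℂ)) := by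
    rw [← neg_sub]
    exact (dvd_neg).2 h1
  obtain ⟨σ, hσ⟩ := hMul c m x d h3 hd hm h7
  rw [hT1 m (q j - esd d j * q 0), tau_sub, tau_mul, ← tau_esd hT2 x d σ hσ j]
  exact hx j

end SDV
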