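import Pool.Agent.Lib.MP_776403_ag.SD.V.Spec

set_option autoImplicit false

/-!
# Bernoulli numbers `B_(2l)` are not zero
-/

open Polynomial

namespace SDV

theorem pB2 : S_B2 := by
  intro l hl h0
  have h := hasSum_zeta_nat (k := l) (by omega)
  rw [h0] at h
  simp only [Rat.cast_zero, mul_zero, zero_div] at h
  have h1 := sum_le_hasSum {1} (fun i _ => by positivity) h
  norm_num at h1

end SDV
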