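import Pool.Agent.Lib.MP_776403_ag.SD.V.Spec

/-!
# [V8] `q_j = e_j(e^(-x u)) q_0` modulo `u^m`
-/

open Polynomial

namespace SDV

namespace Br_aux

lemma coeff_eu (x : ℂ) (k : ℕ) :
    PowerSeries.coeff k (eu x) = x ^ k / (k.factorial : ℂ) := by
  unfold eu
  rw [PowerSeries.coeff_rescale, PowerSeries.coeff_exp]
  simp [div_eq_mul_inv]

lemma coeff_esx {c : ℕ} (x : Fin c → ℂ) (j k : ℕ) :
    PowerSeries.coeff k (esx x j) =
      ∑ A ∈ (Finset.univ : Finset (Fin c)).powersetCard j,
        (-∑ i ∈ A, x i) ^ k / (k.factorial : ℂ) := by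
  unfold esx
  rw [map_sum]
  exact Finset.sum_congr rfl fun A _ => coeff_eu _ _

lemma coeff_rx {c : ℕ} (x : Fin c → ℂ) (j k : ℕ) :
    (rx x k).coeff j = PowerSeries.coeff k (esx x j) := by
  rw [coeff_esx]
  unfold rx
  rw [Polynomial.finsetSum_coeff]
  have h1 : ∀ A : Finset (Fin c),
      (C ((-∑ i ∈ A, x i) ^ k / (k.factorial : ℂ)) * X ^ A.card : ℂ[X]).coeff j =
        if A.card = j then (-∑ i ∈ A, x i) ^ k / (k.factorial : ℂ) else 0 := by
    intro A
    rw [Polynomial.coeff_C_mul, Polynomial.coeff_X_pow]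
    by_cases h : A.card = j
    · rw [if_pos h, if_pos h.symm, mul_one]
    · rw [if_neg h, if_neg (fun h' => h h'.symm), mul_zero]
  rw [Finset.sum_congr rfl fun A _ => h1 A, ← Finset.sum_filter]
  refine Finset.sum_congr ?_ fun _ _ => rfl
  ext A
  simp [Finset.mem_powersetCard]

lemma coeff_rq (c : ℕ) (q : ℕ → ℤ[X]) (j k : ℕ) (hj : j ≤ c) :
    (rq c q k).coeff j = PowerSeries.coeff k (rho q j) := by
  unfold rq
  rw [Polynomial.finsetSum_coeff]
  have h1 : ∀ i : ℕ,
      (C (PowerSeries.coeff k (rho q i)) * X ^ i : ℂ[X]).coeff j =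
        if i = j then PowerSeries.coeff k (rho q i) else 0 := by
    intro i
    rw [Polynomial.coeff_C_mul, Polynomial.coeff_X_pow]
    by_cases h : i = j
    · rw [if_pos h, if_pos h.symm, mul_one]
    · rw [if_neg h, if_neg (fun h' => h h'.symm), mul_zero]
  rw [Finset.sum_congr rfl fun i _ => h1 i, Finset.sum_ite_eq',
    if_pos (Finset.mem_range.mpr (Nat.lt_succ_of_le hj))]

lemma tau_zero : tau 0 = 0 := by
  unfold tau
  exact map_zero _

end Br_aux

open Br_aux in
theorem pBr (hV : S_V) (hVS : S_VS) (hT2 : S_T2) : S_Br := by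
  intro c m q hcm hq
  obtain ⟨x, hx⟩ := hV c m (rq c q) hcm (hVS c m q hq)
  refine ⟨x, fun j => ?_⟩
  have hunit : PowerSeries.constantCoeff (tau (q 0)) ≠ 0 := by
    rw [(hT2 (q 0)).2.1]
    exact_mod_cast hq.hp.ne'
  by_cases hj : j ≤ c
  · have h1 : rho q j * tau (q 0) = tau (q j) := by
      unfold rho
      rw [mul_assoc, PowerSeries.inv_mul_cancel _ hunit, mul_one]
    have h2 : (PowerSeries.X : PowerSeries ℂ) ^ m ∣ rho q j - esx x j := by
      rw [PowerSeries.X_pow_dvd_iff]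
      intro k hk
      rw [map_sub, ← coeff_rq c q j k hj, ← coeff_rx x j k, hx k hk, sub_self]
    have h3 : tau (q j) - esx x j * tau (q 0) = (rho q j - esx x j) * tau (q 0) := by
      rw [sub_mul, h1]
    rw [h3]
    exact h2.mul_right _
  · have hj' : c < j := not_le.mp hj
    have h1 : tau (q j) = 0 := by rw [hq.hz j hj', tau_zero]
    have h2 : esx x j = 0 := by
      unfold esx
      rw [Finset.powersetCard_eq_empty.mpr (by simpa using hj'), Finset.sum_empty]
    rw [h1, h2, zero_mul, sub_zero]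
    exact dvd_zero _

end SDV
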