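import Pool.Agent.Lib.MP_776403_ag.SD.V.Spec

set_option autoImplicit false

/-!
# `x` is a permutation of `d`
-/

open Polynomial

namespace SDV

theorem pMul (hPl : S_Pl) (hB2 : S_B2) (hNt : S_Nt) : S_Mul := by
  intro c m x d hx hd hm hdiv
  rcases Nat.eq_zero_or_pos c with hc | hc
  · subst hc
    exact ⟨1, fun j => j.elim0⟩
  have hd0 : ∀ j, ((d j : ℕ) : ℂ) ≠ 0 := fun j => Nat.cast_ne_zero.2 (by have := hd j; omega)
  have key := hPl c m x (fun i => ((d i : ℕ) : ℂ)) hx hd0 hdiv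
  have sum1 : ∑ j, x j = ∑ j, ((d j : ℕ) : ℂ) := by
    have h := key 1 (by omega)
    rw [_root_.bernoulli_one] at h
    have h2 := mul_left_cancel₀ (by norm_num) h
    simpa using h2
  have sum2 : ∀ i, 1 ≤ i → i ≤ c → ∑ j, (x j ^ 2) ^ i = ∑ j, (((d j : ℕ) : ℂ) ^ 2) ^ i := by
    intro i h1 h2
    have h := key (2 * i) (by omega)
    have h3 := mul_left_cancel₀ (Rat.cast_ne_zero.2 (hB2 i h1)) h
    simpa only [pow_mul] using h3
  obtain ⟨σ, hσ⟩ := hNt c (fun j => x j ^ 2) (fun j => ((d j : ℕ) : ℂ) ^ 2) sum2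
  have hs : ∀ j, x (σ j) = ((d j : ℕ) : ℂ) ∨ x (σ j) = -((d j : ℕ) : ℂ) :=
    fun j => sq_eq_sq_iff_eq_or_eq_neg.1 (hσ j)
  have hre : ∑ j, ((d j : ℝ) - (x (σ j)).re) = 0 := by
    rw [Finset.sum_sub_distrib, sub_eq_zero]
    have h1 := congrArg Complex.re sum1
    rw [Complex.re_sum, Complex.re_sum] at h1
    rw [Equiv.sum_comp σ (fun j => (x j).re), h1]
    simp
  have hz := (Finset.sum_eq_zero_iff_of_nonneg (fun j _ => by
    rcases hs j with h | h
    · rw [h]
      simp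
    · rw [h, Complex.neg_re, Complex.natCast_re]
      have : (0 : ℝ) ≤ d j := Nat.cast_nonneg _
      linarith)).1 hre
  refine ⟨σ, fun j => ?_⟩
  rcases hs j with h | h
  · exact h
  · exfalso
    have h1 := hz j (Finset.mem_univ j)
    rw [h, Complex.neg_re, Complex.natCast_re] at h1
    have h2 : (1 : ℝ) ≤ d j := by exact_mod_cast hd j
    linarith

end SDV
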