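import Pool.Agent.Lib.MP_776403_ag.SD.V.Spec

/-!
# THEOREM SD, stage 2, part V: Newton, equal power sums give equal multisets
-/

set_option autoImplicit false

open Polynomial

namespace SDV

noncomputable section

namespace Nt_aux

theorem psum_ev {c : ℕ} (a : Fin c → ℂ) (l : ℕ) :
    MvPolynomial.aeval a (MvPolynomial.psum (Fin c) ℂ l) = ∑ j, a j ^ l := by
  simp [MvPolynomial.psum]

theorem esymm_eq {c : ℕ} (a b : Fin c → ℂ)
    (h : ∀ l, 1 ≤ l → l ≤ c → ∑ j, a j ^ l = ∑ j, b j ^ l) (k : ℕ) (hk : k ≤ c) :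
    MvPolynomial.aeval a (MvPolynomial.esymm (Fin c) ℂ k) =
      MvPolynomial.aeval b (MvPolynomial.esymm (Fin c) ℂ k) := by
  induction k using Nat.strong_induction_on with
  | _ k ih =>
    rcases Nat.eq_zero_or_pos k with h0 | h0
    · subst h0
      rw [MvPolynomial.esymm_zero, map_one, map_one]
    · have h1 := congrArg (MvPolynomial.aeval a) (MvPolynomial.mul_esymm_eq_sum (Fin c) ℂ k)
      have h2 := congrArg (MvPolynomial.aeval b) (MvPolynomial.mul_esymm_eq_sum (Fin c) ℂ k)
      rw [map_mul, map_mul, map_natCast, map_sum, map_pow, map_neg, map_one] at h1 h2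
      have h3 : ∀ x ∈ (Finset.HasAntidiagonal.antidiagonal k).filter (fun x : ℕ × ℕ => x.1 < k),
          MvPolynomial.aeval a ((-1) ^ x.1 * MvPolynomial.esymm (Fin c) ℂ x.1 *
            MvPolynomial.psum (Fin c) ℂ x.2) =
          MvPolynomial.aeval b ((-1) ^ x.1 * MvPolynomial.esymm (Fin c) ℂ x.1 *
            MvPolynomial.psum (Fin c) ℂ x.2) := by
        intro x hx
        obtain ⟨hx1, hx2⟩ := Finset.mem_filter.1 hx
        rw [Finset.HasAntidiagonal.mem_antidiagonal] at hx1
        rw [map_mul, map_mul, map_mul, map_mul, ih x.1 hx2 (by omega), psum_ev, psum_ev,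
          h x.2 (by omega) (by omega)]
        simp
      rw [Finset.sum_congr rfl h3] at h1
      have h4 : (k : ℂ) ≠ 0 := Nat.cast_ne_zero.2 h0.ne'
      exact mul_left_cancel₀ h4 (h1.trans h2.symm)

theorem mult_eq {c : ℕ} (a b : Fin c → ℂ)
    (h : ∀ l, 1 ≤ l → l ≤ c → ∑ j, a j ^ l = ∑ j, b j ^ l) :
    Finset.univ.val.map a = Finset.univ.val.map b := by
  have h1 : ((Finset.univ.val.map a).map fun t => X - C t).prod =
      ((Finset.univ.val.map b).map fun t => X - C t).prod := by
    rw [Multiset.prod_X_sub_X_eq_sum_esymm, Multiset.prod_X_sub_X_eq_sum_esymm]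
    have hc : ∀ f : Fin c → ℂ, Multiset.card (Finset.univ.val.map f) = c := by
      intro f
      simp
    rw [hc, hc]
    refine Finset.sum_congr rfl fun j hj => ?_
    have hj' : j ≤ c := by
      have := Finset.mem_range.1 hj
      omega
    have h2 := esymm_eq a b h j hj'
    rw [MvPolynomial.aeval_esymm_eq_multiset_esymm, MvPolynomial.aeval_esymm_eq_multiset_esymm]
      at h2
    rw [h2]
  have h3 := congrArg Polynomial.roots h1
  rwa [Polynomial.roots_multiset_prod_X_sub_C, Polynomial.roots_multiset_prod_X_sub_C] at h3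

theorem perm_of {c : ℕ} (a b : Fin c → ℂ)
    (h : Finset.univ.val.map a = Finset.univ.val.map b) :
    ∃ σ : Equiv.Perm (Fin c), ∀ j, a (σ j) = b j := by
  classical
  have h1 : ∀ z : ℂ, Fintype.card {j // b j = z} = Fintype.card {j // a j = z} := by
    intro z
    have h2 := congrArg (Multiset.count z) h
    rw [Multiset.count_map, Multiset.count_map] at h2
    rw [Fintype.card_subtype, Fintype.card_subtype]
    have h3 : ∀ f : Fin c → ℂ, (Finset.univ.filter fun j => f j = z).card =
        Multiset.card (Finset.univ.val.filter fun j => z = f j) := by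
      intro f
      rw [Finset.card_def, Finset.filter_val]
      congr 1
      exact Multiset.filter_congr fun j _ => eq_comm
    rw [h3, h3, h2]
  let e : ∀ z : ℂ, {j // b j = z} ≃ {j // a j = z} := fun z =>
    Fintype.equivOfCardEq (h1 z)
  refine ⟨(Equiv.sigmaFiberEquiv b).symm.trans
    ((Equiv.sigmaCongrRight e).trans (Equiv.sigmaFiberEquiv a)), fun j => ?_⟩
  change a ((e (b j) ⟨j, rfl⟩ : {i // a i = b j}) : Fin c) = b j
  exact (e (b j) ⟨j, rfl⟩).2

end Nt_aux

theorem pNt : S_Nt := fun _ a b h => Nt_aux.perm_of a b (Nt_aux.mult_eq a b h)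

end

end SDV
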