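import Pool.Agent.Lib.MP_776403_ag.SD.V.Spec

/-!
# Stage 2 of THEOREM SD, module P1
-/

set_option autoImplicit false

open Polynomial

namespace SDV

noncomputable section

namespace P1_aux

theorem tau_mul (F G : ℤ[X]) : tau (F * G) = tau F * tau G := map_mul (Polynomial.aeval (eu (-1))) F G

theorem tau_sub (F G : ℤ[X]) : tau (F - G) = tau F - tau G := map_sub (Polynomial.aeval (eu (-1))) F G

theorem tau_sum (n : ℕ) (f : ℕ → ℤ[X]) :
    tau (∑ j ∈ Finset.range n, f j) = ∑ j ∈ Finset.range n, tau (f j) :=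
  map_sum (Polynomial.aeval (eu (-1))) f (Finset.range n)

theorem tau_sgn (j : ℕ) : tau ((-1 : ℤ[X]) ^ j) = (-1) ^ j := by
  have h : tau ((-1 : ℤ[X]) ^ j) = (Polynomial.aeval (eu (-1)) : ℤ[X] →ₐ[ℤ] PowerSeries ℂ) ((-1) ^ j) :=
    rfl
  rw [h, map_pow, map_neg, map_one]

theorem eu_add (a b : ℂ) : eu (a + b) = eu a * eu b :=
  (PowerSeries.exp_mul_exp_eq_exp_add a b).symm

theorem eu_zero : eu 0 = 1 := by
  unfold eu
  rw [PowerSeries.rescale_zero_apply, PowerSeries.constantCoeff_exp, map_one]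

theorem prod_eu {c : ℕ} (x : Fin c → ℂ) (A : Finset (Fin c)) :
    ∏ i ∈ A, eu (-(x i)) = eu (-∑ i ∈ A, x i) := by
  classical
  induction A using Finset.induction_on with
  | empty => simp [eu_zero]
  | insert a s ha ih => rw [Finset.prod_insert ha, Finset.sum_insert ha, ih, neg_add, eu_add]

theorem gx_eq {c : ℕ} (x : Fin c → ℂ) :
    gx x = ∑ j ∈ Finset.range (c + 1), (-1) ^ j * esx x j := by
  unfold gx
  have h1 : ∀ j : Fin c, (1 - eu (-(x j)) : PowerSeries ℂ) = 1 + (-eu (-(x j))) := fun j => by ring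
  simp only [h1]
  rw [Finset.prod_one_add, Finset.sum_powerset, Finset.card_univ, Fintype.card_fin]
  refine Finset.sum_congr rfl fun j _ => ?_
  unfold esx
  rw [Finset.mul_sum]
  refine Finset.sum_congr rfl fun A hA => ?_
  rw [Finset.prod_neg, (Finset.mem_powersetCard.1 hA).2, prod_eu]

end P1_aux

open P1_aux in
theorem pP1 (hT1 : S_T1) (hT2 : S_T2) : S_P1 := by
  intro c m q x hD hx
  have h1 := (hT1 m _).1 hD.ii
  rw [tau_sub, tau_sum, sq, ← mul_assoc, tau_mul _ (q 0)] at h1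
  simp only [tau_mul ((-1) ^ _), tau_sgn] at h1
  have h2 : (PowerSeries.X : PowerSeries ℂ) ^ m ∣
      ∑ j ∈ Finset.range (c + 1), (-1) ^ j * (tau (q j) - esx x j * tau (q 0)) :=
    Finset.dvd_sum fun j _ => Dvd.dvd.mul_left (hx j) _
  have h3 : ∑ j ∈ Finset.range (c + 1), (-1) ^ j * (tau (q j) - esx x j * tau (q 0)) =
      ∑ j ∈ Finset.range (c + 1), (-1) ^ j * tau (q j) - gx x * tau (q 0) := by
    rw [gx_eq, Finset.sum_mul, ← Finset.sum_sub_distrib]
    exact Finset.sum_congr rfl fun j _ => by ring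
  rw [h3] at h2
  have h4 := dvd_sub h2 h1
  have h5 : ∑ j ∈ Finset.range (c + 1), (-1) ^ j * tau (q j) - gx x * tau (q 0) -
      (∑ j ∈ Finset.range (c + 1), (-1) ^ j * tau (q j) - tau ((1 - X) ^ c * q 0) * tau (q 0)) =
      (tau ((1 - X) ^ c * q 0) - gx x) * tau (q 0) := by ring
  rw [h5] at h4
  have h6 : IsUnit (tau (q 0)) := by
    rw [PowerSeries.isUnit_iff_constantCoeff, (hT2 (q 0)).2.1, isUnit_iff_ne_zero]
    exact_mod_cast hD.hp.ne'
  exact (IsUnit.dvd_mul_right h6).1 h4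

end

end SDV
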