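import Pool.Agent.Lib.MP_776403_ag.SD.V.Spec

/-!
# Stage 2 of THEOREM SD, module Pl: power sums times Bernoulli numbers
-/

set_option autoImplicit false

open Polynomial

namespace SDV

noncomputable section

namespace Pl_aux

theorem fac (x : ℂ) : ∃ G : PowerSeries ℂ, 1 - eu (-x) = PowerSeries.X * G ∧
    PowerSeries.constantCoeff G = x := by
  have h : PowerSeries.X ∣ 1 - eu (-x) := by
    rw [PowerSeries.X_dvd_iff, map_sub, map_one, ← PowerSeries.coeff_zero_eq_constantCoeff_apply,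
      eu, PowerSeries.coeff_rescale, PowerSeries.coeff_exp]
    simp
  obtain ⟨G, hG⟩ := h
  refine ⟨G, hG, ?_⟩
  have h1 : PowerSeries.coeff 1 (1 - eu (-x)) = x := by
    rw [map_sub, PowerSeries.coeff_one, eu, PowerSeries.coeff_rescale, PowerSeries.coeff_exp]
    simp
  rw [hG, ← zero_add 1, PowerSeries.coeff_succ_X_mul,
    PowerSeries.coeff_zero_eq_constantCoeff_apply] at h1
  exact h1

theorem gfac {c : ℕ} (x : Fin c → ℂ) (hx : ∀ j, x j ≠ 0) : ∃ G : PowerSeries ℂ,
    gx x = PowerSeries.X ^ c * G ∧ IsUnit G := by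
  choose G hG1 hG2 using fun j => fac (x j)
  refine ⟨∏ j, G j, ?_, ?_⟩
  · rw [gx, Finset.prod_congr rfl fun j _ => hG1 j, Finset.prod_mul_distrib, Finset.prod_const,
      Finset.card_univ, Fintype.card_fin]
  · rw [PowerSeries.isUnit_iff_constantCoeff, map_prod, isUnit_iff_ne_zero,
      Finset.prod_ne_zero_iff]
    intro j _
    rw [hG2]
    exact hx j

/-- the series of power sums -/
def Sx {c : ℕ} (x : Fin c → ℂ) : PowerSeries ℂ := ∑ j, PowerSeries.rescale (x j)
  (PowerSeries.mk fun k => ((_root_.bernoulli k : ℚ) : ℂ) / (k.factorial : ℂ))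

theorem coeff_Sx {c : ℕ} (x : Fin c → ℂ) (l : ℕ) : PowerSeries.coeff l (Sx x) =
    (∑ j, x j ^ l) * (((_root_.bernoulli l : ℚ) : ℂ) / (l.factorial : ℂ)) := by
  rw [Sx, map_sum, Finset.sum_mul]
  refine Finset.sum_congr rfl fun j _ => ?_
  rw [PowerSeries.coeff_rescale, PowerSeries.coeff_mk]

theorem alg {c m : ℕ} (gX gY dX dY SX SY W GX GY dW : PowerSeries ℂ) (hcm : c ≤ m)
    (h1 : PowerSeries.X * dX = gX * SX) (h2 : PowerSeries.X * dY = gY * SY)
    (h3 : gX = gY + PowerSeries.X ^ m * W)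
    (h4 : PowerSeries.X * dX = PowerSeries.X * dY +
      (PowerSeries.X ^ m * ((m : PowerSeries ℂ) * W + PowerSeries.X * dW)))
    (h5 : gX = PowerSeries.X ^ c * GX) (h6 : gY = PowerSeries.X ^ c * GY) :
    PowerSeries.X ^ (m - c) ∣ (GX * GY) * (SX - SY) := by
  obtain ⟨e, rfl⟩ := Nat.exists_eq_add_of_le hcm
  have e1 : c + e - c = e := by omega
  rw [e1]
  refine ⟨((((c + e : ℕ) : PowerSeries ℂ) * W + PowerSeries.X * dW) * GY - GY * SY * W), ?_⟩
  have hX : (PowerSeries.X : PowerSeries ℂ) ^ (c + c) ≠ 0 := pow_ne_zero _ PowerSeries.X_ne_zero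
  apply mul_left_cancel₀ hX
  have g1 : gX * gY * (SX - SY) = (gX * SX) * gY - (gY * SY) * gX := by ring
  have g2 : PowerSeries.X ^ (c + c) * (GX * GY * (SX - SY)) = gX * gY * (SX - SY) := by
    rw [h5, h6]
    ring
  rw [g2, g1, ← h1, ← h2, h4]
  have g3 : PowerSeries.X * dY * gY = PowerSeries.X ^ c * GY * SY * gY := by
    rw [h2, h6]
  have g4 : PowerSeries.X * dY * gX = PowerSeries.X * dY * gY +
      PowerSeries.X ^ c * GY * SY * (PowerSeries.X ^ (c + e) * W) := by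
    rw [h3, mul_add, h2, h6]
  rw [g4, add_mul]
  have g5 : (PowerSeries.X ^ (c + e) * (((c + e : ℕ) : PowerSeries ℂ) * W + PowerSeries.X * dW)) *
      gY = (PowerSeries.X ^ (c + e) * (((c + e : ℕ) : PowerSeries ℂ) * W + PowerSeries.X * dW)) *
      (PowerSeries.X ^ c * GY) := by rw [← h6]
  rw [g5]
  ring

end Pl_aux

open Pl_aux in
theorem pPl (hBer : S_Ber) : S_Pl := by
  intro c m x y hx hy hdvd l hl
  obtain ⟨W, hW⟩ := hdvd
  obtain ⟨GX, hGX1, hGX2⟩ := gfac x hx
  obtain ⟨GY, hGY1, hGY2⟩ := gfac y hy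
  have h1 : PowerSeries.X * PowerSeries.derivative ℂ (gx x) = gx x * Sx x := hBer c x
  have h2 : PowerSeries.X * PowerSeries.derivative ℂ (gx y) = gx y * Sx y := hBer c y
  have h3 : gx x = gx y + PowerSeries.X ^ m * W := by rw [← hW]; ring
  have h4 : PowerSeries.X * PowerSeries.derivative ℂ (gx x) =
      PowerSeries.X * PowerSeries.derivative ℂ (gx y) +
      (PowerSeries.X ^ m * ((m : PowerSeries ℂ) * W +
        PowerSeries.X * PowerSeries.derivative ℂ W)) := by
    have hm : 0 < m := by omega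
    obtain ⟨m, rfl⟩ := Nat.exists_eq_succ_of_ne_zero hm.ne'
    rw [h3, map_add, mul_add, Derivation.leibniz, Derivation.leibniz_pow]
    have hdX : PowerSeries.derivative ℂ (PowerSeries.X : PowerSeries ℂ) = 1 := by
      exact PowerSeries.derivative_X
    rw [hdX]
    simp only [smul_eq_mul, nsmul_eq_mul, Nat.succ_eq_add_one, Nat.add_sub_cancel]
    ring
  have h5 := alg (c := c) (m := m) (gx x) (gx y) _ _ (Sx x) (Sx y) W GX GY _ (by omega) h1 h2 h3 h4
    hGX1 hGY1
  rw [IsUnit.dvd_mul_left (hGX2.mul hGY2), PowerSeries.X_pow_dvd_iff] at h5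
  have h6 := h5 l (by omega)
  rw [map_sub, coeff_Sx, coeff_Sx, sub_eq_zero] at h6
  have hf : ((l.factorial : ℕ) : ℂ) ≠ 0 := by exact_mod_cast l.factorial_ne_zero
  have h7 : ((∑ j, x j ^ l) * (((_root_.bernoulli l : ℚ) : ℂ) / (l.factorial : ℂ))) *
      (l.factorial : ℂ) = ((∑ j, y j ^ l) * (((_root_.bernoulli l : ℚ) : ℂ) /
      (l.factorial : ℂ))) * (l.factorial : ℂ) := by rw [h6]
  rw [mul_assoc, mul_assoc, div_mul_cancel₀ _ hf] at h7
  rw [mul_comm, h7, mul_comm]

end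

end SDV
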