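import Pool.Agent.Lib.MP_776403_ag.SD.V.Spec

/-! # [T2] small facts on `tau` -/

open Polynomial

namespace SDV

noncomputable section

private lemma t2_pow (i : ℕ) : (eu (-1)) ^ i = eu (-(i : ℂ)) := by
  unfold eu
  rw [← map_pow, PowerSeries.exp_pow_eq_rescale_exp, PowerSeries.rescale_rescale]
  congr 2
  ring

private lemma t2_X (i : ℕ) : tau (X ^ i) = eu (-(i : ℂ)) := by
  unfold tau
  rw [map_pow, Polynomial.aeval_X, t2_pow]

private lemma t2_coeff_eu (x : ℂ) (k : ℕ) : PowerSeries.coeff k (eu x) = x ^ k / (k.factorial : ℂ) := by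
  unfold eu
  rw [PowerSeries.coeff_rescale, PowerSeries.coeff_exp]
  simp [div_eq_mul_inv]

private lemma t2_sum (F : ℤ[X]) : tau F = ∑ i ∈ F.support, (F.coeff i : ℤ) • eu (-(i : ℂ)) := by
  unfold tau
  rw [Polynomial.aeval_def, Polynomial.eval₂_eq_sum, Polynomial.sum_def]
  refine Finset.sum_congr rfl fun i _ => ?_
  rw [t2_pow]
  simp [zsmul_eq_mul]

theorem pT2 : S_T2 := by
  intro F
  refine ⟨?_, ?_, ?_, t2_X⟩
  · intro k
    rw [t2_sum, map_sum]
    refine Finset.sum_congr rfl fun i _ => ?_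
    rw [map_zsmul, t2_coeff_eu, zsmul_eq_mul]
  · rw [← PowerSeries.coeff_zero_eq_constantCoeff_apply, t2_sum, map_sum,
      Polynomial.eval_eq_sum, Polynomial.sum_def]
    push_cast
    refine Finset.sum_congr rfl fun i _ => ?_
    rw [map_zsmul, t2_coeff_eu, zsmul_eq_mul]
    simp
  · have h : (eu (-1)) ^ 2 = PowerSeries.rescale 2 (eu (-1)) := by
      rw [t2_pow]
      unfold eu
      rw [PowerSeries.rescale_rescale]
      congr 2
      push_cast
      ring
    unfold tau
    rw [Polynomial.aeval_comp, map_pow, Polynomial.aeval_X, Polynomial.aeval_def, Polynomial.aeval_def,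
      Polynomial.hom_eval₂, h]
    congr 1
    exact Subsingleton.elim _ _

end

end SDV
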