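import Pool.Agent.Lib.MP_776403_ag.SD.V.Spec

/-!
# SD, part V, module Uni: uniqueness of solutions
-/

set_option autoImplicit false

open Polynomial

namespace SDV

noncomputable section

theorem pUni (hL : S_L) : S_Uni := by
  intro c m r r' hr hr' hlead k
  induction k using Nat.strong_induction_on with
  | _ k ih =>
    intro hk
    rcases Nat.eq_zero_or_pos k with h0 | h0
    · rw [h0, hr.r0, hr'.r0]
    by_contra hne
    set ρ : ℂ[X] := r k - r' k with hρ
    have hρ0 : ρ ≠ 0 := sub_ne_zero.2 hne
    have hX : ((1 + X : ℂ[X]) ^ c).comp (-X) = (1 - X) ^ c := by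
      rw [Polynomial.pow_comp, Polynomial.add_comp, Polynomial.one_comp, Polynomial.X_comp,
        ← sub_eq_add_neg]
    have h1 := hr.fe k hk
    have h2 := hr'.fe k hk
    have h3 : ∑ p ∈ Finset.HasAntidiagonal.antidiagonal k,
        (r p.1 * (r p.2).comp (-X) - r' p.1 * (r' p.2).comp (-X)) =
        ρ * (1 - X) ^ c + (1 + X) ^ c * ρ.comp (-X) := by
      have hsub : ({(k, 0), (0, k)} : Finset (ℕ × ℕ)) ⊆ Finset.HasAntidiagonal.antidiagonal k := by
        intro p hp
        rw [Finset.mem_insert, Finset.mem_singleton] at hp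
        rw [Finset.HasAntidiagonal.mem_antidiagonal]
        rcases hp with hp | hp <;> rw [hp] <;> simp
      rw [← Finset.sum_subset hsub]
      · rw [Finset.sum_pair (by
          intro h
          have := congrArg Prod.fst h
          simp only at this
          omega)]
        simp only
        rw [hr.r0, hr'.r0, hX, ← sub_mul, ← mul_sub, ← Polynomial.sub_comp]
      · intro p hp hp'
        rw [Finset.HasAntidiagonal.mem_antidiagonal] at hp
        rw [Finset.mem_insert, Finset.mem_singleton] at hp'
        push Not at hp'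
        have ha : p.1 < k := by
          rcases Nat.lt_or_ge p.1 k with h | h
          · exact h
          · exfalso
            exact hp'.1 (Prod.ext (by simp only; omega) (by simp only; omega))
        have hb : p.2 < k := by
          rcases Nat.lt_or_ge p.2 k with h | h
          · exact h
          · exfalso
            exact hp'.2 (Prod.ext (by simp only; omega) (by simp only; omega))
        rw [ih p.1 ha (lt_trans ha hk), ih p.2 hb (lt_trans hb hk), sub_self]
    have h4 : ρ * (1 - X) ^ c + (1 + X) ^ c * ρ.comp (-X) =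
        C (2 ^ k : ℂ) * ρ.comp (-X ^ 2) := by
      rw [← h3, Finset.sum_sub_distrib, h1, h2, ← mul_sub, ← Polynomial.sub_comp]
    have h5 : (1 - X : ℂ[X]) ^ c ∣ (1 + X) ^ c * ρ.comp (-X) - C (2 ^ k : ℂ) * ρ.comp (-X ^ 2) := by
      refine ⟨-ρ, ?_⟩
      rw [← h4]
      ring
    have hdeg : ρ.natDegree ≤ c := by
      refine (Polynomial.natDegree_sub_le _ _).trans ?_
      exact max_le (hr.rd k) (hr'.rd k)
    have hco : ρ.coeff 0 = 0 := by
      rw [hρ, Polynomial.coeff_sub, hr.rz k h0, hr'.rz k h0, sub_zero]
    have hXC : (X - C (-1 : ℂ) : ℂ[X]) = 1 + X := by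
      rw [map_neg, map_one]
      ring
    rcases hL c k c ρ hρ0 h5 with h6 | h6
    · rw [Polynomial.le_rootMultiplicity_iff hρ0, hXC] at h6
      obtain ⟨q, hq⟩ := h6
      have hq0 : q ≠ 0 := by
        intro h
        rw [h, mul_zero] at hq
        exact hρ0 hq
      have hXc : (1 + X : ℂ[X]) ^ c ≠ 0 := by
        intro h
        rw [h, zero_mul] at hq
        exact hρ0 hq
      have hnd : ((1 + X : ℂ[X]) ^ c).natDegree = c := by
        rw [← hXC, Polynomial.natDegree_pow, Polynomial.natDegree_X_sub_C, mul_one]
      have hqd : q.natDegree = 0 := by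
        have h7 := Polynomial.natDegree_mul hXc hq0
        rw [← hq, hnd] at h7
        omega
      rw [Polynomial.eq_C_of_natDegree_eq_zero hqd] at hq
      have h8 : ρ.coeff 0 = q.coeff 0 := by
        rw [hq, Polynomial.coeff_mul_C, Polynomial.coeff_zero_eq_eval_zero]
        simp
      rw [hco] at h8
      apply hρ0
      rw [hq, ← h8, map_zero, mul_zero]
    · have hkc : k ≤ c := by omega
      have h7 := hlead k hkc hk
      rw [← hρ, ← hXC, ← Polynomial.le_rootMultiplicity_iff hρ0] at h7
      omega

end

end SDV
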