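import Pool.Agent.Lib.MP_776403_ag.SD.V.Spec

/-! Module V of SDV: a solution is `rx x`. -/

open Polynomial

namespace SDV

theorem pV (hEx : S_Ex) (hL : S_rxL) (hS : S_rxS) (hU : S_Uni) : S_V := by
  intro c m r hcm hr
  obtain ⟨x, hx⟩ := hEx c m r hcm hr
  refine ⟨x, hU c m r (rx x) hr (hS c m x) ?_⟩
  intro k hk _
  have h := dvd_sub (hx k hk) (hL c x k hk)
  have he : (r k - C ((∏ j, (X + C (x j))).coeff (c - k)) * (1 + X) ^ (c - k)) -
      (rx x k - C ((∏ j, (X + C (x j))).coeff (c - k)) * (1 + X) ^ (c - k)) =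
      r k - rx x k := by ring
  rwa [he] at h

end SDV
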