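import Pool.Agent.Lib.MP_776403_ag.SD.V.Spec

/-! # zeros of g and growth -/

open Polynomial

namespace SDV

namespace Z_aux

/-- the non-zero zeros of `1 - e^(-xu)` -/
noncomputable def w (x : ℂ) (t : ℕ × Bool) : ℂ :=
  (if t.2 then 1 else -1) * (2 * Real.pi * Complex.I * ((t.1 : ℂ) + 1)) / x

/-- the index set -/
def T (K : ℕ) : Finset (ℕ × Bool) := Finset.range K ×ˢ (Finset.univ : Finset Bool)

theorem T_card (K : ℕ) : (T K).card = 2 * K := by
  simp [T, Finset.card_product, mul_comm]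

theorem two_pi_I_ne : (2 * Real.pi * Complex.I : ℂ) ≠ 0 := Complex.two_pi_I_ne_zero

theorem w_ne (x : ℂ) (hx : x ≠ 0) (t : ℕ × Bool) : w x t ≠ 0 := by
  unfold w
  have h1 : ((t.1 : ℂ) + 1) ≠ 0 := Nat.cast_add_one_ne_zero t.1
  have h2 : (if t.2 then (1 : ℂ) else -1) ≠ 0 := by split_ifs <;> norm_num
  exact div_ne_zero (mul_ne_zero h2 (mul_ne_zero two_pi_I_ne h1)) hx

theorem w_norm (x : ℂ) (t : ℕ × Bool) : ‖w x t‖ = 2 * Real.pi * ((t.1 : ℝ) + 1) / ‖x‖ := by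
  unfold w
  have h2 : ‖(if t.2 then (1 : ℂ) else -1)‖ = 1 := by split_ifs <;> simp
  have h3 : ‖((t.1 : ℂ) + 1)‖ = (t.1 : ℝ) + 1 := by
    have : ((t.1 : ℂ) + 1) = (((t.1 : ℝ) + 1 : ℝ) : ℂ) := by push_cast; ring
    rw [this, Complex.norm_real, Real.norm_eq_abs, abs_of_nonneg (by positivity)]
  rw [norm_div, norm_mul, norm_mul, norm_mul, norm_mul, h2, h3, Complex.norm_I, Complex.norm_real,
    Real.norm_eq_abs, abs_of_nonneg Real.pi_pos.le]
  simp

theorem w_inj (x : ℂ) (hx : x ≠ 0) : Function.Injective (w x) := by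
  intro s t h
  unfold w at h
  rw [div_left_inj' hx] at h
  have h4 : (if s.2 then (1 : ℂ) else -1) * ((s.1 : ℂ) + 1) =
      (if t.2 then (1 : ℂ) else -1) * ((t.1 : ℂ) + 1) := by
    apply mul_left_cancel₀ two_pi_I_ne
    linear_combination h
  obtain ⟨s1, s2⟩ := s
  obtain ⟨t1, t2⟩ := t
  simp only at h4
  have h5 : (if s2 then (1 : ℝ) else -1) * ((s1 : ℝ) + 1) =
      (if t2 then (1 : ℝ) else -1) * ((t1 : ℝ) + 1) := by
    have := congrArg Complex.re h4
    cases s2 <;> cases t2 <;> simpa using this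
  have p1 : (0 : ℝ) ≤ s1 := Nat.cast_nonneg _
  have p2 : (0 : ℝ) ≤ t1 := Nat.cast_nonneg _
  cases s2 <;> cases t2 <;> simp only [Bool.false_eq_true, if_false, if_true] at h5
  · have : (s1 : ℝ) = t1 := by linarith
    rw [Nat.cast_injective this]
  · linarith
  · linarith
  · have : (s1 : ℝ) = t1 := by linarith
    rw [Nat.cast_injective this]

theorem w_zero (x : ℂ) (hx : x ≠ 0) (t : ℕ × Bool) : 1 - Complex.exp (-(x * w x t)) = 0 := by
  rw [sub_eq_zero, eq_comm, Complex.exp_eq_one_iff]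
  obtain ⟨n, b⟩ := t
  unfold w
  cases b
  · refine ⟨(n : ℤ) + 1, ?_⟩
    simp only [Bool.false_eq_true, if_false]
    push_cast
    field_simp
  · refine ⟨-((n : ℤ) + 1), ?_⟩
    simp only [if_true]
    push_cast
    field_simp

theorem prod_T (K : ℕ) (y : ℝ) :
    ∏ t ∈ T K, (y / ((t.1 : ℝ) + 1)) = (y ^ K / (K.factorial : ℝ)) ^ 2 := by
  unfold T
  rw [Finset.prod_product]
  simp only [Finset.prod_const, Finset.card_univ, Fintype.card_bool]
  rw [Finset.prod_pow, Finset.prod_div_distrib, Finset.prod_const, Finset.card_range]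
  congr 2
  rw [← Finset.prod_range_add_one_eq_factorial]
  push_cast
  rfl

theorem one (hDv : S_Dv) (x : ℂ) (hx : x ≠ 0) (R : ℝ) (hR : 0 < R) (K : ℕ) :
    ∃ H : ℂ → ℂ, Differentiable ℂ H ∧
      (∀ u, 1 - Complex.exp (-(x * u)) = u * ((∏ t ∈ T K, (u - w x t)) * H u)) ∧
      ‖H 0‖ * R ^ (T K).card =
        ‖x‖ * ((‖x‖ * R / (2 * Real.pi)) ^ K / (K.factorial : ℝ)) ^ 2 := by
  classical
  have hxn : 0 < ‖x‖ := norm_pos_iff.mpr hx
  have hpi := Real.pi_pos
  obtain ⟨H, hH, hHF⟩ := hDv (fun u => 1 - Complex.exp (-(x * u)))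
    (insert 0 ((T K).image (w x))) (by fun_prop) (by
      intro z hz
      rcases Finset.mem_insert.mp hz with h | h
      · rw [h]; simp
      · obtain ⟨t, _, rfl⟩ := Finset.mem_image.mp h
        exact w_zero x hx t)
  have hF : ∀ u, 1 - Complex.exp (-(x * u)) = u * ((∏ t ∈ T K, (u - w x t)) * H u) := by
    intro u
    rw [hHF u, Finset.prod_insert (by
      intro h0
      obtain ⟨t, _, ht⟩ := Finset.mem_image.mp h0
      exact w_ne x hx t ht), Finset.prod_image (fun a _ b _ hab => w_inj x hx hab), sub_zero,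
      mul_assoc]
  refine ⟨H, hH, hF, ?_⟩
  -- the derivative at 0
  have hG : Differentiable ℂ (fun u => (∏ t ∈ T K, (u - w x t)) * H u) := by
    fun_prop
  have d1 : HasDerivAt (fun u : ℂ => u * ((∏ t ∈ T K, (u - w x t)) * H u))
      ((∏ t ∈ T K, (0 - w x t)) * H 0) 0 := by
    have h := (hasDerivAt_id' (0 : ℂ)).fun_mul (hG 0).hasDerivAt
    simp only [one_mul, zero_mul, add_zero] at h
    exact h
  have d2 : HasDerivAt (fun u : ℂ => 1 - Complex.exp (-(x * u))) x 0 := by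
    have h : HasDerivAt (fun u : ℂ => -(x * u)) (-x) 0 := by
      have h0 := ((hasDerivAt_id' (0 : ℂ)).const_mul x).fun_neg
      rw [mul_one] at h0
      exact h0
    have h2 := (h.cexp).const_sub 1
    simpa using h2
  have d3 : (fun u : ℂ => 1 - Complex.exp (-(x * u))) =
      (fun u : ℂ => u * ((∏ t ∈ T K, (u - w x t)) * H u)) := funext hF
  rw [d3] at d2
  have d4 : (∏ t ∈ T K, (0 - w x t)) * H 0 = x := d1.unique d2
  have d5 : (∏ t ∈ T K, ‖w x t‖) * ‖H 0‖ = ‖x‖ := by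
    have d6 := congrArg norm d4
    rw [norm_mul, norm_prod] at d6
    rw [← d6]
    congr 1
    apply Finset.prod_congr rfl
    intro t _
    rw [zero_sub, norm_neg]
  have hw : ∀ t : ℕ × Bool, 0 < ‖w x t‖ := fun t => norm_pos_iff.mpr (w_ne x hx t)
  have e1 : ∏ t ∈ T K, (R / ‖w x t‖) = ((‖x‖ * R / (2 * Real.pi)) ^ K / (K.factorial : ℝ)) ^ 2 := by
    rw [← prod_T]
    apply Finset.prod_congr rfl
    intro t _
    rw [w_norm]
    have : (0 : ℝ) < (t.1 : ℝ) + 1 := by positivity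
    field_simp
  rw [← e1, Finset.prod_div_distrib, Finset.prod_const, ← d5]
  have hp : ∏ t ∈ T K, ‖w x t‖ ≠ 0 := Finset.prod_ne_zero_iff.mpr (fun t _ => (hw t).ne')
  field_simp

end Z_aux

open Z_aux in
theorem pZ (hJ : S_J) (hDv : S_Dv) (hK : S_K) : S_Z := by
  intro c x R Mx hx hR hg
  have hpi := Real.pi_pos
  have hxn : ∀ j, 0 < ‖x j‖ := fun j => norm_pos_iff.mpr (hx j)
  choose H hH hF hH0 using fun j =>
    one hDv (x j) (hx j) R hR ⌊‖x j‖ * R / (2 * Real.pi)⌋₊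
  have main := hJ (Σ _ : Fin c, ℕ × Bool)
    (Finset.univ.sigma fun j => T ⌊‖x j‖ * R / (2 * Real.pi)⌋₊)
    (fun i => w (x i.1) i.2) (fun u => ∏ j, H j u) R (Mx * ∏ j, ‖x j‖) hR
    (by fun_prop) (by
      intro u hu
      have h := hg u hu
      have e : gP x u = u ^ c * ((∏ i ∈ Finset.univ.sigma
          (fun j => T ⌊‖x j‖ * R / (2 * Real.pi)⌋₊), (u - w (x i.1) i.2)) * ∏ j, H j u) := by
        unfold gP
        rw [Finset.prod_congr rfl (fun j _ => hF j u), Finset.prod_mul_distrib,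
          Finset.prod_mul_distrib, Finset.prod_sigma, Finset.prod_const, Finset.card_univ,
          Fintype.card_fin]
      rw [e, norm_mul, norm_pow, hu] at h
      have hRc : 0 < R ^ c := by positivity
      have h' : R ^ c * ‖(∏ i ∈ Finset.univ.sigma
          (fun j => T ⌊‖x j‖ * R / (2 * Real.pi)⌋₊), (u - w (x i.1) i.2)) * ∏ j, H j u‖ ≤
          R ^ c * (Mx * ∏ j, ‖x j‖) := by
        refine le_trans h (le_of_eq (by ring))
      exact le_of_mul_le_mul_left h' hRc)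
  have e2 : ‖∏ j, H j 0‖ * R ^ (Finset.univ.sigma
      fun j => T ⌊‖x j‖ * R / (2 * Real.pi)⌋₊).card =
      ∏ j, (‖x j‖ * ((‖x j‖ * R / (2 * Real.pi)) ^ ⌊‖x j‖ * R / (2 * Real.pi)⌋₊ /
        ((⌊‖x j‖ * R / (2 * Real.pi)⌋₊).factorial : ℝ)) ^ 2) := by
    rw [Finset.card_sigma, ← Finset.prod_pow_eq_pow_sum, norm_prod, ← Finset.prod_mul_distrib]
    exact Finset.prod_congr rfl (fun j _ => hH0 j)
  have main2 : ∏ j, (‖x j‖ * ((‖x j‖ * R / (2 * Real.pi)) ^ ⌊‖x j‖ * R / (2 * Real.pi)⌋₊ /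
        ((⌊‖x j‖ * R / (2 * Real.pi)⌋₊).factorial : ℝ)) ^ 2) ≤ Mx * ∏ j, ‖x j‖ := by
    rw [← e2]; exact main
  have hge : (∏ j, ‖x j‖) * ∏ j, (4 : ℝ) ^ (‖x j‖ * R / (2 * Real.pi) - 2) ≤ Mx * ∏ j, ‖x j‖ := by
    refine le_trans ?_ main2
    rw [← Finset.prod_mul_distrib]
    apply Finset.prod_le_prod
    · intro j _
      have := hxn j
      positivity
    · intro j _
      exact mul_le_mul_of_nonneg_left (hK _ (by have := hxn j; positivity)) (hxn j).le
  have hP : 0 < ∏ j, ‖x j‖ := Finset.prod_pos (fun j _ => hxn j)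
  have h3 : (∏ j, ‖x j‖) * ∏ j, (4 : ℝ) ^ (‖x j‖ * R / (2 * Real.pi) - 2) ≤
      (∏ j, ‖x j‖) * Mx := by linarith [mul_comm Mx (∏ j, ‖x j‖)]
  exact le_of_mul_le_mul_left h3 hP

end SDV
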