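import Pool.Agent.Lib.MP_776403_ag.SD.V.Spec

/-!
# SD, part V, module rxP: `rx` is the coefficient of the product
-/

set_option autoImplicit false

open Polynomial

namespace SDV

noncomputable section

namespace rxP_aux

theorem eu_zero : eu 0 = 1 := by
  ext n
  rw [eu, PowerSeries.coeff_rescale, PowerSeries.coeff_exp, PowerSeries.coeff_one]
  rcases Nat.eq_zero_or_pos n with h | h
  · subst h
    simp
  · rw [zero_pow h.ne', zero_mul, if_neg h.ne']

theorem eu_mul (x y : ℂ) : eu x * eu y = eu (x + y) := by
  unfold eu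
  exact PowerSeries.exp_mul_exp_eq_exp_add x y

theorem prod_eu {ι : Type} (x : ι → ℂ) (A : Finset ι) :
    ∏ i ∈ A, eu (-(x i)) = eu (-∑ i ∈ A, x i) := by
  classical
  induction A using Finset.induction_on with
  | empty => rw [Finset.prod_empty, Finset.sum_empty, neg_zero, eu_zero]
  | insert a s ha ih =>
    rw [Finset.prod_insert ha, Finset.sum_insert ha, ih, eu_mul, neg_add]

theorem coeff_eu (x : ℂ) (k : ℕ) : PowerSeries.coeff k (eu x) = x ^ k / (k.factorial : ℂ) := by
  rw [eu, PowerSeries.coeff_rescale, PowerSeries.coeff_exp]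
  simp [div_eq_mul_inv]

end rxP_aux

open rxP_aux

theorem prxP : S_rxP := by
  intro c x k
  rw [Finset.prod_one_add, Finset.powerset_univ, map_sum]
  unfold rx
  refine Finset.sum_congr rfl fun A _ => ?_
  rw [Finset.prod_mul_distrib, Finset.prod_const, ← map_prod, prod_eu, ← map_pow,
    PowerSeries.coeff_C_mul, PowerSeries.coeff_map, coeff_eu, mul_comm]

end

end SDV
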