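import Pool.Agent.Lib.MP_776403_ag.SD.V.Spec

/-!
# SD, part V, module rxS: `rx` is a solution
-/

set_option autoImplicit false

open Polynomial

namespace SDV

noncomputable section

namespace rxS_aux

variable {c : ℕ}

theorem eu_sq (y : ℂ) : eu y ^ 2 = PowerSeries.rescale 2 (eu y) := by
  have h : eu y * eu y = eu (y + y) := by
    unfold eu
    exact PowerSeries.exp_mul_exp_eq_exp_add y y
  rw [sq, h]
  unfold eu
  ext n
  rw [PowerSeries.coeff_rescale, PowerSeries.coeff_rescale, PowerSeries.coeff_rescale, ← two_mul,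
    mul_pow, mul_assoc]

/-- The factor. -/
def Y (y : ℂ) : PowerSeries ℂ[X] := PowerSeries.map (Polynomial.C : ℂ →+* ℂ[X]) (eu y)

/-- The product. -/
def F (x : Fin c → ℂ) : PowerSeries ℂ[X] := ∏ j, (1 + PowerSeries.C (X : ℂ[X]) * Y (-(x j)))

theorem map_Y (σ : ℂ[X] →+* ℂ[X]) (hσ : ∀ a : ℂ, σ (C a) = C a) (y : ℂ) :
    PowerSeries.map σ (Y y) = Y y := by
  ext1 n
  rw [Y, PowerSeries.coeff_map, PowerSeries.coeff_map, hσ]

theorem map_F (σ : ℂ[X] →+* ℂ[X]) (hσ : ∀ a : ℂ, σ (C a) = C a) (x : Fin c → ℂ) :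
    PowerSeries.map σ (F x) = ∏ j, (1 + PowerSeries.C (σ X) * Y (-(x j))) := by
  unfold F
  rw [map_prod]
  refine Finset.prod_congr rfl fun j _ => ?_
  rw [map_add, map_one, map_mul, map_Y σ hσ, PowerSeries.map_C]

theorem rescale_Y (y : ℂ) : PowerSeries.rescale (C 2 : ℂ[X]) (Y y) = Y y ^ 2 := by
  unfold Y
  rw [← map_pow, eu_sq]
  ext1 n
  rw [PowerSeries.coeff_rescale, PowerSeries.coeff_map, PowerSeries.coeff_map,
    PowerSeries.coeff_rescale, map_mul, map_pow]

end rxS_aux

open rxS_aux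

theorem prxS (hrxP : S_rxP) : S_rxS := by
  intro c m x
  refine ⟨?_, ?_, ?_, ?_⟩
  · unfold rx
    have h : (1 + X : ℂ[X]) ^ c = ∏ _j : Fin c, (1 + X : ℂ[X]) := by
      rw [Finset.prod_const, Finset.card_univ, Fintype.card_fin]
    rw [h, Finset.prod_one_add, Finset.powerset_univ]
    refine Finset.sum_congr rfl fun A _ => ?_
    rw [Finset.prod_const, pow_zero, Nat.factorial_zero, Nat.cast_one, div_one, map_one, one_mul]
  · intro k
    unfold rx
    refine Polynomial.natDegree_sum_le_of_forall_le _ _ fun A _ => ?_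
    refine (Polynomial.natDegree_C_mul_X_pow_le _ _).trans ?_
    exact (Finset.card_le_univ A).trans_eq (Fintype.card_fin c)
  · intro k hk
    unfold rx
    rw [Polynomial.finsetSum_coeff]
    refine Finset.sum_eq_zero fun A _ => ?_
    rw [Polynomial.coeff_C_mul, Polynomial.coeff_X_pow]
    by_cases hA : 0 = A.card
    · have hA' : A = ∅ := Finset.card_eq_zero.1 hA.symm
      rw [hA', Finset.sum_empty, neg_zero, zero_pow (by omega), zero_div, zero_mul]
    · rw [if_neg hA, mul_zero]
  · intro k _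
    have hF : ∀ k, rx x k = PowerSeries.coeff k (F x) := fun k => hrxP c x k
    have h1 : ∑ p ∈ Finset.HasAntidiagonal.antidiagonal k, rx x p.1 * (rx x p.2).comp (-X) =
        PowerSeries.coeff k (F x * PowerSeries.map (Polynomial.compRingHom (-X)) (F x)) := by
      rw [PowerSeries.coeff_mul]
      refine Finset.sum_congr rfl fun p _ => ?_
      rw [PowerSeries.coeff_map, hF, hF]
      rfl
    have h2 : C (2 ^ k : ℂ) * (rx x k).comp (-X ^ 2) = PowerSeries.coeff k
        (PowerSeries.rescale (C 2 : ℂ[X])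
          (PowerSeries.map (Polynomial.compRingHom (-X ^ 2)) (F x))) := by
      rw [PowerSeries.coeff_rescale, PowerSeries.coeff_map, hF, map_pow]
      rfl
    rw [h1, h2]
    refine congrArg _ ?_
    rw [map_F _ (fun a => by simp), map_F _ (fun a => by simp), map_prod]
    unfold F
    rw [← Finset.prod_mul_distrib]
    refine Finset.prod_congr rfl fun j _ => ?_
    have e1 : (Polynomial.compRingHom (-X : ℂ[X])) X = -X := by simp
    have e2 : (Polynomial.compRingHom (-X ^ 2 : ℂ[X])) X = -X ^ 2 := by simp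
    have e3 : PowerSeries.rescale (C 2 : ℂ[X]) (PowerSeries.C (-X ^ 2 : ℂ[X])) =
        PowerSeries.C (-X ^ 2 : ℂ[X]) := by
      ext1 n
      rw [PowerSeries.coeff_rescale, PowerSeries.coeff_C]
      by_cases hn : n = 0
      · subst hn
        simp
      · rw [if_neg hn, mul_zero]
    rw [e1, e2, map_add, map_one, map_mul, rescale_Y, e3]
    rw [map_neg, map_neg, map_pow]
    ring

end

end SDV
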